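import Pool.Agent.H725R2.SB.Defs2

/-! The lattice `ℤ^d`: definitions of the level functionals. -/

set_option autoImplicit false

namespace Pool.Agent.H725R2.SB

open Finset

/-- The `2d` unit steps of `ℤ^d`. -/
def Om (d : ℕ) : Finset (Fin d → ℤ) :=
  (Finset.univ.image (fun i : Fin d => (Pi.single i 1 : Fin d → ℤ))) ∪
  (Finset.univ.image (fun i : Fin d => (Pi.single i (-1) : Fin d → ℤ)))

/-- `w` is an `N`-step self-avoiding walk in `ℤ^d` from the origin. -/
def IsSAW (d N : ℕ) (w : Fin (N + 1) → (Fin d → ℤ)) : Prop :=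
  w 0 = 0 ∧ (∀ i : Fin N, ∑ k, |w i.succ k - w i.castSucc k| = 1) ∧ Function.Injective w

/-- The number of `N`-step self-avoiding walks in `ℤ^d`. -/
noncomputable def cN (d N : ℕ) : ℕ := Nat.card {w : Fin (N + 1) → (Fin d → ℤ) // IsSAW d N w}

/-- The number of `N`-step self-avoiding walks in `ℤ^d` which leave, at some time, the cube
`|x_i| < R`. -/
noncomputable def cfar (d N : ℕ) (R : ℝ) : ℕ :=
  Nat.card {w : Fin (N + 1) → (Fin d → ℤ) // IsSAW d N w ∧ ∃ i k, R ≤ |((w i k : ℤ) : ℝ)|}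

end Pool.Agent.H725R2.SB
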