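import Pool.Agent.H725R2.SB.TC2

/-! Task D of the sub-ballisticity project. -/

set_option autoImplicit false

namespace Pool.Agent.H725R2.SB

open Finset

variable {V : Type*} [AddCommGroup V] {Ω : Finset V}

private theorem tD_lev_g (Fr : Frame Ω) (ξ : ℕ → V) (i : ℕ) :
    lev Fr.B (fun i => Fr.g (ξ i)) i = lev Fr.B' ξ i := by
  unfold lev
  rw [P_map, Fr.gB]

private theorem tD_lev_g' (Fr : Frame Ω) (ξ : ℕ → V) (i : ℕ) :
    lev Fr.B' (fun i => Fr.g (ξ i)) i = lev Fr.B ξ i := by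
  unfold lev
  rw [P_map, ← Fr.gB, Fr.gg]

theorem br_symm (Fr : Frame Ω) (N : ℕ) (h : ℤ) : br Fr.B' N h = br Fr.B N h := by
  classical
  unfold br
  refine Finset.card_nbij' (fun ξ i => Fr.g (ξ i)) (fun ξ i => Fr.g (ξ i)) ?_ ?_ ?_ ?_
  · intro ξ hξ
    simp only [Finset.coe_filter, Set.mem_setOf_eq, mem_SawSet] at hξ ⊢
    obtain ⟨h1, h2, h3⟩ := hξ
    refine ⟨h1.map _ Fr.gΩ, ⟨h1.map _ Fr.gΩ, ?_, ?_⟩, ?_⟩
    · intro i hi hi'
      rw [tD_lev_g]
      exact h2.pos i hi hi'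
    · intro i hi
      rw [tD_lev_g, tD_lev_g]
      exact h2.top i hi
    · rw [tD_lev_g]
      exact h3
  · intro ξ hξ
    simp only [Finset.coe_filter, Set.mem_setOf_eq, mem_SawSet] at hξ ⊢
    obtain ⟨h1, h2, h3⟩ := hξ
    refine ⟨h1.map _ Fr.gΩ, ⟨h1.map _ Fr.gΩ, ?_, ?_⟩, ?_⟩
    · intro i hi hi'
      rw [tD_lev_g']
      exact h2.pos i hi hi'
    · intro i hi
      rw [tD_lev_g', tD_lev_g']
      exact h2.top i hi
    · rw [tD_lev_g']
      exact h3
  · intro ξ _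
    funext i
    exact Fr.gg _
  · intro ξ _
    funext i
    exact Fr.gg _

theorem cge_symm (Fr : Frame Ω) (N : ℕ) (h : ℤ) : cge Fr.B' N h = cge Fr.B N h := by
  classical
  unfold cge
  refine Finset.card_nbij' (fun ξ i => Fr.g (ξ i)) (fun ξ i => Fr.g (ξ i)) ?_ ?_ ?_ ?_
  · intro ξ hξ
    simp only [Finset.coe_filter, Set.mem_setOf_eq, mem_SawSet] at hξ ⊢
    obtain ⟨h1, h3⟩ := hξ
    refine ⟨h1.map _ Fr.gΩ, ?_⟩
    rw [tD_lev_g]
    exact h3
  · intro ξ hξ
    simp only [Finset.coe_filter, Set.mem_setOf_eq, mem_SawSet] at hξ ⊢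
    obtain ⟨h1, h3⟩ := hξ
    refine ⟨h1.map _ Fr.gΩ, ?_⟩
    rw [tD_lev_g']
    exact h3
  · intro ξ _
    funext i
    exact Fr.gg _
  · intro ξ _
    funext i
    exact Fr.gg _

open scoped Classical in
/-- number of walks with `|lev| = k` -/
private theorem tD_count (L : Lev Ω) (τ k : ℕ) :
    ((SawSet Ω τ).filter (fun p => (lev L p τ).natAbs = k)).card ≤ 2 * cge L τ k := by
  have hsub : (SawSet Ω τ).filter (fun p => (lev L p τ).natAbs = k) ⊆
      (SawSet Ω τ).filter (fun p => (k : ℤ) ≤ lev L p τ) ∪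
      (SawSet Ω τ).filter (fun p => (k : ℤ) ≤ -lev L p τ) := by
    intro p hp
    simp only [Finset.mem_filter, Finset.mem_union] at hp ⊢
    obtain ⟨h1, h2⟩ := hp
    rcases Int.natAbs_eq (lev L p τ) with h | h
    · left
      refine ⟨h1, ?_⟩
      rw [h, h2]
    · right
      refine ⟨h1, ?_⟩
      rw [h, h2]
      omega
  have hcard : ((SawSet Ω τ).filter (fun p => (k : ℤ) ≤ -lev L p τ)).card ≤ cge L τ k := by
    unfold cge
    refine Finset.card_le_card_of_injOn (fun ξ i => L.r (ξ i)) ?_ ?_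
    · intro ξ hξ
      simp only [Finset.coe_filter, Set.mem_setOf_eq, mem_SawSet] at hξ ⊢
      obtain ⟨h1, h3⟩ := hξ
      refine ⟨h1.map _ L.rΩ, ?_⟩
      rw [lev_map_r]
      exact h3
    · intro ξ _ η _ h
      funext i
      have := congrFun h i
      exact L.r.injective this
  calc ((SawSet Ω τ).filter (fun p => (lev L p τ).natAbs = k)).card
      ≤ ((SawSet Ω τ).filter (fun p => (k : ℤ) ≤ lev L p τ) ∪
      (SawSet Ω τ).filter (fun p => (k : ℤ) ≤ -lev L p τ)).card := Finset.card_le_card hsub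
    _ ≤ ((SawSet Ω τ).filter (fun p => (k : ℤ) ≤ lev L p τ)).card +
      ((SawSet Ω τ).filter (fun p => (k : ℤ) ≤ -lev L p τ)).card := Finset.card_union_le _ _
    _ ≤ cge L τ k + cge L τ k := by
        refine Nat.add_le_add ?_ hcard
        unfold cge
        exact le_rfl
    _ = 2 * cge L τ k := by ring

private theorem tD_one (L : Lev Ω) {s G : ℝ} (hs : 0 ≤ s) (hG : 0 ≤ G)
    (H : ∀ (T : ℕ) (h : ℤ), (br L T h : ℝ) ≤ mu Ω ^ T * Real.exp (-G * (h - s * T)))
    (τ : ℕ) :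
    ∑ p ∈ SawSet Ω τ, Real.exp (G * max 0 (|((lev L p τ : ℤ) : ℝ)| - s * τ)) ≤
      2 * (τ + 1) * Real.exp (25 * (τ : ℝ) ^ (3 / 4 : ℝ)) *
        mu Ω ^ (τ + 1) * Real.exp (G * s) := by
  classical
  have hmaps : ∀ p ∈ SawSet Ω τ, (lev L p τ).natAbs ∈ Finset.range (τ + 1) := by
    intro p hp
    rw [mem_SawSet] at hp
    have := lev_abs_le L hp τ
    rw [Finset.mem_range]
    rw [abs_le] at this
    omega
  rw [← Finset.sum_fiberwise_of_maps_to hmaps]
  have hfib : ∀ k ∈ Finset.range (τ + 1),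
      ∑ p ∈ (SawSet Ω τ).filter (fun p => (lev L p τ).natAbs = k),
        Real.exp (G * max 0 (|((lev L p τ : ℤ) : ℝ)| - s * τ)) ≤
      2 * Real.exp (25 * (τ : ℝ) ^ (3 / 4 : ℝ)) * mu Ω ^ (τ + 1) * Real.exp (G * s) := by
    intro k _
    have h1 : ∑ p ∈ (SawSet Ω τ).filter (fun p => (lev L p τ).natAbs = k),
        Real.exp (G * max 0 (|((lev L p τ : ℤ) : ℝ)| - s * τ)) =
        (((SawSet Ω τ).filter (fun p => (lev L p τ).natAbs = k)).card : ℝ) *
          Real.exp (G * max 0 ((k : ℝ) - s * τ)) := by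
      rw [← nsmul_eq_mul]
      apply Finset.sum_eq_card_nsmul
      intro p hp
      rw [Finset.mem_filter] at hp
      have : |((lev L p τ : ℤ) : ℝ)| = (k : ℝ) := by
        rw [← hp.2, Nat.cast_natAbs]
        push_cast
        rfl
      rw [this]
    rw [h1]
    have hE : (0 : ℝ) ≤ Real.exp (G * max 0 ((k : ℝ) - s * τ)) := (Real.exp_pos _).le
    have hA : (0 : ℝ) ≤ Real.exp (25 * (τ : ℝ) ^ (3 / 4 : ℝ)) := (Real.exp_pos _).le
    have hmu : (0 : ℝ) ≤ mu Ω ^ (τ + 1) := pow_nonneg (Real.exp_pos _).le _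
    have h2 : (((SawSet Ω τ).filter (fun p => (lev L p τ).natAbs = k)).card : ℝ) ≤
        2 * (Real.exp (25 * (τ : ℝ) ^ (3 / 4 : ℝ)) * br L (τ + 1) k) := by
      calc (((SawSet Ω τ).filter (fun p => (lev L p τ).natAbs = k)).card : ℝ)
          ≤ ((2 * cge L τ k : ℕ) : ℝ) := by exact_mod_cast tD_count L τ k
        _ = 2 * (cge L τ k : ℝ) := by push_cast; ring
        _ ≤ 2 * (Real.exp (25 * (τ : ℝ) ^ (3 / 4 : ℝ)) * br L (τ + 1) k) := by
            have := cge_le L τ k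
            linarith
    have h3 : (br L (τ + 1) (k : ℤ) : ℝ) * Real.exp (G * max 0 ((k : ℝ) - s * τ)) ≤
        mu Ω ^ (τ + 1) * Real.exp (G * s) := by
      rcases le_total ((k : ℝ) - s * τ) 0 with hk | hk
      · rw [max_eq_left hk, mul_zero, Real.exp_zero, mul_one]
        refine (br_le_mu_pow L (τ + 1) k).trans ?_
        have : (1 : ℝ) ≤ Real.exp (G * s) := Real.one_le_exp (mul_nonneg hG hs)
        nlinarith
      · rw [max_eq_right hk]
        have hH := H (τ + 1) k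
        calc (br L (τ + 1) (k : ℤ) : ℝ) * Real.exp (G * ((k : ℝ) - s * τ))
            ≤ (mu Ω ^ (τ + 1) * Real.exp (-G * (((k : ℤ) : ℝ) - s * ((τ + 1 : ℕ) : ℝ)))) *
              Real.exp (G * ((k : ℝ) - s * τ)) :=
              mul_le_mul_of_nonneg_right hH (Real.exp_pos _).le
          _ = mu Ω ^ (τ + 1) * (Real.exp (-G * (((k : ℤ) : ℝ) - s * ((τ + 1 : ℕ) : ℝ))) *
              Real.exp (G * ((k : ℝ) - s * τ))) := by ring
          _ = mu Ω ^ (τ + 1) * Real.exp (G * s) := by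
              rw [← Real.exp_add]
              congr 2
              push_cast
              ring
    calc (((SawSet Ω τ).filter (fun p => (lev L p τ).natAbs = k)).card : ℝ) *
          Real.exp (G * max 0 ((k : ℝ) - s * τ))
        ≤ (2 * (Real.exp (25 * (τ : ℝ) ^ (3 / 4 : ℝ)) * br L (τ + 1) k)) *
          Real.exp (G * max 0 ((k : ℝ) - s * τ)) := mul_le_mul_of_nonneg_right h2 hE
      _ = 2 * Real.exp (25 * (τ : ℝ) ^ (3 / 4 : ℝ)) *
          ((br L (τ + 1) (k : ℤ) : ℝ) * Real.exp (G * max 0 ((k : ℝ) - s * τ))) := by ring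
      _ ≤ 2 * Real.exp (25 * (τ : ℝ) ^ (3 / 4 : ℝ)) * (mu Ω ^ (τ + 1) * Real.exp (G * s)) :=
          mul_le_mul_of_nonneg_left h3 (by positivity)
      _ = 2 * Real.exp (25 * (τ : ℝ) ^ (3 / 4 : ℝ)) * mu Ω ^ (τ + 1) * Real.exp (G * s) := by
          ring
  refine (Finset.sum_le_sum hfib).trans ?_
  rw [Finset.sum_const, Finset.card_range, nsmul_eq_mul]
  push_cast
  apply le_of_eq
  ring

/-- the exponential sum of the excess is submultiplicative -/
private theorem tD_step (L : Lev Ω) {s G : ℝ} (τ n : ℕ) :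
    ∑ ξ ∈ SawSet Ω ((n + 1) * τ), Real.exp (G * exc L s τ (n + 1) ξ) ≤
      (∑ ξ ∈ SawSet Ω (n * τ), Real.exp (G * exc L s τ n ξ)) *
      ∑ p ∈ SawSet Ω τ, Real.exp (G * max 0 (|((lev L p τ : ℤ) : ℝ)| - s * τ)) := by
  classical
  rw [Finset.sum_mul_sum, ← Finset.sum_product']
  let Φ : (ℕ → V) → (ℕ → V) × (ℕ → V) :=
    fun ξ => (fun i => if i < n * τ then ξ i else 0, fun i => ξ (n * τ + i))
  have hΦ : Set.InjOn Φ (SawSet Ω ((n + 1) * τ) : Set (ℕ → V)) := by
    intro ξ _ η _ h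
    have h1 : (fun i => if i < n * τ then ξ i else 0) = (fun i => if i < n * τ then η i else 0) :=
      congrArg Prod.fst h
    have h2 : (fun i => ξ (n * τ + i)) = (fun i => η (n * τ + i)) := congrArg Prod.snd h
    funext i
    rcases lt_or_ge i (n * τ) with hi | hi
    · have := congrFun h1 i
      simpa [hi] using this
    · have := congrFun h2 (i - n * τ)
      simpa [Nat.add_sub_cancel' hi] using this
  have hval : ∀ ξ ∈ SawSet Ω ((n + 1) * τ), Real.exp (G * exc L s τ (n + 1) ξ) =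
      Real.exp (G * exc L s τ n (Φ ξ).1) *
        Real.exp (G * max 0 (|((lev L (Φ ξ).2 τ : ℤ) : ℝ)| - s * τ)) := by
    intro ξ _
    rw [← Real.exp_add, ← mul_add]
    congr 2
    unfold exc
    rw [Finset.sum_range_succ]
    congr 1
    · refine Finset.sum_congr rfl (fun k hk => ?_)
      rw [Finset.mem_range] at hk
      have hl : ∀ j, j ≤ n * τ → lev L (Φ ξ).1 j = lev L ξ j := by
        intro j hj
        unfold lev
        congr 1
        refine P_congr (fun i hi => ?_)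
        simp only [Φ]
        rw [if_pos (by omega)]
      rw [hl _ (Nat.mul_le_mul_right τ (by omega)), hl _ (Nat.mul_le_mul_right τ (by omega))]
    · have : lev L (Φ ξ).2 τ = lev L ξ ((n + 1) * τ) - lev L ξ (n * τ) := by
        have h := lev_add L ξ (n * τ) τ
        have e : (n + 1) * τ = n * τ + τ := by ring
        rw [e, h]
        simp only [Φ]
        ring
      rw [this]
  rw [Finset.sum_congr rfl hval]
  have himg : ∑ ξ ∈ SawSet Ω ((n + 1) * τ), (Real.exp (G * exc L s τ n (Φ ξ).1) *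
        Real.exp (G * max 0 (|((lev L (Φ ξ).2 τ : ℤ) : ℝ)| - s * τ))) =
      ∑ x ∈ (SawSet Ω ((n + 1) * τ)).image Φ, (Real.exp (G * exc L s τ n x.1) *
        Real.exp (G * max 0 (|((lev L x.2 τ : ℤ) : ℝ)| - s * τ))) := by
    rw [Finset.sum_image hΦ]
  rw [himg]
  refine Finset.sum_le_sum_of_subset_of_nonneg ?_ (fun _ _ _ => by positivity)
  intro x hx
  rw [Finset.mem_image] at hx
  obtain ⟨ξ, hξ, rfl⟩ := hx
  rw [mem_SawSet] at hξ
  have e : (n + 1) * τ = n * τ + τ := by ring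
  rw [Finset.mem_product]
  constructor
  · rw [mem_SawSet]
    exact hξ.pre (n := n * τ) (by rw [e]; omega)
  · rw [mem_SawSet]
    have := hξ.suf (n := n * τ) (by rw [e]; omega)
    have e2 : (n + 1) * τ - n * τ = τ := by rw [e]; omega
    rw [e2] at this
    exact this

private theorem tD_all (L : Lev Ω) {s G : ℝ} (hs : 0 ≤ s) (hG : 0 ≤ G)
    (H : ∀ (T : ℕ) (h : ℤ), (br L T h : ℝ) ≤ mu Ω ^ T * Real.exp (-G * (h - s * T)))
    (τ n : ℕ) :
    ∑ ξ ∈ SawSet Ω (n * τ), Real.exp (G * exc L s τ n ξ) ≤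
      (2 * (τ + 1) * Real.exp (25 * (τ : ℝ) ^ (3 / 4 : ℝ)) *
        mu Ω ^ (τ + 1) * Real.exp (G * s)) ^ n := by
  induction n with
  | zero =>
    have h0 : SawSet Ω (0 * τ) ⊆ {fun _ => 0} := by
      intro ξ hξ
      rw [mem_SawSet] at hξ
      rw [Finset.mem_singleton]
      funext i
      exact hξ.zero i (by simp)
    calc ∑ ξ ∈ SawSet Ω (0 * τ), Real.exp (G * exc L s τ 0 ξ)
        ≤ ∑ ξ ∈ ({fun _ => 0} : Finset (ℕ → V)), Real.exp (G * exc L s τ 0 ξ) :=
          Finset.sum_le_sum_of_subset_of_nonneg h0 (fun _ _ _ => (Real.exp_pos _).le)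
      _ = 1 := by simp [exc]
      _ ≤ _ := by simp
  | succ n ih =>
    rw [pow_succ]
    refine (tD_step L τ n).trans ?_
    refine mul_le_mul ih (tD_one L hs hG H τ) ?_ ?_
    · exact Finset.sum_nonneg (fun _ _ => (Real.exp_pos _).le)
    · have hmu : (0 : ℝ) ≤ mu Ω := (Real.exp_pos _).le
      positivity

open scoped Classical in
theorem tv (L : Lev Ω) {s G : ℝ} (hs : 0 ≤ s) (hG : 0 ≤ G)
    (H : ∀ (T : ℕ) (h : ℤ), (br L T h : ℝ) ≤ mu Ω ^ T * Real.exp (-G * (h - s * T)))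
    (τ n : ℕ) (x : ℝ) :
    (((SawSet Ω (n * τ)).filter (fun ξ => x ≤ exc L s τ n ξ)).card : ℝ) ≤
      Real.exp (-G * x) * (2 * (τ + 1) * Real.exp (25 * (τ : ℝ) ^ (3 / 4 : ℝ)) *
        mu Ω ^ (τ + 1) * Real.exp (G * s)) ^ n := by
  have h1 : (((SawSet Ω (n * τ)).filter (fun ξ => x ≤ exc L s τ n ξ)).card : ℝ) *
      Real.exp (G * x) ≤ ∑ ξ ∈ SawSet Ω (n * τ), Real.exp (G * exc L s τ n ξ) := by
    calc (((SawSet Ω (n * τ)).filter (fun ξ => x ≤ exc L s τ n ξ)).card : ℝ) * Real.exp (G * x)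
        = ∑ ξ ∈ (SawSet Ω (n * τ)).filter (fun ξ => x ≤ exc L s τ n ξ), Real.exp (G * x) := by
          rw [Finset.sum_const, nsmul_eq_mul]
      _ ≤ ∑ ξ ∈ (SawSet Ω (n * τ)).filter (fun ξ => x ≤ exc L s τ n ξ),
            Real.exp (G * exc L s τ n ξ) := by
          refine Finset.sum_le_sum (fun ξ hξ => ?_)
          rw [Finset.mem_filter] at hξ
          exact Real.exp_le_exp.mpr (mul_le_mul_of_nonneg_left hξ.2 hG)
      _ ≤ _ := Finset.sum_le_sum_of_subset_of_nonneg (Finset.filter_subset _ _)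
          (fun _ _ _ => (Real.exp_pos _).le)
  have h2 := h1.trans (tD_all L hs hG H τ n)
  have h3 : Real.exp (-G * x) * Real.exp (G * x) = 1 := by
    rw [← Real.exp_add]
    simp
  calc (((SawSet Ω (n * τ)).filter (fun ξ => x ≤ exc L s τ n ξ)).card : ℝ)
      = Real.exp (-G * x) * ((((SawSet Ω (n * τ)).filter (fun ξ => x ≤ exc L s τ n ξ)).card : ℝ) *
        Real.exp (G * x)) := by
        rw [mul_comm (((SawSet Ω (n * τ)).filter (fun ξ => x ≤ exc L s τ n ξ)).card : ℝ),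
          ← mul_assoc, h3, one_mul]
    _ ≤ _ := mul_le_mul_of_nonneg_left h2 (Real.exp_pos _).le

end Pool.Agent.H725R2.SB
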