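import Pool.Agent.H725R2.SB.TF1

/-! Task F2 of the sub-ballisticity project. -/

set_option autoImplicit false

namespace Pool.Agent.H725R2.SB

open Finset

variable {V : Type*} [AddCommGroup V] {Ω : Finset V}

/-- level sequences before and after unfolding the backtrack `(t, t')` -/
structure TF2Unf (a a' : ℕ → ℤ) (t t' : ℕ) : Prop where
  e1 : ∀ i, i ≤ t → a' i = a i
  e2 : ∀ i, t ≤ i → i ≤ t' → a' i = 2 * a t - a i
  e3 : ∀ i, t' ≤ i → a' i = a i + 2 * (a t - a t')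

theorem tF2_ge {a a' : ℕ → ℤ} {N : ℕ} {p : ℤ} {t t' : ℕ} (hb : BT a N p t t')
    (hu : TF2Unf a a' t t') (i : ℕ) : a i ≤ a' i := by
  rcases le_total i t with h | h
  · rw [hu.e1 i h]
  · rcases le_total i t' with h' | h'
    · rw [hu.e2 i h h']
      have := hb.up i h'
      omega
    · rw [hu.e3 i h']
      have := hb.up t' le_rfl
      omega

theorem tF2_ge_t' {a a' : ℕ → ℤ} {N : ℕ} {p : ℤ} {t t' : ℕ} (hb : BT a N p t t')
    (hu : TF2Unf a a' t t') (i : ℕ) (hi : t ≤ i) (hN : i ≤ N) : a t' ≤ a' i := by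
  have h1 := tF2_ge hb hu i
  have h2 := hb.lo i hi hN
  omega

theorem tF2_cut_t {a a' : ℕ → ℤ} {N : ℕ} {p : ℤ} {t t' : ℕ} (hb : BT a N p t t')
    (hN : t' < N) (hu : TF2Unf a a' t t') : Cut a' N (a t) t := by
  have hle := hb.le
  refine ⟨by omega, fun i hi => ?_, fun i hi hiN => ?_⟩
  · rw [hu.e1 i hi]
    exact hb.up i (by omega)
  · rcases le_or_gt i t' with h | h
    · rw [hu.e2 i hi.le h]
      have := hb.up' i hi h
      omega
    · rw [hu.e3 i h.le]
      have h1 := hb.lo' i h hiN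
      have h2 := hb.up t' le_rfl
      omega

theorem tF2_cut_t' {a a' : ℕ → ℤ} {N : ℕ} {p : ℤ} {t t' : ℕ} (hb : BT a N p t t')
    (hN : t' < N) (hu : TF2Unf a a' t t') : Cut a' N (a t + (a t - a t')) t' := by
  have hle := hb.le
  have h2 := hb.up t' le_rfl
  refine ⟨hN, fun i hi => ?_, fun i hi hiN => ?_⟩
  · rcases le_total i t with h | h
    · rw [hu.e1 i h]
      have := hb.up i hi
      omega
    · rw [hu.e2 i h hi]
      have := hb.lo i h (by omega)
      omega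
  · rw [hu.e3 i hi.le]
    have h1 := hb.lo' i hi hiN
    omega

theorem tF2_cut_back {a a' : ℕ → ℤ} {N : ℕ} {p : ℤ} {t t' : ℕ} (hb : BT a N p t t')
    (hu : TF2Unf a a' t t') {q : ℤ} (hq : q < a t') {u : ℕ} (hc : Cut a' N q u) :
    Cut a N q u := by
  have hle := hb.le
  have hleN := hb.leN
  have hut : u < t := by
    by_contra hcon
    push Not at hcon
    have h1 := hc.2.1 t hcon
    have h2 := tF2_ge_t' hb hu t le_rfl (by omega)
    omega
  refine ⟨hc.1, fun i hi => ?_, fun i hi hiN => ?_⟩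
  · rw [← hu.e1 i (by omega)]
    exact hc.2.1 i hi
  · rcases le_total i t with h | h
    · rw [← hu.e1 i h]
      exact hc.2.2 i hi hiN
    · have := hb.lo i h hiN
      omega

theorem tF2_light {a a' : ℕ → ℤ} {N : ℕ} {p : ℤ} {t t' : ℕ} (hb : BT a N p t t')
    (hu : TF2Unf a a' t t') {r : ℕ} {p' : ℤ} (hq : p' < a t') (hl : Light a N r p') :
    Light a' N r p' := by
  obtain ⟨u, u', hbu, hr⟩ := hl
  have hu't : u' < t := by
    by_contra hcon
    push Not at hcon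
    have h1 := hb.lo u' hcon hbu.leN
    have h2 := hbu.p1
    omega
  have hle := hbu.le
  have e1 : a' u = a u := hu.e1 u (by omega)
  have e2 : a' u' = a u' := hu.e1 u' (by omega)
  refine ⟨u, u', ⟨hbu.le, hbu.leN, fun i hi => ?_, fun i hi hi' => ?_, fun i hi hi' => ?_,
    fun i hi hi' => ?_, ?_, ?_⟩, ?_⟩
  · rw [hu.e1 i (by omega), e1]
    exact hbu.up i hi
  · rw [hu.e1 i (by omega), e1]
    exact hbu.up' i hi hi'
  · rw [e2]
    exact (hbu.lo i hi hi').trans (tF2_ge hb hu i)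
  · rw [e2]
    exact (hbu.lo' i hi hi').trans_le (tF2_ge hb hu i)
  · rw [e2]; exact hbu.p1
  · rw [e1]; exact hbu.p2
  · rw [e1, e2]; exact hr

/-- everything needed to encode a backtrack in the window `i` -/
structure TF2Data (L : Lev Ω) (N n r w i : ℕ) (ξ : ℕ → V) (p : ℤ) (t t' : ℕ) (c : ℤ) : Prop where
  bt : BT (lev L ξ) N p t t'
  sz : lev L ξ t - lev L ξ t' < r
  c1 : Cut (lev L (op L.r (Finset.Ico t t') ξ)) N (lev L ξ t) t
  c2 : Cut (lev L (op L.r (Finset.Ico t t') ξ)) N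
    (lev L ξ t + (lev L ξ t - lev L ξ t')) t'
  least : (4 * (w : ℤ) * i ≤ c ∧ IsCut (lev L (op L.r (Finset.Ico t t') ξ)) N c) ∧
    ∀ c', 4 * (w : ℤ) * i ≤ c' → IsCut (lev L (op L.r (Finset.Ico t t') ξ)) N c' → c ≤ c'
  cl : lev L ξ t' ≤ c
  cu : c ≤ lev L ξ t

open scoped Classical in
theorem tF2_exists (L : Lev Ω) {N n r w i : ℕ} (hr : r ≤ w) (hin : i < n) {ξ : ℕ → V}
    (hs : IsSaw Ω N ξ) (hN : 4 * (w : ℤ) * n < lev L ξ N) (hnc : NC (lev L ξ) N r w i)
    {p : ℤ} (hp1 : 4 * (w : ℤ) * i + w < p) (hp2 : p ≤ 4 * (w : ℤ) * i + 3 * w)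
    (hl : Light (lev L ξ) N r p) :
    ∃ t t' c, TF2Data L N n r w i ξ p t t' c ∧ IsSaw Ω N (op L.r (Finset.Ico t t') ξ) ∧
      4 * (w : ℤ) * n < lev L (op L.r (Finset.Ico t t') ξ) N ∧
      ∀ j, j < i → NC (lev L ξ) N r w j →
        NC (lev L (op L.r (Finset.Ico t t') ξ)) N r w j := by
  obtain ⟨t, t', hb, hsz⟩ := hl
  obtain ⟨hs', e1, e2, e3⟩ := unfold_saw L hs hb
  have hu : TF2Unf (lev L ξ) (lev L (op L.r (Finset.Ico t t') ξ)) t t' := ⟨e1, e2, e3⟩
  have hin' : (i : ℤ) + 1 ≤ n := by exact_mod_cast hin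
  have hw0 : (0 : ℤ) ≤ w := by positivity
  have hmul : 4 * (w : ℤ) * i + 4 * w ≤ 4 * (w : ℤ) * n := by nlinarith
  have hrw : (r : ℤ) ≤ w := by exact_mod_cast hr
  have hp1' := hb.p1
  have hp2' := hb.p2
  have ht'N : t' < N := by
    rcases lt_or_eq_of_le hb.leN with h | h
    · exact h
    · exfalso
      rw [h] at hp1'
      omega
  have hat' : 4 * (w : ℤ) * i < lev L ξ t' := by omega
  have hC1 := tF2_cut_t hb ht'N hu
  have hC2 := tF2_cut_t' hb ht'N hu
  obtain ⟨c, hc, hcl⟩ : ∃ c : ℤ, (4 * (w : ℤ) * i ≤ c ∧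
      IsCut (lev L (op L.r (Finset.Ico t t') ξ)) N c) ∧
      ∀ c' : ℤ, (4 * (w : ℤ) * i ≤ c' ∧ IsCut (lev L (op L.r (Finset.Ico t t') ξ)) N c') →
        c ≤ c' := by
    apply Int.exists_least_of_bdd
    · exact ⟨4 * (w : ℤ) * i, fun z hz => hz.1⟩
    · exact ⟨lev L ξ t, by omega, t, hC1⟩
  have hcl' : lev L ξ t' ≤ c := by
    by_contra hcon
    push Not at hcon
    obtain ⟨u, hcu⟩ := hc.2
    have := tF2_cut_back hb hu hcon hcu
    exact hnc.1 c hc.1 (by linarith) ⟨u, this⟩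
  refine ⟨t, t', c, ⟨hb, hsz, hC1, hC2, ⟨hc, fun c' h1 h2 => hcl c' ⟨h1, h2⟩⟩, hcl',
    hcl _ ⟨by omega, t, hC1⟩⟩, hs', ?_, ?_⟩
  · exact hN.trans_le (tF2_ge hb hu N)
  · intro j hj hncj
    have hj' : (j : ℤ) + 1 ≤ i := by exact_mod_cast hj
    have hmj : 4 * (w : ℤ) * (j + 1) ≤ 4 * (w : ℤ) * i := by nlinarith
    refine ⟨fun q hq1 hq2 ⟨u, hcu⟩ => ?_, ?_⟩
    · exact hncj.1 q hq1 hq2 ⟨u, tF2_cut_back hb hu (by omega) hcu⟩
    · refine hncj.2.trans (Finset.card_le_card ?_)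
      intro p' hp'
      rw [Finset.mem_filter] at hp' ⊢
      refine ⟨hp'.1, tF2_light hb hu ?_ hp'.2⟩
      have := (Finset.mem_Ioc.mp hp'.1).2
      have h4 : 4 * (w : ℤ) * j + 3 * w ≤ 4 * (w : ℤ) * (j + 1) := by nlinarith
      omega

open scoped Classical in
theorem tF2_one (L : Lev Ω) (N n r w i : ℕ) (hr : r ≤ w) (hin : i < n) (I : Finset ℕ)
    (hI : ∀ j ∈ I, j < i) :
    ((SawSet Ω N).filter (fun ξ => 4 * (w : ℤ) * n < lev L ξ N ∧
      ∀ j ∈ insert i I, NC (lev L ξ) N r w j)).card * w ≤ r ^ 3 *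
    ((SawSet Ω N).filter (fun ξ => 4 * (w : ℤ) * n < lev L ξ N ∧
      ∀ j ∈ I, NC (lev L ξ) N r w j)).card := by
  set Y := (SawSet Ω N).filter (fun ξ => 4 * (w : ℤ) * n < lev L ξ N ∧
      ∀ j ∈ insert i I, NC (lev L ξ) N r w j) with hY
  set X := (SawSet Ω N).filter (fun ξ => 4 * (w : ℤ) * n < lev L ξ N ∧
      ∀ j ∈ I, NC (lev L ξ) N r w j) with hX
  let core : (ℕ → V) → Finset ℤ := fun ξ =>
    (Finset.Ioc (4 * (w : ℤ) * i + w) (4 * (w : ℤ) * i + 3 * w)).filter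
      (fun p => Light (lev L ξ) N r p)
  let S : Finset (Σ _ : ℕ → V, ℤ) := Y.sigma core
  have hS : Y.card * w ≤ S.card := by
    rw [Finset.card_sigma]
    rw [← smul_eq_mul, ← Finset.sum_const]
    refine Finset.sum_le_sum (fun ξ hξ => ?_)
    rw [hY, Finset.mem_filter] at hξ
    exact (hξ.2.2 i (Finset.mem_insert_self _ _)).2
  have hex : ∀ x ∈ S, ∃ t t' c, TF2Data L N n r w i x.1 x.2 t t' c ∧
      IsSaw Ω N (op L.r (Finset.Ico t t') x.1) ∧
      4 * (w : ℤ) * n < lev L (op L.r (Finset.Ico t t') x.1) N ∧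
      ∀ j, j < i → NC (lev L x.1) N r w j →
        NC (lev L (op L.r (Finset.Ico t t') x.1)) N r w j := by
    intro x hx
    rw [Finset.mem_sigma, hY, Finset.mem_filter, Finset.mem_filter, Finset.mem_Ioc] at hx
    exact tF2_exists L hr hin (mem_SawSet.mp hx.1.1) hx.1.2.1
      (hx.1.2.2 i (Finset.mem_insert_self _ _)) hx.2.1.1 hx.2.1.2 hx.2.2
  choose! T T' C hD hsaw hlev hnc using hex
  let f : (Σ _ : ℕ → V, ℤ) → (ℕ → V) × (ℕ × ℕ × ℕ) := fun x =>
    (op L.r (Finset.Ico (T x) (T' x)) x.1,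
      ((lev L x.1 (T x) - C x).toNat, (lev L x.1 (T x) - lev L x.1 (T' x)).toNat,
        (lev L x.1 (T x) - x.2).toNat))
  have hmaps : ∀ x ∈ S, f x ∈ X ×ˢ (range r ×ˢ (range r ×ˢ range r)) := by
    intro x hx
    have hd := hD x hx
    have h1 := hd.sz
    have h2 := hd.cl
    have h3 := hd.cu
    have h4 := hd.bt.p1
    have h5 := hd.bt.p2
    have hr0 : 0 < r := by
      have := hd.bt.up _ le_rfl
      omega
    rw [Finset.mem_product, Finset.mem_product, Finset.mem_product]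
    refine ⟨?_, ?_, ?_, ?_⟩
    · rw [hX, Finset.mem_filter, mem_SawSet]
      have hxY := (Finset.mem_sigma.mp hx).1
      rw [hY, Finset.mem_filter] at hxY
      exact ⟨hsaw x hx, hlev x hx, fun j hj => hnc x hx j (hI j hj)
        (hxY.2.2 j (Finset.mem_insert_of_mem hj))⟩
    all_goals
      simp only [f, Finset.mem_range]
      omega
  have hinj : ∀ x ∈ S, ∀ y ∈ S, f x = f y → x = y := by
    intro x hx y hy hxy
    have hdx := hD x hx
    have hdy := hD y hy
    simp only [f, Prod.mk.injEq] at hxy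
    obtain ⟨h1, h2, h3, h4⟩ := hxy
    have hC : C x = C y := by
      have lx := hdx.least
      have ly := hdy.least
      rw [h1] at lx
      exact le_antisymm (lx.2 _ ly.1.1 ly.1.2) (ly.2 _ lx.1.1 lx.1.2)
    have x1 := hdx.cu
    have y1 := hdy.cu
    have x2 := hdx.bt.up _ le_rfl
    have y2 := hdy.bt.up _ le_rfl
    have x3 := hdx.bt.p2
    have y3 := hdy.bt.p2
    have ha : lev L x.1 (T x) = lev L y.1 (T y) := by omega
    have hb : lev L x.1 (T' x) = lev L y.1 (T' y) := by omega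
    have hp : x.2 = y.2 := by omega
    have hT : T x = T y := by
      have a1 := hdx.c1
      have a2 := hdy.c1
      rw [h1, ha] at a1
      exact a1.unique a2
    have hT' : T' x = T' y := by
      have a1 := hdx.c2
      have a2 := hdy.c2
      rw [h1, ha, hb] at a1
      exact a1.unique a2
    have hx1 : x.1 = y.1 := by
      have e1 := op_involutive L.rr (Finset.Ico (T x) (T' x)) x.1
      have e2 := op_involutive L.rr (Finset.Ico (T y) (T' y)) y.1
      rw [← e1, ← e2, h1, hT, hT']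
    obtain ⟨x1, x2⟩ := x
    obtain ⟨y1, y2⟩ := y
    simp only at hx1 hp
    rw [hx1, hp]
  have hcard : S.card ≤ (X ×ˢ (range r ×ˢ (range r ×ˢ range r))).card :=
    Finset.card_le_card_of_injOn f hmaps (fun x hx y hy h => hinj x hx y hy h)
  calc Y.card * w ≤ S.card := hS
    _ ≤ (X ×ˢ (range r ×ˢ (range r ×ˢ range r))).card := hcard
    _ = r ^ 3 * X.card := by
        simp only [Finset.card_product, Finset.card_range]
        ring

open scoped Classical in
theorem step2 (L : Lev Ω) (N n r w : ℕ) (hr : r ≤ w) (I : Finset ℕ) (hI : ∀ i ∈ I, i < n) :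
    ((SawSet Ω N).filter (fun ξ => 4 * (w : ℤ) * n < lev L ξ N ∧
      ∀ i ∈ I, NC (lev L ξ) N r w i)).card * w ^ I.card ≤ r ^ (3 * I.card) * cc Ω N := by
  induction I using Finset.induction_on_max with
  | empty =>
    simp only [Finset.card_empty, pow_zero, mul_one, mul_zero, one_mul]
    exact Finset.card_filter_le _ _
  | insert i I hmax ih =>
    have hni : i ∉ I := fun h => lt_irrefl _ (hmax i h)
    have h1 := tF2_one L N n r w i hr (hI i (Finset.mem_insert_self _ _)) I hmax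
    have h2 := ih (fun j hj => hI j (Finset.mem_insert_of_mem hj))
    rw [Finset.card_insert_of_notMem hni]
    calc _ * w ^ (I.card + 1) = (((SawSet Ω N).filter (fun ξ => 4 * (w : ℤ) * n < lev L ξ N ∧
          ∀ j ∈ insert i I, NC (lev L ξ) N r w j)).card * w) * w ^ I.card := by ring
      _ ≤ (r ^ 3 * ((SawSet Ω N).filter (fun ξ => 4 * (w : ℤ) * n < lev L ξ N ∧
          ∀ j ∈ I, NC (lev L ξ) N r w j)).card) * w ^ I.card := Nat.mul_le_mul_right _ h1
      _ = r ^ 3 * (((SawSet Ω N).filter (fun ξ => 4 * (w : ℤ) * n < lev L ξ N ∧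
          ∀ j ∈ I, NC (lev L ξ) N r w j)).card * w ^ I.card) := by ring
      _ ≤ r ^ 3 * (r ^ (3 * I.card) * cc Ω N) := Nat.mul_le_mul_left _ h2
      _ = r ^ (3 * (I.card + 1)) * cc Ω N := by ring

open scoped Classical in
theorem step2_union (L : Lev Ω) (N n r w k : ℕ) (hr : r ≤ w) :
    ((SawSet Ω N).filter (fun ξ => 4 * (w : ℤ) * n < lev L ξ N ∧
      k ≤ ((range n).filter (fun i => NC (lev L ξ) N r w i)).card)).card * w ^ k ≤
      2 ^ n * r ^ (3 * k) * cc Ω N := by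
  have hsub : (SawSet Ω N).filter (fun ξ => 4 * (w : ℤ) * n < lev L ξ N ∧
      k ≤ ((range n).filter (fun i => NC (lev L ξ) N r w i)).card) ⊆
      (Finset.powersetCard k (range n)).biUnion (fun I =>
        (SawSet Ω N).filter (fun ξ => 4 * (w : ℤ) * n < lev L ξ N ∧
          ∀ i ∈ I, NC (lev L ξ) N r w i)) := by
    intro ξ hξ
    rw [Finset.mem_filter] at hξ
    obtain ⟨I, hI1, hI2⟩ := Finset.exists_subset_card_eq hξ.2.2
    rw [Finset.mem_biUnion]
    refine ⟨I, ?_, ?_⟩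
    · rw [Finset.mem_powersetCard]
      exact ⟨hI1.trans (Finset.filter_subset _ _), hI2⟩
    · rw [Finset.mem_filter]
      exact ⟨hξ.1, hξ.2.1, fun i hi => (Finset.mem_filter.mp (hI1 hi)).2⟩
  calc _ ≤ ((Finset.powersetCard k (range n)).biUnion (fun I =>
        (SawSet Ω N).filter (fun ξ => 4 * (w : ℤ) * n < lev L ξ N ∧
          ∀ i ∈ I, NC (lev L ξ) N r w i))).card * w ^ k :=
        Nat.mul_le_mul_right _ (Finset.card_le_card hsub)
    _ ≤ (∑ I ∈ Finset.powersetCard k (range n), ((SawSet Ω N).filter (fun ξ =>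
          4 * (w : ℤ) * n < lev L ξ N ∧ ∀ i ∈ I, NC (lev L ξ) N r w i)).card) * w ^ k :=
        Nat.mul_le_mul_right _ Finset.card_biUnion_le
    _ = ∑ I ∈ Finset.powersetCard k (range n), ((SawSet Ω N).filter (fun ξ =>
          4 * (w : ℤ) * n < lev L ξ N ∧ ∀ i ∈ I, NC (lev L ξ) N r w i)).card * w ^ k :=
        Finset.sum_mul _ _ _
    _ ≤ ∑ _I ∈ Finset.powersetCard k (range n), r ^ (3 * k) * cc Ω N := by
        refine Finset.sum_le_sum (fun I hI => ?_)
        rw [Finset.mem_powersetCard] at hI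
        have := step2 L N n r w hr I (fun i hi => Finset.mem_range.mp (hI.1 hi))
        rw [hI.2] at this
        exact this
    _ = (n.choose k) * (r ^ (3 * k) * cc Ω N) := by
        rw [Finset.sum_const, Finset.card_powersetCard, Finset.card_range, smul_eq_mul]
    _ ≤ 2 ^ n * (r ^ (3 * k) * cc Ω N) := Nat.mul_le_mul_right _ (Nat.choose_le_two_pow _ _)
    _ = 2 ^ n * r ^ (3 * k) * cc Ω N := by ring

end Pool.Agent.H725R2.SB
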