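import Pool.Agent.H725R2.SB.Defs2

/-! Task G of the sub-ballisticity project. -/

set_option autoImplicit false

namespace Pool.Agent.H725R2.SB

open Finset

variable {V : Type*} [AddCommGroup V] {Ω : Finset V}

theorem tG_ct_spec {a : ℕ → ℤ} {N w k : ℕ} (h : Open a N w k) :
    ∃ q : ℤ, 8 * (w : ℤ) * k ≤ q ∧ q < 8 * (w : ℤ) * k + 4 * w ∧ Cut a N q (ct a N w k) := by
  obtain ⟨q, h1, h2, τ, h3⟩ := h
  have hne : {τ : ℕ | ∃ q : ℤ, 8 * (w : ℤ) * k ≤ q ∧ q < 8 * (w : ℤ) * k + 4 * w ∧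
      Cut a N q τ}.Nonempty := ⟨τ, q, h1, h2, h3⟩
  exact Nat.sInf_mem hne

theorem tG_ct_mono {a : ℕ → ℤ} {N w k k' : ℕ} (h : Open a N w k) (h' : Open a N w k')
    (hk : k ≤ k') : ct a N w k ≤ ct a N w k' := by
  rcases Nat.eq_or_lt_of_le hk with rfl | hlt
  · exact le_rfl
  obtain ⟨q, h1, h2, h3⟩ := tG_ct_spec h
  obtain ⟨q', h1', h2', h3'⟩ := tG_ct_spec h'
  refine Cut.mono h3 h3' ?_
  have hk1 : (k : ℤ) + 1 ≤ k' := by exact_mod_cast hlt
  have hw0 : (0 : ℤ) ≤ w := Int.natCast_nonneg w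
  nlinarith

theorem tG_good_open {a : ℕ → ℤ} {N w n k : ℕ} (h : k ∈ Good a N w n) :
    Open a N w k ∧ Open a N w (k + 1) := by
  classical
  unfold Good at h
  exact (Finset.mem_filter.mp h).2

/-- the union of the blocks of `S` -/
noncomputable def tG_T (a : ℕ → ℤ) (N w : ℕ) (S : Finset ℕ) : Finset ℕ :=
  S.biUnion (fun k => Finset.Ico (ct a N w k) (ct a N w (k + 1)))

theorem tG_mem_T {a : ℕ → ℤ} {N w n k i : ℕ} {S : Finset ℕ} (hS : S ⊆ Good a N w n)
    (hk : k ∈ Good a N w n) (h1 : ct a N w k ≤ i) (h2 : i < ct a N w (k + 1)) :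
    i ∈ tG_T a N w S ↔ k ∈ S := by
  unfold tG_T
  rw [Finset.mem_biUnion]
  constructor
  · rintro ⟨k', hk', hi⟩
    rw [Finset.mem_Ico] at hi
    have hg' := tG_good_open (hS hk')
    have hg := tG_good_open hk
    rcases lt_trichotomy k k' with hl | hl | hl
    · have := tG_ct_mono hg.2 hg'.1 (by omega)
      omega
    · rw [hl]; exact hk'
    · have := tG_ct_mono hg'.2 hg.1 (by omega)
      omega
  · intro hk'
    exact ⟨k, hk', Finset.mem_Ico.mpr ⟨h1, h2⟩⟩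

/-- if membership changes between `m` and `m+1`, then `m+1` is a cut time -/
theorem tG_change {a : ℕ → ℤ} {N w n m : ℕ} {S : Finset ℕ} (hS : S ⊆ Good a N w n)
    (h : ¬ (m ∈ tG_T a N w S ↔ m + 1 ∈ tG_T a N w S)) : ∃ q : ℤ, Cut a N q (m + 1) := by
  by_cases hm : m ∈ tG_T a N w S
  · have hm1 : m + 1 ∉ tG_T a N w S := fun h' => h ⟨fun _ => h', fun _ => hm⟩
    have hm' := hm
    unfold tG_T at hm'
    rw [Finset.mem_biUnion] at hm'
    obtain ⟨k, hk, hi⟩ := hm'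
    rw [Finset.mem_Ico] at hi
    have hg := tG_good_open (hS hk)
    have h2 : ct a N w (k + 1) = m + 1 := by
      by_contra hne
      apply hm1
      unfold tG_T
      rw [Finset.mem_biUnion]
      exact ⟨k, hk, Finset.mem_Ico.mpr ⟨by omega, by omega⟩⟩
    obtain ⟨q, _, _, hq⟩ := tG_ct_spec hg.2
    rw [h2] at hq
    exact ⟨q, hq⟩
  · have hm1 : m + 1 ∈ tG_T a N w S := by
      by_contra h'
      exact h ⟨fun h'' => absurd h'' hm, fun h'' => absurd h'' h'⟩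
    have hm' := hm1
    unfold tG_T at hm'
    rw [Finset.mem_biUnion] at hm'
    obtain ⟨k, hk, hi⟩ := hm'
    rw [Finset.mem_Ico] at hi
    have hg := tG_good_open (hS hk)
    have h2 : ct a N w k = m + 1 := by
      by_contra hne
      apply hm
      unfold tG_T
      rw [Finset.mem_biUnion]
      exact ⟨k, hk, Finset.mem_Ico.mpr ⟨by omega, by omega⟩⟩
    obtain ⟨q, _, _, hq⟩ := tG_ct_spec hg.1
    rw [h2] at hq
    exact ⟨q, hq⟩

theorem tG_const {T : Finset ℕ} {i j : ℕ}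
    (h : ∀ m, i ≤ m → m + 1 < j → (m ∈ T ↔ m + 1 ∈ T)) :
    (∀ k, i ≤ k → k < j → k ∈ T) ∨ (∀ k, i ≤ k → k < j → k ∉ T) := by
  have key : ∀ k, i ≤ k → k < j → (k ∈ T ↔ i ∈ T) := by
    intro k hk
    induction k, hk using Nat.le_induction with
    | base => intro _; exact Iff.rfl
    | succ k hk ih =>
      intro hkj
      rw [← h k hk hkj]
      exact ih (by omega)
  by_cases hi : i ∈ T
  · exact Or.inl (fun k h1 h2 => (key k h1 h2).mpr hi)
  · exact Or.inr (fun k h1 h2 h3 => hi ((key k h1 h2).mp h3))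

theorem tG_saw (Fr : Frame Ω) {N n w : ℕ} {ξ : ℕ → V} (h : IsSaw Ω N ξ) {S : Finset ℕ}
    (hS : S ⊆ Good (lev Fr.B ξ) N w n) :
    IsSaw Ω N (op Fr.t (tG_T (lev Fr.B ξ) N w S) ξ) := by
  have hlev : ∀ T : Finset ℕ, ∀ i, lev Fr.B (op Fr.t T ξ) i = lev Fr.B ξ i :=
    fun T i => lev_op_t Fr.B Fr.tB T ξ i
  refine h.op_of_sep Fr.tΩ _ Fr.B ?_
  intro i j hij hj
  by_cases hc : ∀ m, i ≤ m → m + 1 < j → (m ∈ tG_T (lev Fr.B ξ) N w S ↔
      m + 1 ∈ tG_T (lev Fr.B ξ) N w S)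
  · exact Or.inr (tG_const hc)
  · left
    push Not at hc
    obtain ⟨m, h1, h2, h3⟩ := hc
    have h3' : ¬ (m ∈ tG_T (lev Fr.B ξ) N w S ↔ m + 1 ∈ tG_T (lev Fr.B ξ) N w S) := by
      intro hiff
      rcases h3 with ⟨h4, h5⟩ | ⟨h4, h5⟩
      · exact h5 (hiff.mp h4)
      · exact h4 (hiff.mpr h5)
    obtain ⟨q, hq⟩ := tG_change hS h3'
    have hqe := Cut.lev_eq (lev_lip Fr.B h) hq
    refine ⟨m + 1, by omega, h2, ?_, ?_⟩
    · intro k hk
      rw [hlev, hlev, hqe]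
      exact hq.2.1 k hk
    · intro k hk hkN
      rw [hlev, hlev, hqe]
      exact hq.2.2 k hk hkN

theorem tG_dB' (Fr : Frame Ω) {N n w k : ℕ} {ξ : ℕ → V} {S : Finset ℕ}
    (hS : S ⊆ Good (lev Fr.B ξ) N w n) (hk : k ∈ Good (lev Fr.B ξ) N w n) :
    dB' Fr N w (op Fr.t (tG_T (lev Fr.B ξ) N w S) ξ) k =
      if k ∈ S then - dB' Fr N w ξ k else dB' Fr N w ξ k := by
  have hlev : lev Fr.B (op Fr.t (tG_T (lev Fr.B ξ) N w S) ξ) = lev Fr.B ξ :=
    funext (fun i => lev_op_t Fr.B Fr.tB _ ξ i)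
  have hg := tG_good_open hk
  have hle := tG_ct_mono hg.1 hg.2 (Nat.le_succ k)
  have hdiff : ∀ η : ℕ → V, lev Fr.B' η (ct (lev Fr.B ξ) N w (k + 1)) -
      lev Fr.B' η (ct (lev Fr.B ξ) N w k) =
      ∑ i ∈ Finset.Ico (ct (lev Fr.B ξ) N w k) (ct (lev Fr.B ξ) N w (k + 1)), Fr.B'.F (η i) := by
    intro η
    have e1 : lev Fr.B' η (ct (lev Fr.B ξ) N w (k + 1)) -
        lev Fr.B' η (ct (lev Fr.B ξ) N w k) =
        Fr.B'.F (P η (ct (lev Fr.B ξ) N w (k + 1)) - P η (ct (lev Fr.B ξ) N w k)) :=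
      (map_sub _ _ _).symm
    rw [e1, P_sub_P _ hle, map_sum]
  unfold dB'
  rw [hlev, hdiff, hdiff]
  split_ifs with hkS
  · rw [← Finset.sum_neg_distrib]
    refine Finset.sum_congr rfl (fun i hi => ?_)
    rw [Finset.mem_Ico] at hi
    unfold op
    rw [if_pos ((tG_mem_T hS hk hi.1 hi.2).mpr hkS), Fr.tB']
  · refine Finset.sum_congr rfl (fun i hi => ?_)
    rw [Finset.mem_Ico] at hi
    unfold op
    rw [if_neg (fun h => hkS ((tG_mem_T hS hk hi.1 hi.2).mp h))]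

open scoped Classical in
/-- negative blocks -/
noncomputable def tG_neg (Fr : Frame Ω) (N n w : ℕ) (ξ : ℕ → V) : Finset ℕ :=
  (Good (lev Fr.B ξ) N w n).filter (fun k => dB' Fr N w ξ k < 0)

open scoped Classical in
/-- positive blocks -/
noncomputable def tG_pos (Fr : Frame Ω) (N n w : ℕ) (ξ : ℕ → V) : Finset ℕ :=
  (Good (lev Fr.B ξ) N w n).filter (fun k => 0 < dB' Fr N w ξ k)

theorem tG_recover (Fr : Frame Ω) {N n w : ℕ} {ξ : ℕ → V} {S : Finset ℕ}
    (hS : S ⊆ tG_pos Fr N n w ξ) :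
    tG_neg Fr N n w (op Fr.t (tG_T (lev Fr.B ξ) N w S) ξ) \ tG_neg Fr N n w ξ = S := by
  classical
  have hlev : lev Fr.B (op Fr.t (tG_T (lev Fr.B ξ) N w S) ξ) = lev Fr.B ξ :=
    funext (fun i => lev_op_t Fr.B Fr.tB _ ξ i)
  have hSG : S ⊆ Good (lev Fr.B ξ) N w n := by
    intro k hk
    have := hS hk
    unfold tG_pos at this
    exact (Finset.mem_filter.mp this).1
  ext k
  unfold tG_neg
  rw [hlev]
  rw [Finset.mem_sdiff, Finset.mem_filter, Finset.mem_filter]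
  constructor
  · rintro ⟨⟨h1, h2⟩, h3⟩
    by_contra hkS
    rw [tG_dB' Fr hSG h1, if_neg hkS] at h2
    exact h3 ⟨h1, h2⟩
  · intro hkS
    have h1 := hSG hkS
    have h2 := hS hkS
    unfold tG_pos at h2
    have h3 := (Finset.mem_filter.mp h2).2
    refine ⟨⟨h1, ?_⟩, ?_⟩
    · rw [tG_dB' Fr hSG h1, if_pos hkS]
      omega
    · rintro ⟨_, h4⟩
      omega

open scoped Classical in
theorem flip (Fr : Frame Ω) (N n w j g : ℕ) (hw : 1 ≤ w) :
    ((SawSet Ω N).filter (fun ξ => g ≤ (Good (lev Fr.B ξ) N w n).card ∧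
      ((Good (lev Fr.B ξ) N w n).filter (fun k => dB' Fr N w ξ k ≤ 0)).card ≤ j)).card
        * 2 ^ (g - j) ≤
      cc Ω N * ((range n).powerset.filter (fun J => J.card ≤ j)).card := by
  set X := (SawSet Ω N).filter (fun ξ => g ≤ (Good (lev Fr.B ξ) N w n).card ∧
      ((Good (lev Fr.B ξ) N w n).filter (fun k => dB' Fr N w ξ k ≤ 0)).card ≤ j) with hX
  have hlev : ∀ (ξ : ℕ → V) (T : Finset ℕ), lev Fr.B (op Fr.t T ξ) = lev Fr.B ξ :=
    fun ξ T => funext (fun i => lev_op_t Fr.B Fr.tB _ ξ i)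
  -- lower bound
  have h1 : X.card * 2 ^ (g - j) ≤ (X.sigma (fun ξ => (tG_pos Fr N n w ξ).powerset)).card := by
    rw [Finset.card_sigma, ← smul_eq_mul]
    refine Finset.card_nsmul_le_sum _ _ _ (fun ξ hξ => ?_)
    rw [Finset.card_powerset]
    refine Nat.pow_le_pow_right (by norm_num) ?_
    rw [hX, Finset.mem_filter] at hξ
    obtain ⟨_, h2, h3⟩ := hξ
    have h4 := Finset.card_filter_add_card_filter_not (s := Good (lev Fr.B ξ) N w n)
      (fun k => dB' Fr N w ξ k ≤ 0)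
    have h5 : (Good (lev Fr.B ξ) N w n).filter (fun k => ¬ dB' Fr N w ξ k ≤ 0) =
        tG_pos Fr N n w ξ := by
      unfold tG_pos
      refine Finset.filter_congr (fun k _ => ?_)
      exact not_le
    rw [h5] at h4
    omega
  refine h1.trans ?_
  unfold cc
  rw [← Finset.card_product]
  refine Finset.card_le_card_of_injOn
    (fun x => (op Fr.t (tG_T (lev Fr.B x.1) N w x.2) x.1, tG_neg Fr N n w x.1)) ?_ ?_
  · rintro ⟨ξ, S⟩ hx
    rw [Finset.mem_coe, Finset.mem_sigma] at hx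
    obtain ⟨hξ, hS⟩ := hx
    rw [Finset.mem_powerset] at hS
    simp only at hξ hS
    rw [hX, Finset.mem_filter] at hξ
    obtain ⟨hsaw, h2, h3⟩ := hξ
    rw [mem_SawSet] at hsaw
    rw [Finset.mem_coe, Finset.mem_product]
    refine ⟨?_, ?_⟩
    · simp only
      rw [mem_SawSet]
      refine tG_saw Fr (n := n) hsaw ?_
      intro k hk
      have := hS hk
      unfold tG_pos at this
      exact (Finset.mem_filter.mp this).1
    · simp only
      rw [Finset.mem_filter, Finset.mem_powerset]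
      refine ⟨?_, ?_⟩
      · intro k hk
        unfold tG_neg Good at hk
        rw [Finset.mem_filter, Finset.mem_filter] at hk
        exact hk.1.1
      · refine le_trans (Finset.card_le_card ?_) h3
        intro k hk
        unfold tG_neg at hk
        rw [Finset.mem_filter] at hk ⊢
        exact ⟨hk.1, hk.2.le⟩
  · rintro ⟨ξ, S⟩ hx ⟨η, R⟩ hy heq
    rw [Finset.mem_coe, Finset.mem_sigma, Finset.mem_powerset] at hx hy
    simp only [Prod.mk.injEq] at heq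
    obtain ⟨h2, h3⟩ := heq
    have hlevs : lev Fr.B ξ = lev Fr.B η := by
      have := hlev ξ (tG_T (lev Fr.B ξ) N w S)
      rw [← this, h2, hlev]
    have hSR : S = R := by
      have e1 : tG_neg Fr N n w (op Fr.t (tG_T (lev Fr.B ξ) N w S) ξ) \ tG_neg Fr N n w ξ = S :=
        tG_recover Fr hx.2
      have e2 : tG_neg Fr N n w (op Fr.t (tG_T (lev Fr.B η) N w R) η) \ tG_neg Fr N n w η = R :=
        tG_recover Fr hy.2
      rw [← e1, ← e2, h2, h3]
    subst hSR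
    have hξη : ξ = η := by
      rw [← op_involutive Fr.tt (tG_T (lev Fr.B ξ) N w S) ξ, h2, hlevs, op_involutive Fr.tt]
    subst hξη
    rfl

end Pool.Agent.H725R2.SB
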