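import Pool.Agent.H725R2.SB.TH
import Pool.Agent.H725R2.SB.TE2

/-! Task I of the sub-ballisticity project. -/

set_option autoImplicit false

namespace Pool.Agent.H725R2.SB

open Finset

variable {V : Type*} [AddCommGroup V] {Ω : Finset V}

/-- the first cut time of an open window is a cut time -/
theorem tI_ct_spec {a : ℕ → ℤ} {N w k : ℕ} (h : Open a N w k) :
    ∃ q : ℤ, 8 * (w : ℤ) * k ≤ q ∧ q < 8 * (w : ℤ) * k + 4 * w ∧ Cut a N q (ct a N w k) := by
  have hne : {τ : ℕ | ∃ q : ℤ, 8 * (w : ℤ) * k ≤ q ∧ q < 8 * (w : ℤ) * k + 4 * w ∧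
      Cut a N q τ}.Nonempty := by
    obtain ⟨q, h1, h2, τ, h3⟩ := h
    exact ⟨τ, q, h1, h2, h3⟩
  exact Nat.sInf_mem hne

open scoped Classical in
/-- few closed windows without many light levels -/
theorem tI_few {a : ℕ → ℤ} {N r w m : ℕ} (T : Finset ℕ) (hT : T ⊆ range m)
    (h : ∀ i ∈ T, ((Finset.Ioc (4 * (w : ℤ) * i + w) (4 * (w : ℤ) * i + 3 * w)).filter
      (fun p => Light a N r p)).card < w) :
    T.card * w ≤ ((Finset.Icc (1 : ℤ) ((4 * w * m : ℕ) : ℤ)).filter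
      (fun p => ¬ Light a N r p)).card := by
  set core : ℕ → Finset ℤ := fun i =>
    (Finset.Ioc (4 * (w : ℤ) * i + w) (4 * (w : ℤ) * i + 3 * w)).filter
      (fun p => ¬ Light a N r p) with hcore
  have hcard : ∀ i ∈ T, w ≤ (core i).card := by
    intro i hi
    have h1 := h i hi
    have h2 := Finset.card_filter_add_card_filter_not (s :=
      Finset.Ioc (4 * (w : ℤ) * i + w) (4 * (w : ℤ) * i + 3 * w)) (fun p => Light a N r p)
    have h3 : (Finset.Ioc (4 * (w : ℤ) * i + w) (4 * (w : ℤ) * i + 3 * w)).card = 2 * w := by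
      rw [Int.card_Ioc]
      have : (4 * (w : ℤ) * i + 3 * w) - (4 * (w : ℤ) * i + w) = ((2 * w : ℕ) : ℤ) := by
        push_cast; ring
      rw [this, Int.toNat_natCast]
    rw [h3] at h2
    simp only [hcore]
    omega
  have hdisj : ∀ i ∈ T, ∀ j ∈ T, i ≠ j → Disjoint (core i) (core j) := by
    intro i _ j _ hij
    rw [Finset.disjoint_left]
    intro p hp1 hp2
    simp only [hcore, mem_filter, mem_Ioc] at hp1 hp2
    rcases Nat.lt_or_gt_of_ne hij with h1 | h1
    · have h2 : (i : ℤ) + 1 ≤ j := by exact_mod_cast h1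
      have h3 : 4 * (w : ℤ) * (i + 1) ≤ 4 * (w : ℤ) * j :=
        mul_le_mul_of_nonneg_left h2 (by positivity)
      linarith [hp1.1.2, hp2.1.1]
    · have h2 : (j : ℤ) + 1 ≤ i := by exact_mod_cast h1
      have h3 : 4 * (w : ℤ) * (j + 1) ≤ 4 * (w : ℤ) * i :=
        mul_le_mul_of_nonneg_left h2 (by positivity)
      linarith [hp2.1.2, hp1.1.1]
  calc T.card * w = ∑ _i ∈ T, w := by rw [sum_const, smul_eq_mul]
    _ ≤ ∑ i ∈ T, (core i).card := sum_le_sum hcard
    _ = (T.biUnion core).card := by rw [card_biUnion hdisj]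
    _ ≤ _ := by
      refine card_le_card ?_
      intro p hp
      rw [mem_biUnion] at hp
      obtain ⟨i, hi, hp⟩ := hp
      simp only [hcore, mem_filter, mem_Ioc] at hp
      rw [mem_filter, mem_Icc]
      have hi' : (i : ℤ) + 1 ≤ m := by exact_mod_cast mem_range.1 (hT hi)
      have h3 : 4 * (w : ℤ) * (i + 1) ≤ 4 * (w : ℤ) * m :=
        mul_le_mul_of_nonneg_left hi' (by positivity)
      have h4 : (0 : ℤ) ≤ 4 * (w : ℤ) * i := by positivity
      have h5 : (0 : ℤ) ≤ w := by positivity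
      refine ⟨⟨by linarith [hp.1.1], ?_⟩, hp.2⟩
      push_cast
      linarith [hp.1.2]

theorem covering (Fr : Frame Ω) {N n τ w m : ℕ} (hN : N = n * τ) (hτ : 1 ≤ τ) (hw : 8 * τ ≤ w)
    {v : ℝ} (hv : 0 < v) (hm : (m : ℝ) * (20 * w) ≤ v * N) (hm' : v * N < ((m : ℝ) + 1) * (20 * w))
    (hmbig : 1000000 ≤ m)
    {ξ : ℕ → V} (hξ : IsSaw Ω N ξ) (hA : v * N ≤ (lev Fr.A ξ N : ℝ)) :
    ep * v * N ≤ exc Fr.A (lam * v) τ n ξ ∨
    ep * v * N / Fr.κ ≤ exc Fr.B (1.45 * v / Fr.κ) τ n ξ ∨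
    ep * v * N / Fr.κ ≤ exc Fr.B' (1.45 * v / Fr.κ) τ n ξ ∨
    (4 * (w : ℤ) * m < lev Fr.B ξ N ∧ ∃ J : Finset ℕ, J ⊆ range m ∧ m ≤ 40 * J.card ∧
      ∀ i ∈ J, NC (lev Fr.B ξ) N (8 * τ) w i) ∨
    (2 * m ≤ 5 * (Good (lev Fr.B ξ) N w m).card ∧
      ∃ J : Finset ℕ, (∀ k, k ∈ J ↔ k ∈ Good (lev Fr.B ξ) N w m ∧ dB' Fr N w ξ k ≤ 0) ∧
        1000 * J.card ≤ m) := by
  classical
  by_cases h1 : ep * v * N ≤ exc Fr.A (lam * v) τ n ξ
  · exact Or.inl h1
  by_cases h2 : ep * v * N / Fr.κ ≤ exc Fr.B (1.45 * v / Fr.κ) τ n ξ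
  · exact Or.inr (Or.inl h2)
  by_cases h3 : ep * v * N / Fr.κ ≤ exc Fr.B' (1.45 * v / Fr.κ) τ n ξ
  · exact Or.inr (Or.inr (Or.inl h3))
  obtain ⟨d1, d2, d3⟩ := det Fr hN hτ hw hξ hv.le hA (not_le.1 h1).le (not_le.1 h2).le
    (not_le.1 h3).le
  set a := lev Fr.B ξ with ha
  have hlip : ∀ i, |a (i + 1) - a i| ≤ 1 := lev_lip Fr.B hξ
  have a0 : a 0 = 0 := lev_zero _ _
  have hw8 : 8 ≤ w := by omega
  have hwpos : (8 : ℝ) ≤ w := by exact_mod_cast hw8
  have hmpos : (1000000 : ℝ) ≤ m := by exact_mod_cast hmbig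
  have hwm : (0 : ℝ) < (m : ℝ) * w := by positivity
  have hBN : 4 * (w : ℤ) * m < a N := by
    have h5 : 5 * ((m : ℝ) * w) ≤ (a N : ℝ) := by
      rcases Fr.hκ with hk | hk
      · rw [hk] at d1
        push_cast at d1
        nlinarith
      · rw [hk] at d1
        push_cast at d1
        nlinarith
    have h6 : 4 * (w : ℝ) * m < (a N : ℝ) := by nlinarith
    exact_mod_cast h6
  by_cases h4 : ∃ J : Finset ℕ, J ⊆ range m ∧ m ≤ 40 * J.card ∧ ∀ i ∈ J, NC a N (8 * τ) w i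
  · exact Or.inr (Or.inr (Or.inr (Or.inl ⟨hBN, h4⟩)))
  refine Or.inr (Or.inr (Or.inr (Or.inr ?_)))
  have hheavy := heavy_bound (a := a) hlip a0 (N := N) (r := 8 * τ) (Lm := 4 * w * m) (by omega)
    (by push_cast; linarith) (S := 4 * dl * v * N) (by simpa using d2)
  -- closed windows
  set Cl := (range m).filter (fun i : ℕ => ∀ q : ℤ, 4 * (w : ℤ) * i ≤ q →
    q < 4 * (w : ℤ) * (i + 1) → ¬ IsCut a N q) with hCl
  set NCs := (range m).filter (fun i : ℕ => NC a N (8 * τ) w i) with hNCs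
  set Cl2 := Cl.filter (fun i : ℕ => ¬ NC a N (8 * τ) w i) with hCl2
  have h5 : 40 * NCs.card < m := by
    by_contra hcon
    exact h4 ⟨NCs, filter_subset _ _, not_lt.1 hcon, fun i hi => (mem_filter.1 hi).2⟩
  have h6 : Cl2.card * w ≤ ((Finset.Icc (1 : ℤ) ((4 * w * m : ℕ) : ℤ)).filter
      (fun p => ¬ Light a N (8 * τ) p)).card := by
    refine tI_few Cl2 ((filter_subset _ _).trans (filter_subset _ _)) ?_
    intro i hi
    rw [hCl2, mem_filter] at hi
    obtain ⟨hi1, hi2⟩ := hi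
    rw [hCl, mem_filter] at hi1
    by_contra hcon
    exact hi2 ⟨hi1.2, not_lt.1 hcon⟩
  have h7 : Cl.card ≤ NCs.card + Cl2.card := by
    refine (card_le_card (t := NCs ∪ Cl2) ?_).trans (card_union_le _ _)
    intro i hi
    rw [mem_union]
    by_cases hnc : NC a N (8 * τ) w i
    · exact Or.inl (mem_filter.2 ⟨(mem_filter.1 hi).1, hnc⟩)
    · exact Or.inr (mem_filter.2 ⟨hi, hnc⟩)
  have h8 : (Cl2.card : ℝ) ≤ 0.0016 * ((m : ℝ) + 1) := by
    have h9 : (Cl2.card : ℝ) * w ≤ 2 * (4 * dl * v * N) := by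
      refine le_trans ?_ hheavy
      exact_mod_cast h6
    have h10 : 2 * (4 * dl * v * N) ≤ 0.0016 * ((m : ℝ) + 1) * w := by
      have : 2 * (4 * dl * v * N) = 0.00008 * (v * N) := by rw [dl]; ring
      rw [this]
      nlinarith
    exact le_of_mul_le_mul_right (h9.trans h10) (by linarith)
  have h5' : (NCs.card : ℝ) ≤ 0.025 * m := by
    have : (40 : ℝ) * NCs.card ≤ m := by exact_mod_cast h5.le
    linarith
  have h7' : (Cl.card : ℝ) ≤ 0.025 * m + 0.0016 * ((m : ℝ) + 1) := by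
    have : (Cl.card : ℝ) ≤ NCs.card + Cl2.card := by exact_mod_cast h7
    linarith
  -- open windows
  have hopen : ∀ k : ℕ, 2 * k < m → 2 * k ∉ Cl → Open a N w k := by
    intro k hk hkC
    rw [hCl, mem_filter, not_and] at hkC
    have := hkC (mem_range.2 hk)
    push Not at this
    obtain ⟨q, hq1, hq2, hq3⟩ := this
    refine ⟨q, ?_, ?_, hq3⟩
    · refine le_trans (le_of_eq ?_) hq1
      push_cast; ring
    · refine lt_of_lt_of_eq hq2 ?_
      push_cast; ring
  set G := Good a N w m with hG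
  have hK : range ((m - 1) / 2) ⊆ G ∪ ((range ((m - 1) / 2)).filter (fun k => 2 * k ∈ Cl) ∪
      (range ((m - 1) / 2)).filter (fun k => 2 * (k + 1) ∈ Cl)) := by
    intro k hk
    by_cases hk1 : 2 * k ∈ Cl
    · exact mem_union.2 (Or.inr (mem_union.2 (Or.inl (mem_filter.2 ⟨hk, hk1⟩))))
    by_cases hk2 : 2 * (k + 1) ∈ Cl
    · exact mem_union.2 (Or.inr (mem_union.2 (Or.inr (mem_filter.2 ⟨hk, hk2⟩))))
    rw [mem_range] at hk
    refine mem_union.2 (Or.inl ?_)
    rw [hG, Good, mem_filter, mem_range]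
    exact ⟨by omega, hopen k (by omega) hk1, hopen (k + 1) (by omega) hk2⟩
  have hK1 : ((range ((m - 1) / 2)).filter (fun k => 2 * k ∈ Cl)).card ≤ Cl.card := by
    refine card_le_card_of_injOn (fun k => 2 * k) (fun k hk => ?_) (fun x _ y _ hxy => ?_)
    · exact (mem_filter.1 hk).2
    · simp only at hxy; omega
  have hK2 : ((range ((m - 1) / 2)).filter (fun k => 2 * (k + 1) ∈ Cl)).card ≤ Cl.card := by
    refine card_le_card_of_injOn (fun k => 2 * (k + 1)) (fun k hk => ?_) (fun x _ y _ hxy => ?_)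
    · exact (mem_filter.1 hk).2
    · simp only at hxy; omega
  have hK3 : (m - 1) / 2 ≤ G.card + (Cl.card + Cl.card) := by
    have h9 := card_le_card hK
    rw [card_range] at h9
    refine h9.trans ((card_union_le _ _).trans (Nat.add_le_add_left ?_ _))
    exact (card_union_le _ _).trans (Nat.add_le_add hK1 hK2)
  have hK4 : (m : ℝ) ≤ 2 * (G.card + (Cl.card + Cl.card)) + 2 := by
    have : m ≤ 2 * (G.card + (Cl.card + Cl.card)) + 2 := by omega
    exact_mod_cast this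
  refine ⟨?_, G.filter (fun k => dB' Fr N w ξ k ≤ 0), fun k => by rw [mem_filter], ?_⟩
  · have : 2 * (m : ℝ) ≤ 5 * G.card := by linarith
    exact_mod_cast this
  · set J := G.filter (fun k => dB' Fr N w ξ k ≤ 0) with hJ
    have hJG : ∀ k ∈ J, Open a N w k ∧ Open a N w (k + 1) ∧ dB' Fr N w ξ k ≤ 0 := by
      intro k hk
      rw [hJ, mem_filter, hG, Good, mem_filter] at hk
      exact ⟨hk.1.2.1, hk.1.2.2, hk.2⟩
    have hlt : ∀ k k' : ℕ, Open a N w k → Open a N w k' → k < k' →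
        ct a N w k ≤ ct a N w k' ∧ 4 * (w : ℤ) ≤ a (ct a N w k') - a (ct a N w k) := by
      intro k k' hk hk' hkk
      obtain ⟨q, hq1, hq2, hq3⟩ := tI_ct_spec hk
      obtain ⟨q', hq1', hq2', hq3'⟩ := tI_ct_spec hk'
      have h9 : (k : ℤ) + 1 ≤ k' := by exact_mod_cast hkk
      have h10 : 8 * (w : ℤ) * (k + 1) ≤ 8 * (w : ℤ) * k' :=
        mul_le_mul_of_nonneg_left h9 (by positivity)
      have h11 : (0 : ℤ) ≤ w := by positivity
      refine ⟨Cut.mono hq3 hq3' (by linarith), ?_⟩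
      rw [hq3.lev_eq hlip, hq3'.lev_eq hlip]
      linarith
    set f : ℕ → ℕ × ℕ := fun k => (ct a N w k, ct a N w (k + 1)) with hf
    have hinj : Set.InjOn f (J : Set ℕ) := by
      intro k hk k' hk' hkk
      by_contra hne
      have hk1 := hJG k hk
      have hk1' := hJG k' hk'
      simp only [hf, Prod.mk.injEq] at hkk
      have hwz : (8 : ℤ) ≤ w := by exact_mod_cast hw8
      rcases Nat.lt_or_gt_of_ne hne with h9 | h9
      · have := (hlt k k' hk1.1 hk1'.1 h9).2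
        rw [hkk.1] at this
        linarith
      · have := (hlt k' k hk1'.1 hk1.1 h9).2
        rw [hkk.1] at this
        linarith
    have h9 := d3 (J.image f) (by
      intro x hx y hy hxy
      rw [mem_image] at hx hy
      obtain ⟨k, hk, rfl⟩ := hx
      obtain ⟨k', hk', rfl⟩ := hy
      have hkk : k ≠ k' := fun h => hxy (by rw [h])
      have hk1 := hJG k hk
      have hk1' := hJG k' hk'
      simp only [hf]
      rcases Nat.lt_or_gt_of_ne hkk with h9 | h9
      · left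
        rcases Nat.eq_or_lt_of_le (Nat.succ_le_of_lt h9) with h10 | h10
        · rw [← h10]
        · exact (hlt (k + 1) k' hk1.2.1 hk1'.1 h10).1
      · right
        rcases Nat.eq_or_lt_of_le (Nat.succ_le_of_lt h9) with h10 | h10
        · rw [← h10]
        · exact (hlt (k' + 1) k hk1'.2.1 hk1.1 h10).1) (by
      intro x hx
      rw [mem_image] at hx
      obtain ⟨k, hk, rfl⟩ := hx
      have hk1 := hJG k hk
      have h10 := hlt k (k + 1) hk1.1 hk1.2.1 (Nat.lt_succ_self k)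
      obtain ⟨q', hq1', hq2', hq3'⟩ := tI_ct_spec hk1.2.1
      refine ⟨h10.1, hq3'.1.le, h10.2, ?_⟩
      have h11 := hk1.2.2
      unfold dB' at h11
      simp only [hf]
      linarith)
    rw [card_image_of_injOn hinj] at h9
    have h10 : 3 * dl * v * N ≤ 0.0006 * ((m : ℝ) + 1) * w := by
      have : 3 * dl * v * N = 0.00003 * (v * N) := by rw [dl]; ring
      rw [this]
      nlinarith
    have h11 : (J.card : ℝ) ≤ 0.0006 * ((m : ℝ) + 1) :=
      le_of_mul_le_mul_right (h9.trans h10) (by linarith)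
    have h12 : 1000 * (J.card : ℝ) ≤ m := by linarith
    exact_mod_cast h12

end Pool.Agent.H725R2.SB
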