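import Pool.Agent.H725R2.SB.TC2
import Pool.Agent.H725R2.SB.TD
import Pool.Agent.H725R2.SB.TF2
import Pool.Agent.H725R2.SB.TG
import Pool.Agent.H725R2.SB.TI

/-! Task J of the sub-ballisticity project. -/

set_option autoImplicit false

namespace Pool.Agent.H725R2.SB

open Finset

variable {V : Type*} [AddCommGroup V] {Ω : Finset V}

theorem tJ_log_le {y : ℝ} (hy : 1 ≤ y) : Real.log (4 * y) ≤ 8 * y ^ (1 / 4 : ℝ) := by
  have h0 : (0:ℝ) < y := by linarith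
  have h1 : (0:ℝ) < 4 * y := by linarith
  have h2 : Real.log (4 * y) = 4 * Real.log ((4 * y) ^ (1 / 4 : ℝ)) := by
    rw [Real.log_rpow h1]; ring
  rw [h2]
  have h3 : Real.log ((4 * y) ^ (1 / 4 : ℝ)) ≤ (4 * y) ^ (1 / 4 : ℝ) :=
    (Real.log_le_sub_one_of_pos (by positivity)).trans (by linarith)
  have h4 : (4 * y) ^ (1 / 4 : ℝ) ≤ 2 * y ^ (1 / 4 : ℝ) := by
    rw [Real.mul_rpow (by norm_num) h0.le]
    have : (4:ℝ) ^ (1 / 4 : ℝ) ≤ 2 := by
      calc (4:ℝ) ^ (1 / 4 : ℝ) ≤ (4:ℝ) ^ (1 / 2 : ℝ) :=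
            Real.rpow_le_rpow_of_exponent_le (by norm_num) (by norm_num)
        _ = 2 := by
            rw [show (4:ℝ) = 2 ^ (2:ℝ) by norm_num, ← Real.rpow_mul (by norm_num)]
            norm_num
    have h5 : 0 ≤ y ^ (1 / 4 : ℝ) := by positivity
    nlinarith
  linarith

theorem tJ_small (μ : ℝ) (hμ : 1 ≤ μ) : ∃ φ₀ : ℝ, 0 < φ₀ ∧ ∀ φ v : ℝ, 0 < φ → φ < φ₀ →
    φ ^ (1 / 5 : ℝ) ≤ v → ∃ τ : ℕ, 1 ≤ τ ∧
      Real.log (2 * (τ + 1)) + 25 * (τ : ℝ) ^ (3 / 4 : ℝ) + Real.log μ + φ ^ (1 / 20 : ℝ) ≤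
        τ * (φ ^ (1 / 20 : ℝ) * ep / 4) ∧
      260 * φ * (2 ^ 120 * (8 * (τ : ℝ)) ^ 3) ≤ v ∧ 12 * φ ≤ φ ^ (1 / 20 : ℝ) * ep ∧
      φ ^ (1 / 20 : ℝ) ≤ 1 := by
  set K : ℝ := 34 + Real.log μ with hK
  have hlogμ : 0 ≤ Real.log μ := Real.log_nonneg hμ
  have hK0 : 0 < K := by linarith
  have hep : (0:ℝ) < ep := by unfold ep; norm_num
  have hep1 : ep ≤ 1 := by unfold ep; norm_num
  obtain ⟨x₀, hx0, hx1, hx2, hx3⟩ : ∃ x₀ : ℝ, 0 < x₀ ∧ x₀ ≤ (ep / (4 * K)) ^ 4 ∧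
      x₀ ≤ 1 / (260 * 2 ^ 132) ∧ x₀ ≤ ep / 12 := by
    refine ⟨min ((ep / (4 * K)) ^ 4) (min (1 / (260 * 2 ^ 132)) (ep / 12)), ?_, ?_, ?_, ?_⟩
    · refine lt_min (by positivity) (lt_min (by positivity) (by positivity))
    · exact min_le_left _ _
    · exact (min_le_right _ _).trans (min_le_left _ _)
    · exact (min_le_right _ _).trans (min_le_right _ _)
  refine ⟨x₀ ^ 20, by positivity, fun φ v h0 h1 hv => ?_⟩
  set x : ℝ := φ ^ (1 / 20 : ℝ) with hx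
  have hxpos : 0 < x := Real.rpow_pos_of_pos h0 _
  have hφ : φ = x ^ 20 := by
    rw [hx, ← Real.rpow_natCast, ← Real.rpow_mul h0.le]; norm_num
  have hφ5 : φ ^ (1 / 5 : ℝ) = x ^ 4 := by
    rw [hx, ← Real.rpow_natCast, ← Real.rpow_mul h0.le]; norm_num
  have hxx : x < x₀ := by
    rw [hφ] at h1
    exact lt_of_pow_lt_pow_left₀ 20 hx0.le h1
  have hx1' : x ≤ 1 := by
    have : (1:ℝ) / (260 * 2 ^ 132) ≤ 1 := by norm_num
    linarith
  set τ : ℕ := ⌈(1 / x ^ 5 : ℝ)⌉₊ with hτ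
  have ht1 : (1 / x ^ 5 : ℝ) ≤ τ := Nat.le_ceil _
  have h15 : 1 ≤ (1 / x ^ 5 : ℝ) := by
    rw [le_div_iff₀ (by positivity)]
    have := pow_le_one₀ hxpos.le hx1' (n := 5)
    linarith
  have ht2 : (τ : ℝ) ≤ 2 * (1 / x ^ 5) := by
    have := (Nat.ceil_lt_add_one (show (0:ℝ) ≤ 1 / x ^ 5 by positivity)).le
    linarith
  have hτ1 : (1:ℝ) ≤ τ := h15.trans ht1
  have hτ1' : 1 ≤ τ := by exact_mod_cast hτ1
  refine ⟨τ, hτ1', ?_, ?_, ?_, hx1'⟩
  · -- main estimate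
    set s : ℝ := (τ : ℝ) ^ (1 / 4 : ℝ) with hs
    have hs0 : 0 < s := Real.rpow_pos_of_pos (by linarith) _
    have hs1 : 1 ≤ s := Real.one_le_rpow hτ1 (by norm_num)
    have hs3 : (τ : ℝ) ^ (3 / 4 : ℝ) = s ^ 3 := by
      rw [hs, ← Real.rpow_natCast, ← Real.rpow_mul (by linarith)]; norm_num
    have hs4 : (τ : ℝ) = s ^ 4 := by
      rw [hs, ← Real.rpow_natCast, ← Real.rpow_mul (by linarith)]; norm_num
    have hl : Real.log (2 * (τ + 1)) ≤ 8 * s := by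
      refine le_trans (Real.log_le_log (by positivity) ?_) (tJ_log_le hτ1)
      linarith
    have hss : s ≤ s ^ 3 := by nlinarith [sq_nonneg (s - 1)]
    have h1s : 1 ≤ s ^ 3 := by nlinarith [sq_nonneg (s - 1)]
    have hsum : Real.log (2 * (τ + 1)) + 25 * (τ : ℝ) ^ (3 / 4 : ℝ) + Real.log μ + x ≤ K * s ^ 3 := by
      rw [hs3, hK]
      have : Real.log μ ≤ Real.log μ * s ^ 3 := by nlinarith
      nlinarith
    refine hsum.trans ?_
    have hkey : 4 * K / ep ≤ s * x := by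
      have h4 : (4 * K / ep) ^ 4 ≤ (s * x) ^ 4 := by
        have e1 : (s * x) ^ 4 = (τ : ℝ) * x ^ 4 := by rw [mul_pow, ← hs4]
        have e2 : 1 / x ≤ (τ : ℝ) * x ^ 4 := by
          have : 1 / x = (1 / x ^ 5) * x ^ 4 := by field_simp
          rw [this]
          exact mul_le_mul_of_nonneg_right ht1 (by positivity)
        have e3 : (4 * K / ep) ^ 4 ≤ 1 / x := by
          rw [le_div_iff₀ hxpos]
          have : (4 * K / ep) ^ 4 * x ≤ (4 * K / ep) ^ 4 * (ep / (4 * K)) ^ 4 :=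
            mul_le_mul_of_nonneg_left (hxx.le.trans hx1) (by positivity)
          refine this.trans (le_of_eq ?_)
          rw [← mul_pow]
          have : 4 * K / ep * (ep / (4 * K)) = 1 := by field_simp
          rw [this, one_pow]
        rw [e1]; linarith
      exact le_of_pow_le_pow_left₀ (by norm_num) (by positivity) h4
    have h5 : K ≤ s * x * ep / 4 := by
      rw [div_le_iff₀ hep] at hkey
      linarith
    rw [hs4]
    have : K * s ^ 3 ≤ (s * x * ep / 4) * s ^ 3 := mul_le_mul_of_nonneg_right h5 (by positivity)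
    refine this.trans (le_of_eq (by ring))
  · -- window size
    rw [hφ5] at hv
    refine le_trans ?_ hv
    rw [hφ]
    have h3 : (8 * (τ : ℝ)) ^ 3 ≤ 4096 * (1 / x ^ 15) := by
      have : (8 * (τ : ℝ)) ^ 3 ≤ (16 * (1 / x ^ 5)) ^ 3 :=
        pow_le_pow_left₀ (by positivity) (by linarith) 3
      refine this.trans (le_of_eq ?_)
      rw [mul_pow, div_pow, one_pow, ← pow_mul]; norm_num
    have h4 : 260 * x ^ 20 * (2 ^ 120 * (8 * (τ : ℝ)) ^ 3) ≤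
        260 * x ^ 20 * (2 ^ 120 * (4096 * (1 / x ^ 15))) := by
      gcongr
    refine h4.trans ?_
    have h5 : 260 * x ^ 20 * (2 ^ 120 * (4096 * (1 / x ^ 15))) = (260 * 2 ^ 132 * x) * x ^ 4 := by
      field_simp; ring
    rw [h5]
    have h6 : 260 * 2 ^ 132 * x ≤ 1 := by
      have := hxx.le.trans hx2
      rw [le_div_iff₀ (by positivity)] at this
      linarith
    have : (0:ℝ) ≤ x ^ 4 := by positivity
    nlinarith
  · rw [hφ]
    have h6 : x ^ 19 ≤ x := by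
      calc x ^ 19 = x ^ 18 * x := by ring
        _ ≤ 1 * x := mul_le_mul_of_nonneg_right (pow_le_one₀ hxpos.le hx1') hxpos.le
        _ = x := one_mul x
    have h7 : x ≤ ep / 12 := hxx.le.trans hx3
    have : 12 * x ^ 20 = x * (12 * x ^ 19) := by ring
    rw [this]
    exact mul_le_mul_of_nonneg_left (by linarith) hxpos.le


open scoped Classical in
theorem tJ_tv (L : Lev Ω) {s m : ℝ} (hs : 0 < s) (hm : 0 ≤ m)
    (H : ∀ (T : ℕ) (h : ℤ), s * T ≤ h → (br L T h : ℝ) ≤ mu Ω ^ T * Real.exp (-m * T))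
    {τ n : ℕ}
    (hy : Real.log (2 * (τ + 1)) + 25 * (τ : ℝ) ^ (3 / 4 : ℝ) + Real.log (mu Ω) + m ≤
      τ * (m * ep / 4)) {X : ℝ} (hX : m * ep * (n * τ) / 2 ≤ (m / s) * X) :
    (((SawSet Ω (n * τ)).filter (fun ξ => X ≤ exc L s τ n ξ)).card : ℝ) ≤
      mu Ω ^ (n * τ) * Real.exp (-(m * ep / 4) * (n * τ)) := by
  have hmu : 0 < mu Ω := Real.exp_pos _
  have h1 := tv L hs.le (div_nonneg hm hs.le) (force L hs hm H) τ n X
  refine h1.trans ?_
  have e1 : (2 * ((τ:ℝ) + 1) * Real.exp (25 * (τ : ℝ) ^ (3 / 4 : ℝ)) * mu Ω ^ (τ + 1) *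
      Real.exp (m / s * s)) = mu Ω ^ τ * Real.exp (Real.log (2 * (τ + 1)) +
        25 * (τ : ℝ) ^ (3 / 4 : ℝ) + Real.log (mu Ω) + m) := by
    rw [Real.exp_add, Real.exp_add, Real.exp_add, Real.exp_log (by positivity), Real.exp_log hmu,
      div_mul_cancel₀ _ hs.ne', pow_succ]
    ring
  rw [e1, mul_pow, ← pow_mul, ← Real.exp_nat_mul, mul_comm τ n]
  rw [mul_left_comm, ← Real.exp_add]
  refine mul_le_mul_of_nonneg_left (Real.exp_le_exp.mpr ?_) (by positivity)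
  have h2 := mul_le_mul_of_nonneg_left hy (Nat.cast_nonneg (α := ℝ) n)
  nlinarith

open scoped Classical in
theorem tJ_X4 (L : Lev Ω) (N m r w : ℕ) (hr : 1 ≤ r) (hw : w = 2 ^ 120 * r ^ 3) :
    (((SawSet Ω N).filter (fun ξ => 4 * (w : ℤ) * m < lev L ξ N ∧ ∃ J : Finset ℕ, J ⊆ range m ∧
      m ≤ 40 * J.card ∧ ∀ i ∈ J, NC (lev L ξ) N r w i)).card : ℝ) * Real.exp (m / 5) ≤
        (cc Ω N : ℝ) := by
  obtain ⟨k, hk⟩ : ∃ k, k = (m + 39) / 40 := ⟨_, rfl⟩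
  have hrw : r ≤ w := by
    rw [hw]
    calc r ≤ r ^ 3 := Nat.le_self_pow (by norm_num) r
      _ ≤ 2 ^ 120 * r ^ 3 := Nat.le_mul_of_pos_left _ (by positivity)
  have h1 := step2_union L N m r w k hrw
  set S1 := (SawSet Ω N).filter (fun ξ => 4 * (w : ℤ) * m < lev L ξ N ∧ ∃ J : Finset ℕ,
    J ⊆ range m ∧ m ≤ 40 * J.card ∧ ∀ i ∈ J, NC (lev L ξ) N r w i) with hS1
  have h2 : S1.card ≤ ((SawSet Ω N).filter (fun ξ => 4 * (w : ℤ) * m < lev L ξ N ∧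
      k ≤ ((range m).filter (fun i => NC (lev L ξ) N r w i)).card)).card := by
    refine Finset.card_le_card (fun ξ hξ => ?_)
    rw [hS1, Finset.mem_filter] at hξ
    obtain ⟨a1, a2, J, a3, a4, a5⟩ := hξ
    rw [Finset.mem_filter]
    refine ⟨a1, a2, ?_⟩
    have : J ⊆ (range m).filter (fun i => NC (lev L ξ) N r w i) := fun i hi =>
      Finset.mem_filter.mpr ⟨a3 hi, a5 i hi⟩
    have := Finset.card_le_card this
    omega
  have h3 : S1.card * w ^ k ≤ 2 ^ m * r ^ (3 * k) * cc Ω N :=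
    (Nat.mul_le_mul_right _ h2).trans h1
  have h4 : S1.card * 2 ^ (120 * k) ≤ 2 ^ m * cc Ω N := by
    have e1 : w ^ k = 2 ^ (120 * k) * r ^ (3 * k) := by
      rw [hw, mul_pow, ← pow_mul, ← pow_mul]
    rw [e1] at h3
    have hpos : 0 < r ^ (3 * k) := by positivity
    refine Nat.le_of_mul_le_mul_right ?_ hpos
    calc S1.card * 2 ^ (120 * k) * r ^ (3 * k) = S1.card * (2 ^ (120 * k) * r ^ (3 * k)) := by ring
      _ ≤ 2 ^ m * r ^ (3 * k) * cc Ω N := h3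
      _ = 2 ^ m * cc Ω N * r ^ (3 * k) := by ring
  have h5 : S1.card * 2 ^ m ≤ cc Ω N := by
    have e2 : 2 ^ (m + m) ≤ 2 ^ (120 * k) := Nat.pow_le_pow_right (by norm_num) (by omega)
    have h6 : S1.card * 2 ^ m * 2 ^ m ≤ cc Ω N * 2 ^ m := by
      calc S1.card * 2 ^ m * 2 ^ m = S1.card * 2 ^ (m + m) := by rw [pow_add]; ring
        _ ≤ S1.card * 2 ^ (120 * k) := Nat.mul_le_mul_left _ e2
        _ ≤ 2 ^ m * cc Ω N := h4
        _ = cc Ω N * 2 ^ m := mul_comm _ _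
    exact Nat.le_of_mul_le_mul_right h6 (by positivity)
  have h7 : (S1.card : ℝ) * 2 ^ m ≤ cc Ω N := by exact_mod_cast h5
  refine le_trans (mul_le_mul_of_nonneg_left ?_ (Nat.cast_nonneg _)) h7
  calc Real.exp ((m:ℝ) / 5) ≤ Real.exp ((m:ℝ) * Real.log 2) := by
        refine Real.exp_le_exp.mpr ?_
        have := Real.log_two_gt_d9
        have hm : (0:ℝ) ≤ m := Nat.cast_nonneg _
        nlinarith
    _ = 2 ^ m := by rw [Real.exp_nat_mul, Real.exp_log (by norm_num)]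

theorem tJ_count (m j : ℕ) :
    (((range m).powerset.filter (fun J => J.card ≤ j)).card : ℝ) ≤
      (1000:ℝ) ^ j * (1 + 1 / 1000) ^ m := by
  have h1 : ((1:ℝ) / 1000 + 1) ^ m = ∑ J ∈ (range m).powerset, ((1:ℝ) / 1000) ^ J.card := by
    have := Finset.sum_pow_mul_eq_add_pow ((1:ℝ) / 1000) 1 (range m)
    simp only [one_pow, mul_one, Finset.card_range] at this
    exact this.symm
  have h2 : (((range m).powerset.filter (fun J => J.card ≤ j)).card : ℝ) * ((1:ℝ) / 1000) ^ j ≤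
      ((1:ℝ) / 1000 + 1) ^ m := by
    rw [h1, ← nsmul_eq_mul, ← Finset.sum_const]
    refine le_trans (Finset.sum_le_sum (fun J hJ => ?_)) (Finset.sum_le_sum_of_subset_of_nonneg
      (Finset.filter_subset _ _) (fun _ _ _ => by positivity))
    rw [Finset.mem_filter] at hJ
    exact pow_le_pow_of_le_one (by norm_num) (by norm_num) hJ.2
  have h3 : (1000:ℝ) ^ j * ((1:ℝ) / 1000) ^ j = 1 := by
    rw [← mul_pow]; norm_num
  calc (((range m).powerset.filter (fun J => J.card ≤ j)).card : ℝ)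
      = (1000:ℝ) ^ j * ((((range m).powerset.filter (fun J => J.card ≤ j)).card : ℝ) *
        ((1:ℝ) / 1000) ^ j) := by
          rw [mul_left_comm, h3, mul_one]
    _ ≤ (1000:ℝ) ^ j * ((1:ℝ) / 1000 + 1) ^ m := mul_le_mul_of_nonneg_left h2 (by positivity)
    _ = _ := by rw [add_comm]

open scoped Classical in
theorem tJ_X5 (Fr : Frame Ω) (N m w : ℕ) (hw : 1 ≤ w) :
    (((SawSet Ω N).filter (fun ξ => 2 * m ≤ 5 * (Good (lev Fr.B ξ) N w m).card ∧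
      ∃ J : Finset ℕ, (∀ k, k ∈ J ↔ k ∈ Good (lev Fr.B ξ) N w m ∧ dB' Fr N w ξ k ≤ 0) ∧
        1000 * J.card ≤ m)).card : ℝ) * Real.exp (m / 5) ≤ (cc Ω N : ℝ) := by
  obtain ⟨g, hg⟩ : ∃ g, g = (2 * m + 4) / 5 := ⟨_, rfl⟩
  obtain ⟨j, hj⟩ : ∃ j, j = m / 1000 := ⟨_, rfl⟩
  have h1 := flip Fr N m w j g hw
  set S1 := (SawSet Ω N).filter (fun ξ => 2 * m ≤ 5 * (Good (lev Fr.B ξ) N w m).card ∧
      ∃ J : Finset ℕ, (∀ k, k ∈ J ↔ k ∈ Good (lev Fr.B ξ) N w m ∧ dB' Fr N w ξ k ≤ 0) ∧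
        1000 * J.card ≤ m) with hS1
  have h2 : S1.card ≤ ((SawSet Ω N).filter (fun ξ => g ≤ (Good (lev Fr.B ξ) N w m).card ∧
      ((Good (lev Fr.B ξ) N w m).filter (fun k => dB' Fr N w ξ k ≤ 0)).card ≤ j)).card := by
    refine Finset.card_le_card (fun ξ hξ => ?_)
    rw [hS1, Finset.mem_filter] at hξ
    obtain ⟨a1, a2, J, a3, a4⟩ := hξ
    rw [Finset.mem_filter]
    have e1 : (Good (lev Fr.B ξ) N w m).filter (fun k => dB' Fr N w ξ k ≤ 0) = J := by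
      ext k; rw [Finset.mem_filter, a3 k]
    refine ⟨a1, by omega, ?_⟩
    rw [e1]; omega
  have h3 : S1.card * 2 ^ (g - j) ≤
      cc Ω N * ((range m).powerset.filter (fun J => J.card ≤ j)).card :=
    (Nat.mul_le_mul_right _ h2).trans h1
  have h4 : (S1.card : ℝ) * 2 ^ (g - j) ≤ cc Ω N * ((1000:ℝ) ^ j * (1 + 1 / 1000) ^ m) := by
    have h5 : (S1.card : ℝ) * 2 ^ (g - j) ≤
      cc Ω N * (((range m).powerset.filter (fun J => J.card ≤ j)).card : ℝ) := by exact_mod_cast h3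
    exact h5.trans (mul_le_mul_of_nonneg_left (tJ_count m j) (Nat.cast_nonneg _))
  have hm : (0:ℝ) ≤ m := Nat.cast_nonneg _
  have h6 : (1000:ℝ) ^ j * (1 + 1 / 1000) ^ m * Real.exp (m / 5) ≤ 2 ^ (g - j) := by
    have hl2 := Real.log_two_gt_d9
    have hl2' := Real.log_two_lt_d9
    have hl1000 : Real.log 1000 ≤ 7 := by
      have h10 : Real.log 1000 ≤ Real.log (2 ^ 10) := Real.log_le_log (by norm_num) (by norm_num)
      rw [Real.log_pow] at h10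
      push_cast at h10
      linarith
    have hl1 : Real.log (1 + 1 / 1000) ≤ 1 / 1000 := by
      have := Real.log_le_sub_one_of_pos (show (0:ℝ) < 1 + 1 / 1000 by norm_num)
      linarith
    have hjr : (j:ℝ) ≤ m / 1000 := by
      rw [le_div_iff₀ (by norm_num)]
      have : j * 1000 ≤ m := by omega
      exact_mod_cast this
    have hgr : (2 * m / 5 - m / 1000 : ℝ) ≤ ((g - j : ℕ) : ℝ) := by
      have h7 : j ≤ g := by omega
      rw [Nat.cast_sub h7]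
      have h8 : (2 * m : ℝ) ≤ 5 * g := by
        have : 2 * m ≤ 5 * g := by omega
        exact_mod_cast this
      linarith
    have hj0 : (0:ℝ) ≤ j := Nat.cast_nonneg _
    have e1 : (1000:ℝ) ^ j = Real.exp (j * Real.log 1000) := by
      rw [Real.exp_nat_mul, Real.exp_log (by norm_num)]
    have e2 : (1 + 1 / 1000 : ℝ) ^ m = Real.exp (m * Real.log (1 + 1 / 1000)) := by
      rw [Real.exp_nat_mul, Real.exp_log (by norm_num)]
    have e3 : (2:ℝ) ^ (g - j) = Real.exp ((g - j : ℕ) * Real.log 2) := by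
      rw [Real.exp_nat_mul, Real.exp_log (by norm_num)]
    rw [e1, e2, e3, ← Real.exp_add, ← Real.exp_add]
    refine Real.exp_le_exp.mpr ?_
    have a1 : (j:ℝ) * Real.log 1000 ≤ m / 1000 * 7 := by
      calc (j:ℝ) * Real.log 1000 ≤ j * 7 := mul_le_mul_of_nonneg_left hl1000 hj0
        _ ≤ m / 1000 * 7 := mul_le_mul_of_nonneg_right hjr (by norm_num)
    have a2 : (m:ℝ) * Real.log (1 + 1 / 1000) ≤ m * (1 / 1000) :=
      mul_le_mul_of_nonneg_left hl1 hm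
    have a3 : (2 * m / 5 - m / 1000 : ℝ) * 0.69 ≤ ((g - j : ℕ) : ℝ) * Real.log 2 := by
      have b1 : (0:ℝ) ≤ 2 * m / 5 - m / 1000 := by linarith
      calc (2 * m / 5 - m / 1000 : ℝ) * 0.69 ≤ (2 * m / 5 - m / 1000 : ℝ) * Real.log 2 :=
            mul_le_mul_of_nonneg_left (by linarith) b1
        _ ≤ _ := mul_le_mul_of_nonneg_right hgr (by linarith)
    linarith
  have h7 : (S1.card : ℝ) * ((1000:ℝ) ^ j * (1 + 1 / 1000) ^ m) * Real.exp (m / 5) ≤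
      (S1.card : ℝ) * 2 ^ (g - j) := by
    rw [mul_assoc]
    exact mul_le_mul_of_nonneg_left h6 (Nat.cast_nonneg _)
  have h8 := h7.trans h4
  have hpos : (0:ℝ) < (1000:ℝ) ^ j * (1 + 1 / 1000) ^ m := by positivity
  refine le_of_mul_le_mul_right ?_ hpos
  calc (S1.card : ℝ) * Real.exp (m / 5) * ((1000:ℝ) ^ j * (1 + 1 / 1000) ^ m)
      = (S1.card : ℝ) * ((1000:ℝ) ^ j * (1 + 1 / 1000) ^ m) * Real.exp (m / 5) := by ring
    _ ≤ _ := h8


theorem tJ_E (L : Lev Ω) {v φ : ℝ} {N₀ : ℕ} {h₀ : ℤ} (hh : v * N₀ ≤ h₀)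
    (hb : mu Ω ^ N₀ * Real.exp (-φ * N₀) ≤ (br L N₀ h₀ : ℝ)) (k N : ℕ) (hN : N = k * N₀) :
    mu Ω ^ N * Real.exp (-φ * N) ≤
      (((SawSet Ω N).filter (fun ξ => v * N ≤ (lev L ξ N : ℝ))).card : ℝ) := by
  classical
  have hmu : 0 < mu Ω := Real.exp_pos _
  have h1 : (mu Ω ^ N₀ * Real.exp (-φ * N₀)) ^ k ≤ (br L N₀ h₀ : ℝ) ^ k :=
    pow_le_pow_left₀ (by positivity) hb k
  have h2 : ((br L N₀ h₀ : ℝ)) ^ k ≤ (br L N (k * h₀) : ℝ) := by
    have := br_pow L N₀ k h₀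
    rw [← hN] at this
    exact_mod_cast this
  have h3 : mu Ω ^ N * Real.exp (-φ * N) = (mu Ω ^ N₀ * Real.exp (-φ * N₀)) ^ k := by
    rw [mul_pow, ← pow_mul, ← Real.exp_nat_mul, hN, mul_comm N₀ k]
    congr 1
    push_cast
    ring_nf
  have h4 : br L N (k * h₀) ≤ ((SawSet Ω N).filter (fun ξ => v * N ≤ (lev L ξ N : ℝ))).card := by
    unfold br
    refine Finset.card_le_card (fun ξ hξ => ?_)
    rw [Finset.mem_filter] at hξ ⊢
    refine ⟨hξ.1, ?_⟩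
    have h5 : ((k * h₀ : ℤ) : ℝ) ≤ (lev L ξ N : ℝ) := by exact_mod_cast hξ.2.2
    refine le_trans ?_ h5
    rw [hN]
    push_cast
    have := mul_le_mul_of_nonneg_left hh (Nat.cast_nonneg (α := ℝ) k)
    linarith
  rw [h3]
  refine h1.trans (h2.trans ?_)
  exact_mod_cast h4

theorem key (Fr : Frame Ω) : ∃ φ₀ : ℝ, 0 < φ₀ ∧ ∀ φ v : ℝ, 0 < φ → φ < φ₀ →
    φ ^ (1 / 5 : ℝ) ≤ v → v ≤ 1 →
    (∃ N₀ : ℕ, 1 ≤ N₀ ∧ ∃ h₀ : ℤ, v * N₀ ≤ h₀ ∧
      mu Ω ^ N₀ * Real.exp (-φ * N₀) ≤ (br Fr.A N₀ h₀ : ℝ)) →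
    (∀ (T : ℕ) (h : ℤ), lam * v * T ≤ h →
      (br Fr.A T h : ℝ) ≤ mu Ω ^ T * Real.exp (-(φ ^ (1 / 20 : ℝ)) * T)) →
    (∀ (T : ℕ) (h : ℤ), 1.45 * v * T ≤ Fr.κ * h →
      (br Fr.B T h : ℝ) ≤ mu Ω ^ T * Real.exp (-(φ ^ (1 / 20 : ℝ)) * T)) → False := by
  classical
  obtain ⟨φ₀, hφ₀, hsmall⟩ := tJ_small (mu Ω) (one_le_mu Fr.A)
  refine ⟨φ₀, hφ₀, ?_⟩
  intro φ v h0 h1 hv hv1 hE HA HB
  obtain ⟨τ, hτ, hy, hwv, h12, hm1⟩ := hsmall φ v h0 h1 hv
  obtain ⟨N₀, hN₀, h₀, hh, hb⟩ := hE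
  have hmu : 0 < mu Ω := Real.exp_pos _
  have hmu1 : 1 ≤ mu Ω := one_le_mu Fr.A
  have hv0 : 0 < v := lt_of_lt_of_le (Real.rpow_pos_of_pos h0 _) hv
  obtain ⟨x, hx⟩ : ∃ x : ℝ, x = φ ^ (1 / 20 : ℝ) := ⟨_, rfl⟩
  rw [← hx] at hy h12 hm1 HA HB
  have hx0 : 0 < x := by rw [hx]; exact Real.rpow_pos_of_pos h0 _
  have hep : (0:ℝ) < ep := by unfold ep; norm_num
  obtain ⟨r, hr⟩ : ∃ r : ℕ, r = 8 * τ := ⟨_, rfl⟩
  obtain ⟨w, hw⟩ : ∃ w : ℕ, w = 2 ^ 120 * r ^ 3 := ⟨_, rfl⟩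
  have hr1 : 1 ≤ r := by omega
  have hw1 : 1 ≤ w := by rw [hw]; exact Nat.one_le_iff_ne_zero.mpr (by positivity)
  have hrw : 8 * τ ≤ w := by
    rw [← hr, hw]
    calc r ≤ r ^ 3 := Nat.le_self_pow (by norm_num) r
      _ ≤ 2 ^ 120 * r ^ 3 := Nat.le_mul_of_pos_left _ (by positivity)
  have hwr : (0:ℝ) < w := by exact_mod_cast hw1
  have hwR : 260 * φ * w ≤ v := by
    have : (w:ℝ) = 2 ^ 120 * (8 * (τ : ℝ)) ^ 3 := by rw [hw, hr]; push_cast; ring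
    rw [this]; exact hwv
  -- the choice of `l`
  set C : ℝ := 2 * mu Ω * Real.exp 1 with hC
  have hC0 : 0 < C := by positivity
  obtain ⟨l, hl1, hl2, hl3, hl4⟩ : ∃ l : ℕ, 1 ≤ l ∧ (42 / φ) ^ 4 ≤ (l:ℝ) ∧ (3 + C) / φ ≤ (l:ℝ) ∧
      1000000 * (20 * w) / v ≤ (l:ℝ) := by
    refine ⟨max 1 (max ⌈(42 / φ) ^ 4⌉₊ (max ⌈(3 + C) / φ⌉₊ ⌈1000000 * (20 * (w:ℝ)) / v⌉₊)),
      le_max_left _ _, ?_, ?_, ?_⟩
    · refine (Nat.le_ceil _).trans ?_
      exact_mod_cast (le_max_left _ _).trans (le_max_right _ _)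
    · refine (Nat.le_ceil _).trans ?_
      exact_mod_cast (le_max_left _ _).trans ((le_max_right _ _).trans (le_max_right _ _))
    · refine (Nat.le_ceil _).trans ?_
      exact_mod_cast (le_max_right _ _).trans ((le_max_right _ _).trans (le_max_right _ _))
  obtain ⟨n, hn⟩ : ∃ n : ℕ, n = l * N₀ := ⟨_, rfl⟩
  obtain ⟨N, hN⟩ : ∃ N : ℕ, N = n * τ := ⟨_, rfl⟩
  have hlN : (l:ℝ) ≤ N := by
    have : l ≤ N := by
      rw [hN, hn, mul_assoc]
      exact Nat.le_mul_of_pos_right _ (Nat.mul_pos hN₀ hτ)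
    exact_mod_cast this
  have hNpos : (0:ℝ) < N := lt_of_lt_of_le (by exact_mod_cast hl1) hlN
  -- number of windows
  obtain ⟨m, hm⟩ : ∃ m : ℕ, m = ⌊v * N / (20 * w)⌋₊ := ⟨_, rfl⟩
  have hm_le : (m : ℝ) * (20 * w) ≤ v * N := by
    rw [← le_div_iff₀ (by positivity), hm]
    exact Nat.floor_le (by positivity)
  have hm_lt : v * N < ((m : ℝ) + 1) * (20 * w) := by
    rw [← div_lt_iff₀ (by positivity), hm]
    exact Nat.lt_floor_add_one _
  have hmbig : 1000000 ≤ m := by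
    rw [hm]
    refine Nat.le_floor ?_
    rw [le_div_iff₀ (by positivity)]
    have h5 := hl4.trans hlN
    rw [div_le_iff₀ hv0] at h5
    push_cast
    linarith
  have hm13 : 13 * φ * N - 1 ≤ m := by
    have h6 : 13 * φ * N * (20 * w) ≤ v * N := by
      have := mul_le_mul_of_nonneg_right hwR hNpos.le
      linarith
    have h7 : 13 * φ * N * (20 * w) < ((m : ℝ) + 1) * (20 * w) := lt_of_le_of_lt h6 hm_lt
    have h8 := lt_of_mul_lt_mul_right h7 (by positivity)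
    linarith
  -- the five sets
  set E := (SawSet Ω N).filter (fun ξ => v * N ≤ (lev Fr.A ξ N : ℝ)) with hEdef
  have hEcard : mu Ω ^ N * Real.exp (-φ * N) ≤ (E.card : ℝ) :=
    tJ_E Fr.A hh hb (l * τ) N (by rw [hN, hn]; ring)
  set X1 := (SawSet Ω N).filter (fun ξ => ep * v * N ≤ exc Fr.A (lam * v) τ n ξ) with hX1
  set X2 := (SawSet Ω N).filter (fun ξ => ep * v * N / Fr.κ ≤ exc Fr.B (1.45 * v / Fr.κ) τ n ξ)
    with hX2
  set X3 := (SawSet Ω N).filter (fun ξ => ep * v * N / Fr.κ ≤ exc Fr.B' (1.45 * v / Fr.κ) τ n ξ)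
    with hX3
  set X4 := (SawSet Ω N).filter (fun ξ => 4 * (w : ℤ) * m < lev Fr.B ξ N ∧
    ∃ J : Finset ℕ, J ⊆ range m ∧ m ≤ 40 * J.card ∧ ∀ i ∈ J, NC (lev Fr.B ξ) N r w i) with hX4
  set X5 := (SawSet Ω N).filter (fun ξ => 2 * m ≤ 5 * (Good (lev Fr.B ξ) N w m).card ∧
      ∃ J : Finset ℕ, (∀ k, k ∈ J ↔ k ∈ Good (lev Fr.B ξ) N w m ∧ dB' Fr N w ξ k ≤ 0) ∧
        1000 * J.card ≤ m) with hX5
  have hsub : E ⊆ X1 ∪ (X2 ∪ (X3 ∪ (X4 ∪ X5))) := by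
    intro ξ hξ
    rw [hEdef, Finset.mem_filter] at hξ
    have hsaw : IsSaw Ω N ξ := mem_SawSet.mp hξ.1
    have hcov := covering Fr hN hτ hrw hv0 hm_le hm_lt hmbig hsaw hξ.2
    simp only [Finset.mem_union, hX1, hX2, hX3, hX4, hX5, Finset.mem_filter]
    rw [hr]
    rcases hcov with h | h | h | h | h
    · exact Or.inl ⟨hξ.1, h⟩
    · exact Or.inr (Or.inl ⟨hξ.1, h⟩)
    · exact Or.inr (Or.inr (Or.inl ⟨hξ.1, h⟩))
    · exact Or.inr (Or.inr (Or.inr (Or.inl ⟨hξ.1, h⟩)))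
    · exact Or.inr (Or.inr (Or.inr (Or.inr ⟨hξ.1, h⟩)))
  have hcard : E.card ≤ X1.card + (X2.card + (X3.card + (X4.card + X5.card))) := by
    refine (Finset.card_le_card hsub).trans ?_
    refine (Finset.card_union_le _ _).trans (Nat.add_le_add_left ?_ _)
    refine (Finset.card_union_le _ _).trans (Nat.add_le_add_left ?_ _)
    refine (Finset.card_union_le _ _).trans (Nat.add_le_add_left ?_ _)
    exact Finset.card_union_le _ _
  have hcardR : (E.card : ℝ) ≤ X1.card + (X2.card + (X3.card + (X4.card + X5.card))) := by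
    exact_mod_cast hcard
  have hNR : (N:ℝ) = n * τ := by rw [hN]; push_cast; ring
  have hlam : lam ≤ 2 ∧ 0 < lam := by unfold lam; constructor <;> norm_num
  -- bound for `X1`
  have b1 : (X1.card : ℝ) ≤ mu Ω ^ N * Real.exp (-(x * ep / 4) * N) := by
    have := tJ_tv Fr.A (s := lam * v) (m := x) (mul_pos hlam.2 hv0) hx0.le
      (fun T h hT => HA T h hT) (τ := τ) (n := n) hy (X := ep * v * N) (by
        rw [← hNR, div_mul_eq_mul_div, le_div_iff₀ (mul_pos hlam.2 hv0)]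
        have : 0 ≤ x * ep * N * v := by positivity
        nlinarith [hlam.1])
    rw [← hN] at this
    rw [hNR]
    exact this
  have hκ : (1:ℝ) ≤ Fr.κ := by
    rcases Fr.hκ with h | h <;> rw [h] <;> norm_num
  have hκ0 : (0:ℝ) < Fr.κ := by linarith
  have hs2 : 0 < 1.45 * v / (Fr.κ : ℝ) := by positivity
  have hX23 : x * ep * (n * τ) / 2 ≤ x / (1.45 * v / Fr.κ) * (ep * v * N / Fr.κ) := by
    rw [← hNR]
    have e1 : x / (1.45 * v / Fr.κ) * (ep * v * N / Fr.κ) = x * ep * N / 1.45 := by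
      field_simp
    rw [e1]
    have : 0 ≤ x * ep * N := by positivity
    rw [div_le_div_iff₀ (by norm_num) (by norm_num)]
    nlinarith
  have hBs : ∀ (T : ℕ) (h : ℤ), 1.45 * v / (Fr.κ : ℝ) * T ≤ h →
      (br Fr.B T h : ℝ) ≤ mu Ω ^ T * Real.exp (-x * T) := by
    intro T h hT
    refine HB T h ?_
    have h9 := mul_le_mul_of_nonneg_left hT hκ0.le
    have e2 : (Fr.κ : ℝ) * (1.45 * v / (Fr.κ : ℝ) * T) = 1.45 * v * T := by field_simp
    linarith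
  have b2 : (X2.card : ℝ) ≤ mu Ω ^ N * Real.exp (-(x * ep / 4) * N) := by
    have := tJ_tv Fr.B (s := 1.45 * v / Fr.κ) (m := x) hs2 hx0.le hBs (τ := τ) (n := n) hy
      (X := ep * v * N / Fr.κ) hX23
    rw [← hN] at this
    rw [hNR]
    exact this
  have b3 : (X3.card : ℝ) ≤ mu Ω ^ N * Real.exp (-(x * ep / 4) * N) := by
    have := tJ_tv Fr.B' (s := 1.45 * v / Fr.κ) (m := x) hs2 hx0.le
      (fun T h hT => by rw [br_symm]; exact hBs T h hT) (τ := τ) (n := n) hy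
      (X := ep * v * N / Fr.κ) hX23
    rw [← hN] at this
    rw [hNR]
    exact this
  have b4 : (X4.card : ℝ) * Real.exp (m / 5) ≤ (cc Ω N : ℝ) := tJ_X4 Fr.B N m r w hr1 hw
  have b5 : (X5.card : ℝ) * Real.exp (m / 5) ≤ (cc Ω N : ℝ) := tJ_X5 Fr N m w hw1
  have hcc := cc_le Fr.A N
  -- conclusion
  have hφN : (3 + C) ≤ φ * N := by
    have h5 := hl3.trans hlN
    rw [div_le_iff₀ h0] at h5
    linarith
  have hN34 : 25 * (N : ℝ) ^ (3 / 4 : ℝ) ≤ 0.6 * φ * N := by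
    have h5 := hl2.trans hlN
    have h6 : 42 / φ ≤ (N : ℝ) ^ (1 / 4 : ℝ) := by
      have : ((42 / φ) ^ 4) ^ (1 / 4 : ℝ) ≤ (N : ℝ) ^ (1 / 4 : ℝ) :=
        Real.rpow_le_rpow (by positivity) h5 (by norm_num)
      have e3 : ((42 / φ) ^ 4) ^ (1 / 4 : ℝ) = 42 / φ := by
        rw [← Real.rpow_natCast, ← Real.rpow_mul (by positivity)]; norm_num
      rwa [e3] at this
    rw [div_le_iff₀ h0] at h6
    have e4 : (N:ℝ) = (N : ℝ) ^ (1 / 4 : ℝ) * (N : ℝ) ^ (3 / 4 : ℝ) := by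
      rw [← Real.rpow_add hNpos]; norm_num
    have h7 : 0 ≤ (N : ℝ) ^ (3 / 4 : ℝ) := by positivity
    have h8 : 0.6 * φ * N = 0.6 * (φ * (N : ℝ) ^ (1 / 4 : ℝ)) * (N : ℝ) ^ (3 / 4 : ℝ) := by
      conv_lhs => rw [e4]
      ring
    rw [h8]
    nlinarith
  have b45 : ∀ X : ℝ, X * Real.exp (m / 5) ≤ (cc Ω N : ℝ) →
      X ≤ mu Ω ^ N * (mu Ω * Real.exp 1 * Real.exp (-(2 * φ) * N)) := by
    intro X hX
    have hexp : 0 < Real.exp ((m:ℝ) / 5) := Real.exp_pos _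
    have h5 : X ≤ (cc Ω N : ℝ) * Real.exp (-(m / 5)) := by
      rw [Real.exp_neg, ← div_eq_mul_inv, le_div_iff₀ hexp]
      exact hX
    refine h5.trans ?_
    have h6 : (cc Ω N : ℝ) * Real.exp (-(m / 5)) ≤
        (Real.exp (25 * (N : ℝ) ^ (3 / 4 : ℝ)) * mu Ω ^ (N + 1)) * Real.exp (-(m / 5)) :=
      mul_le_mul_of_nonneg_right hcc (Real.exp_pos _).le
    refine h6.trans ?_
    have e5 : (Real.exp (25 * (N : ℝ) ^ (3 / 4 : ℝ)) * mu Ω ^ (N + 1)) * Real.exp (-(m / 5)) =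
        mu Ω ^ N * (mu Ω * Real.exp (25 * (N : ℝ) ^ (3 / 4 : ℝ) + -(m / 5))) := by
      rw [Real.exp_add, pow_succ]; ring
    rw [e5]
    refine mul_le_mul_of_nonneg_left ?_ (by positivity)
    rw [mul_assoc, ← Real.exp_add]
    refine mul_le_mul_of_nonneg_left (Real.exp_le_exp.mpr ?_) hmu.le
    have : (0:ℝ) ≤ φ * N := by positivity
    linarith
  have c4 := b45 _ b4
  have c5 := b45 _ b5
  have b0 : Real.exp (-(x * ep / 4) * N) ≤ Real.exp (-(2 * φ) * N) := by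
    refine Real.exp_le_exp.mpr ?_
    refine mul_le_mul_of_nonneg_right ?_ hNpos.le
    linarith
  have hmuN : 0 < mu Ω ^ N := by positivity
  have c1 : (E.card : ℝ) ≤ mu Ω ^ N * ((3 + C) * Real.exp (-(2 * φ) * N)) := by
    have d1 := mul_le_mul_of_nonneg_left b0 hmuN.le
    calc (E.card : ℝ) ≤ X1.card + (X2.card + (X3.card + (X4.card + X5.card))) := hcardR
      _ ≤ mu Ω ^ N * Real.exp (-(2 * φ) * N) + (mu Ω ^ N * Real.exp (-(2 * φ) * N) +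
          (mu Ω ^ N * Real.exp (-(2 * φ) * N) +
          (mu Ω ^ N * (mu Ω * Real.exp 1 * Real.exp (-(2 * φ) * N)) +
           mu Ω ^ N * (mu Ω * Real.exp 1 * Real.exp (-(2 * φ) * N))))) := by
          linarith
      _ = mu Ω ^ N * ((3 + C) * Real.exp (-(2 * φ) * N)) := by rw [hC]; ring
  have c2 : Real.exp (-φ * N) ≤ (3 + C) * Real.exp (-(2 * φ) * N) :=
    le_of_mul_le_mul_left (hEcard.trans c1) hmuN
  have c3 : Real.exp (φ * N) ≤ 3 + C := by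
    have e6 : Real.exp (φ * N) = Real.exp (-φ * N) * Real.exp (2 * φ * N) := by
      rw [← Real.exp_add]; ring_nf
    have e7 : (3 + C) = (3 + C) * Real.exp (-(2 * φ) * N) * Real.exp (2 * φ * N) := by
      rw [mul_assoc, ← Real.exp_add, show -(2 * φ) * (N:ℝ) + 2 * φ * N = 0 by ring, Real.exp_zero,
        mul_one]
    rw [e6, e7]
    exact mul_le_mul_of_nonneg_right c2 (Real.exp_pos _).le
  have c6 := Real.add_one_le_exp (φ * N)
  linarith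

end Pool.Agent.H725R2.SB
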