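import Pool.Agent.H725R2.SB.Lattice

/-! Task N2 of the sub-ballisticity project. -/

set_option autoImplicit false

namespace Pool.Agent.H725R2.SB

open Finset

/-- the steps of `ℤ^d` are the vectors of `ℓ^1` norm one -/
theorem tN2_mem_Om {d : ℕ} (v : Fin d → ℤ) : v ∈ Om d ↔ ∑ k, |v k| = 1 := by
  constructor
  · intro h
    unfold Om at h
    rw [Finset.mem_union, Finset.mem_image, Finset.mem_image] at h
    rcases h with ⟨i, -, rfl⟩ | ⟨i, -, rfl⟩
    · rw [Finset.sum_eq_single i]
      · simp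
      · intro b _ hb
        simp [Pi.single_eq_of_ne hb]
      · simp
    · rw [Finset.sum_eq_single i]
      · simp
      · intro b _ hb
        simp [Pi.single_eq_of_ne hb]
      · simp
  · intro h
    have h1 : ∃ i, v i ≠ 0 := by
      by_contra hcon
      push Not at hcon
      simp [hcon] at h
    obtain ⟨i, hi⟩ := h1
    have h2 : |v i| + ∑ k ∈ Finset.univ.erase i, |v k| = 1 := by
      rw [← h]
      exact Finset.add_sum_erase _ (fun k => |v k|) (Finset.mem_univ i)
    have h3 : 1 ≤ |v i| := Int.one_le_abs hi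
    have h4 : 0 ≤ ∑ k ∈ Finset.univ.erase i, |v k| := Finset.sum_nonneg (fun _ _ => abs_nonneg _)
    have h5 : ∑ k ∈ Finset.univ.erase i, |v k| = 0 := by omega
    have h6 : ∀ k, k ≠ i → v k = 0 := by
      intro k hk
      have := (Finset.sum_eq_zero_iff_of_nonneg (fun _ _ => abs_nonneg _)).1 h5 k
        (Finset.mem_erase.2 ⟨hk, Finset.mem_univ _⟩)
      exact abs_eq_zero.1 this
    have h7 : |v i| = 1 := by omega
    have h8 : ∀ c : ℤ, v i = c → v = Pi.single i c := by
      intro c hc
      funext k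
      by_cases hk : k = i
      · subst hk
        simp [hc]
      · rw [h6 k hk, Pi.single_eq_of_ne hk]
    unfold Om
    rw [Finset.mem_union, Finset.mem_image, Finset.mem_image]
    rcases abs_eq (by norm_num : (0 : ℤ) ≤ 1) |>.1 h7 with h9 | h9
    · exact Or.inl ⟨i, Finset.mem_univ _, (h8 _ h9).symm⟩
    · exact Or.inr ⟨i, Finset.mem_univ _, (h8 _ h9).symm⟩

/-- step sequence of a walk -/
def tN2_st {V : Type*} [AddCommGroup V] (N : ℕ) (w : Fin (N + 1) → V) : ℕ → V :=
  fun i => if h : i < N then w ⟨i + 1, by omega⟩ - w ⟨i, by omega⟩ else 0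

theorem tN2_P_st {V : Type*} [AddCommGroup V] (N : ℕ) (w : Fin (N + 1) → V) (i : ℕ) (hi : i ≤ N) :
    P (tN2_st N w) i = w ⟨i, by omega⟩ - w 0 := by
  induction i with
  | zero => simp
  | succ n ih =>
    rw [P_succ, ih (by omega)]
    unfold tN2_st
    rw [dif_pos (by omega : n < N)]
    abel

/-- step sequences and walks: the step sequence of a self-avoiding walk is in `SawSet` -/
theorem tN2_st_mem {d N : ℕ} {w : Fin (N + 1) → (Fin d → ℤ)} (hw : IsSAW d N w) :
    tN2_st N w ∈ SawSet (Om d) N := by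
  rw [mem_SawSet]
  refine ⟨fun i hi => ?_, fun i hi => ?_, ?_⟩
  · unfold tN2_st
    rw [dif_pos hi, tN2_mem_Om]
    exact hw.2.1 ⟨i, hi⟩
  · unfold tN2_st
    rw [dif_neg (by omega)]
  · intro i j hij hj heq
    rw [tN2_P_st N w i (by omega), tN2_P_st N w j hj] at heq
    have h1 := hw.2.2 (sub_left_injective heq)
    have h2 := congrArg Fin.val h1
    simp only at h2
    omega

/-- positions of the step sequence of a self-avoiding walk -/
theorem tN2_P_st_saw {d N : ℕ} {w : Fin (N + 1) → (Fin d → ℤ)} (hw : IsSAW d N w) (i : Fin (N + 1)) :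
    P (tN2_st N w) i = w i := by
  rw [tN2_P_st N w i (by omega), hw.1, sub_zero]

theorem tN2_saw_of_mem {d N : ℕ} {ξ : ℕ → (Fin d → ℤ)} (h : ξ ∈ SawSet (Om d) N) :
    IsSAW d N (fun i : Fin (N + 1) => P ξ i) := by
  rw [mem_SawSet] at h
  refine ⟨by simp, ?_, ?_⟩
  · intro i
    have h1 := h.step i i.2
    rw [tN2_mem_Om] at h1
    rw [← h1]
    refine Finset.sum_congr rfl (fun k _ => ?_)
    congr 1
    simp [P_succ]
  · intro i j hij
    simp only at hij
    by_contra hne
    have hne' : (i : ℕ) ≠ j := fun hh => hne (Fin.ext hh)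
    rcases lt_or_gt_of_ne hne' with hlt | hlt
    · exact h.inj i j hlt (by omega) hij
    · exact h.inj j i hlt (by omega) hij.symm

/-- the bijection between walks and step sequences -/
noncomputable def tN2_equiv (d N : ℕ) :
    {w : Fin (N + 1) → (Fin d → ℤ) // IsSAW d N w} ≃ {ξ // ξ ∈ SawSet (Om d) N} where
  toFun w := ⟨tN2_st N w.1, tN2_st_mem w.2⟩
  invFun ξ := ⟨fun i => P ξ.1 i, tN2_saw_of_mem ξ.2⟩
  left_inv := by
    rintro ⟨w, hw⟩
    apply Subtype.ext
    funext i
    exact tN2_P_st_saw hw i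
  right_inv := by
    rintro ⟨ξ, hξ⟩
    apply Subtype.ext
    funext i
    simp only
    unfold tN2_st
    rw [mem_SawSet] at hξ
    by_cases hi : i < N
    · rw [dif_pos hi]
      simp [P_succ]
    · rw [dif_neg hi, hξ.zero i (by omega)]

theorem cN_eq (d N : ℕ) : cN d N = cc (Om d) N := by
  unfold cN cc
  rw [Nat.card_congr (tN2_equiv d N), Nat.card_eq_fintype_card, Fintype.card_coe]

end Pool.Agent.H725R2.SB
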