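import Pool.Agent.H725R2.SB.TA2

/-! Task K1 of the sub-ballisticity project. -/

set_option autoImplicit false

namespace Pool.Agent.H725R2.SB

open Finset

variable {V : Type*} [AddCommGroup V] {Ω : Finset V}

theorem tK1_mu_pos (Ω : Finset V) : 0 < mu Ω := Real.exp_pos _

theorem tK1_mem (L : Lev Ω) (φ : ℝ) {x : ℝ}
    (hx : x ∈ {x : ℝ | ∃ N : ℕ, 1 ≤ N ∧ ∃ h : ℕ, x = (h : ℝ) / N ∧
      mu Ω ^ N * Real.exp (-φ * N) ≤ (br L N h : ℝ)}) : 0 ≤ x ∧ x ≤ 1 := by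
  obtain ⟨N, hN, h, rfl, hb⟩ := hx
  have hN0 : (0 : ℝ) < N := by exact_mod_cast hN
  refine ⟨by positivity, ?_⟩
  rw [div_le_one hN0]
  by_contra hc
  push Not at hc
  have h1 : (N : ℤ) < (h : ℤ) := by exact_mod_cast hc
  have h2 := br_eq_zero L N h1
  rw [h2] at hb
  have h3 : 0 < mu Ω ^ N * Real.exp (-φ * N) :=
    mul_pos (pow_pos (tK1_mu_pos Ω) _) (Real.exp_pos _)
  simp only [Nat.cast_zero] at hb
  linarith

theorem tK1_bdd (L : Lev Ω) (φ : ℝ) : BddAbove {x : ℝ | ∃ N : ℕ, 1 ≤ N ∧ ∃ h : ℕ, x = (h : ℝ) / N ∧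
      mu Ω ^ N * Real.exp (-φ * N) ≤ (br L N h : ℝ)} :=
  ⟨1, fun _ hx => (tK1_mem L φ hx).2⟩

theorem vv_nonneg (L : Lev Ω) (φ : ℝ) : 0 ≤ vv L φ := by
  unfold vv
  exact Real.sSup_nonneg fun x hx => (tK1_mem L φ hx).1

theorem vv_le_one (L : Lev Ω) (φ : ℝ) : vv L φ ≤ 1 := by
  unfold vv
  exact Real.sSup_le (fun x hx => (tK1_mem L φ hx).2) zero_le_one

theorem vv_mono (L : Lev Ω) {φ ψ : ℝ} (h : φ ≤ ψ) : vv L φ ≤ vv L ψ := by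
  rcases Set.eq_empty_or_nonempty {x : ℝ | ∃ N : ℕ, 1 ≤ N ∧ ∃ h : ℕ, x = (h : ℝ) / N ∧
      mu Ω ^ N * Real.exp (-φ * N) ≤ (br L N h : ℝ)} with he | hne
  · have : vv L φ = 0 := by
      unfold vv
      rw [he, Real.sSup_empty]
    rw [this]
    exact vv_nonneg L ψ
  · unfold vv
    refine csSup_le_csSup (tK1_bdd L ψ) hne ?_
    rintro x ⟨N, hN, k, rfl, hb⟩
    refine ⟨N, hN, k, rfl, le_trans ?_ hb⟩
    refine mul_le_mul_of_nonneg_left (Real.exp_le_exp.mpr ?_) (pow_pos (tK1_mu_pos Ω) _).le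
    have : (0 : ℝ) ≤ N := Nat.cast_nonneg _
    nlinarith

theorem exists_of_lt_vv (L : Lev Ω) {φ x : ℝ} (h0 : 0 ≤ x) (h : x < vv L φ) :
    ∃ N₀ : ℕ, 1 ≤ N₀ ∧ ∃ h₀ : ℤ, x * N₀ ≤ h₀ ∧
      mu Ω ^ N₀ * Real.exp (-φ * N₀) ≤ (br L N₀ h₀ : ℝ) := by
  have hne : {x : ℝ | ∃ N : ℕ, 1 ≤ N ∧ ∃ h : ℕ, x = (h : ℝ) / N ∧
      mu Ω ^ N * Real.exp (-φ * N) ≤ (br L N h : ℝ)}.Nonempty := by
    by_contra hc
    rw [Set.not_nonempty_iff_eq_empty] at hc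
    have : vv L φ = 0 := by
      unfold vv
      rw [hc, Real.sSup_empty]
    linarith
  unfold vv at h
  obtain ⟨y, hy, hxy⟩ := exists_lt_of_lt_csSup hne h
  obtain ⟨N, hN, k, rfl, hb⟩ := hy
  refine ⟨N, hN, (k : ℤ), ?_, hb⟩
  have hN0 : (0 : ℝ) < N := by exact_mod_cast hN
  rw [lt_div_iff₀ hN0] at hxy
  push_cast
  exact hxy.le

theorem lt_of_vv_lt (L : Lev Ω) {φ : ℝ} {T : ℕ} {h : ℤ} (hT : 1 ≤ T) (hh : vv L φ * T < h) :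
    (br L T h : ℝ) < mu Ω ^ T * Real.exp (-φ * T) := by
  by_contra hc
  push Not at hc
  have hT0 : (0 : ℝ) < T := by exact_mod_cast hT
  have h1 : (0 : ℝ) < h := lt_of_le_of_lt (mul_nonneg (vv_nonneg L φ) hT0.le) hh
  have h2 : 0 ≤ h := by
    have : (0 : ℤ) < h := by exact_mod_cast h1
    exact this.le
  obtain ⟨k, rfl⟩ := Int.eq_ofNat_of_zero_le h2
  have h3 : ((k : ℝ) / T) ≤ vv L φ := by
    unfold vv
    exact le_csSup (tK1_bdd L φ) ⟨T, hT, k, rfl, hc⟩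
  rw [div_le_iff₀ hT0] at h3
  push_cast at hh
  linarith

end Pool.Agent.H725R2.SB
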