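import Pool.Agent.H725R2.SB.TJ
import Pool.Agent.H725R2.SB.TK1

/-! Task K2 of the sub-ballisticity project. -/

set_option autoImplicit false

namespace Pool.Agent.H725R2.SB

open Finset

variable {V : Type*} [AddCommGroup V] {Ω : Finset V}

theorem tK2_br_le_cge (L : Lev Ω) (N : ℕ) (h : ℤ) : br L N h ≤ cge L N h := by
  classical
  unfold br cge
  refine Finset.card_le_card ?_
  intro ξ hξ
  rw [Finset.mem_filter] at hξ ⊢
  exact ⟨hξ.1, hξ.2.2⟩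

theorem tK2_cge_A (Fr : Frame Ω) (hκ : Fr.κ = 1) (N : ℕ) (h : ℤ) :
    cge Fr.A N h ≤ 2 * cge Fr.B N h := by
  classical
  have h1 : cge Fr.A N h ≤ cge Fr.B N h + cge Fr.B' N h := by
    unfold cge
    refine le_trans (Finset.card_le_card ?_) (Finset.card_union_le _ _)
    intro ξ hξ
    rw [Finset.mem_filter] at hξ
    rw [Finset.mem_union, Finset.mem_filter, Finset.mem_filter]
    have hr := Fr.rel (P ξ N)
    rw [hκ] at hr
    have h2 := hξ.2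
    have h3 : h ≤ lev Fr.B ξ N ∨ h ≤ lev Fr.B' ξ N := by
      unfold lev at *
      by_contra hcon
      push Not at hcon
      omega
    rcases h3 with h3 | h3
    · exact Or.inl ⟨hξ.1, h3⟩
    · exact Or.inr ⟨hξ.1, h3⟩
  rw [cge_symm] at h1
  omega

theorem tK2_mu_pos : 0 < mu Ω := Real.exp_pos _

theorem tK2_ev (C c : ℝ) (hc : 0 < c) :
    ∀ᶠ M : ℕ in Filter.atTop, C + 25 * (M : ℝ) ^ (3 / 4 : ℝ) ≤ c * M := by
  have h1 : Filter.Tendsto (fun M : ℕ => (M : ℝ) ^ (1 / 4 : ℝ)) Filter.atTop Filter.atTop :=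
    (tendsto_rpow_atTop (by norm_num)).comp tendsto_natCast_atTop_atTop
  have h2 : ∀ᶠ M : ℕ in Filter.atTop, (50 / c : ℝ) ≤ (M : ℝ) ^ (1 / 4 : ℝ) :=
    h1.eventually_ge_atTop _
  have h3 : ∀ᶠ M : ℕ in Filter.atTop, (2 * C / c : ℝ) ≤ (M : ℝ) :=
    tendsto_natCast_atTop_atTop.eventually_ge_atTop _
  filter_upwards [h2, h3] with M h4 h5
  have hM : (0 : ℝ) ≤ (M : ℝ) ^ (3 / 4 : ℝ) := Real.rpow_nonneg (Nat.cast_nonneg _) _
  have h6 : (M : ℝ) ^ (3 / 4 : ℝ) * (M : ℝ) ^ (1 / 4 : ℝ) = M := by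
    rw [← Real.rpow_add_of_nonneg (Nat.cast_nonneg _) (by norm_num) (by norm_num)]
    norm_num
  have h7 : (M : ℝ) ^ (3 / 4 : ℝ) * (50 / c) ≤ M := by
    rw [← h6]
    rw [h6]
    calc (M : ℝ) ^ (3 / 4 : ℝ) * (50 / c) ≤ (M : ℝ) ^ (3 / 4 : ℝ) * (M : ℝ) ^ (1 / 4 : ℝ) :=
          mul_le_mul_of_nonneg_left h4 hM
      _ = M := h6
  have h8 : 50 * (M : ℝ) ^ (3 / 4 : ℝ) ≤ c * M := by
    have := mul_le_mul_of_nonneg_left h7 hc.le
    have e : c * ((M : ℝ) ^ (3 / 4 : ℝ) * (50 / c)) = 50 * (M : ℝ) ^ (3 / 4 : ℝ) := by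
      field_simp
    rwa [e] at this
  have h9 : 2 * C ≤ c * M := by
    have := mul_le_mul_of_nonneg_left h5 hc.le
    have e : c * (2 * C / c) = 2 * C := by field_simp
    rwa [e] at this
  linarith

theorem vv_A_le_B (Fr : Frame Ω) (hκ : Fr.κ = 1) {φ ψ : ℝ} (h0 : 0 < φ) (h : φ < ψ) :
    vv Fr.A φ ≤ vv Fr.B ψ := by
  refine Real.sSup_le ?_ (vv_nonneg _ _)
  rintro x ⟨N, hN, k, rfl, hk⟩
  have hN' : (0 : ℝ) < N := by exact_mod_cast hN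
  have hμ : 0 < mu Ω := tK2_mu_pos
  -- eventually in `l`
  have hlN : Filter.Tendsto (fun l : ℕ => l * N) Filter.atTop Filter.atTop :=
    Filter.tendsto_id.atTop_mul_const' hN
  have hev := hlN.eventually (tK2_ev (Real.log 2 + Real.log (mu Ω)) (ψ - φ) (by linarith))
  have hbd : ∀ᶠ l : ℕ in Filter.atTop, ((l * k : ℕ) : ℝ) / ((l * N + 1 : ℕ) : ℝ) ≤ vv Fr.B ψ := by
    filter_upwards [hev] with l hl
    by_contra hcon
    push Not at hcon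
    have hpos : (0 : ℝ) < ((l * N + 1 : ℕ) : ℝ) := by positivity
    have h1 : vv Fr.B ψ * ((l * N + 1 : ℕ) : ℝ) < (((l * k : ℕ) : ℤ) : ℝ) := by
      have := (lt_div_iff₀ hpos).mp hcon
      exact_mod_cast this
    have h2 := lt_of_vv_lt Fr.B (T := l * N + 1) (h := ((l * k : ℕ) : ℤ)) (by omega) h1
    -- lower bound
    have h3 : (mu Ω ^ N * Real.exp (-φ * N)) ^ l ≤ (br Fr.A (l * N) (l * k) : ℝ) := by
      have a1 : (mu Ω ^ N * Real.exp (-φ * N)) ^ l ≤ (br Fr.A N k : ℝ) ^ l :=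
        pow_le_pow_left₀ (by positivity) hk l
      have a2 : ((br Fr.A N k) ^ l : ℕ) ≤ br Fr.A (l * N) (l * k) := br_pow Fr.A N l k
      calc (mu Ω ^ N * Real.exp (-φ * N)) ^ l ≤ (br Fr.A N k : ℝ) ^ l := a1
        _ = (((br Fr.A N k) ^ l : ℕ) : ℝ) := by push_cast; rfl
        _ ≤ _ := by exact_mod_cast a2
    have h4 : (br Fr.A (l * N) (l * k) : ℝ) ≤ 2 * (cge Fr.B (l * N) (l * k) : ℝ) := by
      have a1 := (tK2_br_le_cge Fr.A (l * N) (l * k)).trans (tK2_cge_A Fr hκ (l * N) (l * k))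
      exact_mod_cast a1
    have h5 := cge_le Fr.B (l * N) ((l : ℤ) * k)
    have h6 : (mu Ω ^ N * Real.exp (-φ * N)) ^ l =
        Real.exp (((l * N : ℕ) : ℝ) * Real.log (mu Ω) - φ * ((l * N : ℕ) : ℝ)) := by
      rw [mul_pow, ← pow_mul, ← Real.exp_nat_mul, ← Real.exp_log (pow_pos hμ (N * l)),
        ← Real.exp_add, Real.log_pow]
      congr 1
      push_cast
      ring
    have h7 : mu Ω ^ (l * N + 1) * Real.exp (-ψ * ((l * N + 1 : ℕ) : ℝ)) =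
        Real.exp (((l * N : ℕ) : ℝ) * Real.log (mu Ω) + Real.log (mu Ω)
          - ψ * ((l * N : ℕ) : ℝ) - ψ) := by
      rw [← Real.exp_log (pow_pos hμ (l * N + 1)), ← Real.exp_add, Real.log_pow]
      congr 1
      push_cast
      ring
    have hcast : (((l * k : ℕ) : ℤ)) = (l : ℤ) * k := by push_cast; ring
    rw [hcast, h7] at h2
    rw [h6] at h3
    have h8 : (2 : ℝ) = Real.exp (Real.log 2) := (Real.exp_log (by norm_num)).symm
    have h9 : Real.exp (((l * N : ℕ) : ℝ) * Real.log (mu Ω) - φ * ((l * N : ℕ) : ℝ)) ≤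
        2 * (Real.exp (25 * ((l * N : ℕ) : ℝ) ^ (3 / 4 : ℝ)) * br Fr.B (l * N + 1) ((l : ℤ) * k)) := by
      calc _ ≤ _ := h3
        _ ≤ _ := h4
        _ ≤ _ := by linarith [h5]
    have h10 : 2 * (Real.exp (25 * ((l * N : ℕ) : ℝ) ^ (3 / 4 : ℝ)) * br Fr.B (l * N + 1) ((l : ℤ) * k))
        < 2 * (Real.exp (25 * ((l * N : ℕ) : ℝ) ^ (3 / 4 : ℝ)) *
          Real.exp (((l * N : ℕ) : ℝ) * Real.log (mu Ω) + Real.log (mu Ω)
          - ψ * ((l * N : ℕ) : ℝ) - ψ)) := by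
      refine mul_lt_mul_of_pos_left ?_ (by norm_num)
      exact mul_lt_mul_of_pos_left h2 (Real.exp_pos _)
    have h11 := lt_of_le_of_lt h9 h10
    rw [h8, ← Real.exp_add, ← Real.exp_add, Real.exp_lt_exp] at h11
    have hψ : 0 < ψ := by linarith
    linarith
  have hlim : Filter.Tendsto (fun l : ℕ => ((l * k : ℕ) : ℝ) / ((l * N + 1 : ℕ) : ℝ)) Filter.atTop
      (nhds ((k : ℝ) / N)) := by
    have hinv : Filter.Tendsto (fun l : ℕ => (k : ℝ) / N - (k / N) * (1 / ((l * N : ℕ) + 1 : ℝ)))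
        Filter.atTop (nhds ((k : ℝ) / N - (k / N) * 0)) := by
      refine Filter.Tendsto.sub tendsto_const_nhds (Filter.Tendsto.const_mul _ ?_)
      exact tendsto_one_div_add_atTop_nhds_zero_nat.comp hlN
    rw [mul_zero, sub_zero] at hinv
    refine hinv.congr (fun l => ?_)
    have hne : ((l * N : ℕ) : ℝ) + 1 ≠ 0 := by positivity
    push_cast at *
    field_simp
    ring
  exact le_of_tendsto hlim hbd

theorem tK2_sqrt2 : Real.sqrt 2 < 1.4143 := by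
  rw [Real.sqrt_lt' (by norm_num)]
  norm_num

/-- The use of the key proposition. -/
theorem tK2_use (Fr : Frame Ω) {φ₀ φ : ℝ} (hφ : 0 < φ) (hφ₀ : φ < φ₀)
    (hkey : ∀ φ v : ℝ, 0 < φ → φ < φ₀ →
      φ ^ (1 / 5 : ℝ) ≤ v → v ≤ 1 →
      (∃ N₀ : ℕ, 1 ≤ N₀ ∧ ∃ h₀ : ℤ, v * N₀ ≤ h₀ ∧
        mu Ω ^ N₀ * Real.exp (-φ * N₀) ≤ (br Fr.A N₀ h₀ : ℝ)) →
      (∀ (T : ℕ) (h : ℤ), lam * v * T ≤ h →
        (br Fr.A T h : ℝ) ≤ mu Ω ^ T * Real.exp (-(φ ^ (1 / 20 : ℝ)) * T)) →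
      (∀ (T : ℕ) (h : ℤ), 1.45 * v * T ≤ Fr.κ * h →
        (br Fr.B T h : ℝ) ≤ mu Ω ^ T * Real.exp (-(φ ^ (1 / 20 : ℝ)) * T)) → False)
    (h1 : 2 * φ ^ (1 / 5 : ℝ) ≤ vv Fr.A φ)
    (h2 : vv Fr.A (φ ^ (1 / 20 : ℝ)) < (1 + 1 / 1000000) * vv Fr.A φ)
    (h3 : Fr.κ * vv Fr.B (φ ^ (1 / 20 : ℝ)) < (1 + 1 / 1000000) * (1.4143 * vv Fr.A φ)) :
    False := by
  set a := vv Fr.A φ with ha
  have hp : 0 < φ ^ (1 / 5 : ℝ) := Real.rpow_pos_of_pos hφ _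
  have ha0 : 0 < a := by linarith
  have ha1 : a ≤ 1 := vv_le_one _ _
  set v := a / (1 + 1 / 1000000) with hv
  have hva : a = (1 + 1 / 1000000) * v := by rw [hv]; field_simp
  have hv0 : 0 < v := by rw [hv]; positivity
  have hκ0 : (0 : ℝ) < Fr.κ := by
    rcases Fr.hκ with h | h <;> rw [h] <;> norm_num
  have hT0 : ∀ (L : Lev Ω) (T : ℕ) (h : ℤ), T = 0 →
      (br L T h : ℝ) ≤ mu Ω ^ T * Real.exp (-(φ ^ (1 / 20 : ℝ)) * T) := by
    intro L T h hT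
    subst hT
    have := br_le_mu_pow L 0 h
    simpa using this
  refine hkey φ v hφ hφ₀ ?_ ?_ ?_ ?_ ?_
  · nlinarith
  · nlinarith
  · exact exists_of_lt_vv Fr.A hv0.le (by rw [← ha, hva]; nlinarith)
  · intro T h hTh
    rcases Nat.eq_zero_or_pos T with hT | hT
    · exact hT0 _ T h hT
    · have hTr : (0 : ℝ) < T := by exact_mod_cast hT
      refine (lt_of_vv_lt Fr.A hT ?_).le
      refine lt_of_lt_of_le ?_ hTh
      refine mul_lt_mul_of_pos_right ?_ hTr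
      refine lt_of_lt_of_le h2 ?_
      unfold lam
      rw [hva]
      nlinarith
  · intro T h hTh
    rcases Nat.eq_zero_or_pos T with hT | hT
    · exact hT0 _ T h hT
    · have hTr : (0 : ℝ) < T := by exact_mod_cast hT
      refine (lt_of_vv_lt Fr.B hT ?_).le
      have h4 : Fr.κ * (vv Fr.B (φ ^ (1 / 20 : ℝ)) * T) < Fr.κ * h := by
        refine lt_of_lt_of_le ?_ hTh
        rw [← mul_assoc]
        refine mul_lt_mul_of_pos_right ?_ hTr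
        refine lt_of_lt_of_le h3 ?_
        rw [hva]
        nlinarith
      exact lt_of_mul_lt_mul_left h4 hκ0.le

theorem vv_step (F1 F2 : Frame Ω) (k1 : F1.κ = 1) (k2 : F2.κ = 2) (e1 : F2.A = F1.B)
    (e2 : F2.B = F1.A) : ∃ φ₀ : ℝ, 0 < φ₀ ∧ ∀ φ : ℝ, 0 < φ → φ < φ₀ →
      2 * φ ^ (1 / 5 : ℝ) ≤ vv F1.A φ → 2 * φ ^ (1 / 5 : ℝ) ≤ vv F1.B φ →
      (1 + 1 / 1000000) * vv F1.A φ ≤ vv F1.A (φ ^ (1 / 20 : ℝ)) ∨
      (1 + 1 / 1000000) * vv F1.B φ ≤ vv F1.B (φ ^ (1 / 20 : ℝ)) := by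
  obtain ⟨x1, hx1, key1⟩ := key F1
  obtain ⟨x2, hx2, key2⟩ := key F2
  refine ⟨min x1 x2, lt_min hx1 hx2, ?_⟩
  intro φ hφ hφ₀ ha hb
  by_contra hcon
  push Not at hcon
  obtain ⟨hA, hB⟩ := hcon
  have hp : 0 < φ ^ (1 / 5 : ℝ) := Real.rpow_pos_of_pos hφ _
  rcases le_or_gt (vv F1.B φ) (1.4143 * vv F1.A φ) with hc | hc
  · refine tK2_use F1 hφ (lt_of_lt_of_le hφ₀ (min_le_left _ _)) key1 ha hA ?_
    rw [k1]
    push_cast
    rw [one_mul]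
    refine lt_of_lt_of_le hB ?_
    exact mul_le_mul_of_nonneg_left hc (by norm_num)
  · refine tK2_use F2 hφ (lt_of_lt_of_le hφ₀ (min_le_right _ _)) key2 ?_ ?_ ?_
    · rw [e1]; exact hb
    · rw [e1]; exact hB
    · rw [k2, e1, e2]
      push_cast
      nlinarith
end Pool.Agent.H725R2.SB
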