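import Pool.Agent.H725R2.SB.Defs2

/-! Task A1 of the sub-ballisticity project. -/

set_option autoImplicit false

namespace Pool.Agent.H725R2.SB

open Finset

variable {V : Type*} [AddCommGroup V] {Ω : Finset V}

theorem cc_add (Ω : Finset V) (m n : ℕ) : cc Ω (m + n) ≤ cc Ω m * cc Ω n := by
  classical
  unfold cc
  rw [← Finset.card_product]
  refine Finset.card_le_card_of_injOn
    (fun ξ => ((fun i => if i < m then ξ i else 0), fun i => ξ (m + i))) ?_ ?_
  · intro ξ hξ
    have hξ' : IsSaw Ω (m + n) ξ := mem_SawSet.1 (Finset.mem_coe.1 hξ)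
    refine Finset.mem_coe.2 (Finset.mem_product.2 ⟨mem_SawSet.2 (hξ'.pre (by omega)),
      mem_SawSet.2 ?_⟩)
    have := hξ'.suf (n := m) (by omega)
    rwa [Nat.add_sub_cancel_left] at this
  · intro ξ _ η _ h
    simp only [Prod.mk.injEq] at h
    funext i
    by_cases hi : i < m
    · have := congrFun h.1 i
      simpa [hi] using this
    · have := congrFun h.2 (i - m)
      rwa [Nat.add_sub_cancel' (by omega)] at this

private theorem tA1_lev (L : Lev Ω) (N : ℕ) (i : ℕ) (hi : i ≤ N) :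
    L.F (P (fun k => if k < N then L.e else 0) i) = i := by
  induction i with
  | zero => simp
  | succ i ih =>
    rw [P_succ, map_add, ih (by omega), if_pos (by omega), L.Fe]
    push_cast
    rfl

theorem one_le_cc (L : Lev Ω) (N : ℕ) : 1 ≤ cc Ω N := by
  unfold cc
  rw [Nat.one_le_iff_ne_zero, ← Nat.pos_iff_ne_zero, Finset.card_pos]
  refine ⟨fun k => if k < N then L.e else 0, mem_SawSet.2 ⟨fun i hi => ?_, fun i hi => ?_, ?_⟩⟩
  · simp only [if_pos hi]
    exact L.eΩ
  · simp only [if_neg (not_lt.2 hi)]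
  · intro i j hij hj heq
    have h1 := tA1_lev L N i (by omega)
    have h2 := tA1_lev L N j hj
    rw [heq, h2] at h1
    have : j = i := by exact_mod_cast h1
    omega

private theorem tA1_log_nonneg (L : Lev Ω) (n : ℕ) : 0 ≤ Real.log (cc Ω n) / n := by
  refine div_nonneg (Real.log_nonneg ?_) (Nat.cast_nonneg n)
  exact_mod_cast one_le_cc L n

theorem mu_pow_le_cc (L : Lev Ω) (N : ℕ) : mu Ω ^ N ≤ (cc Ω N : ℝ) := by
  have h1 : (1 : ℝ) ≤ cc Ω N := by exact_mod_cast one_le_cc L N
  rcases Nat.eq_zero_or_pos N with h0 | h0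
  · subst h0
    simpa using h1
  · have hb : BddBelow ((fun n : ℕ => Real.log (cc Ω n) / n) '' Set.Ici 1) := by
      refine ⟨0, ?_⟩
      rintro _ ⟨n, -, rfl⟩
      exact tA1_log_nonneg L n
    have h2 : sInf ((fun n : ℕ => Real.log (cc Ω n) / n) '' Set.Ici 1) ≤
        Real.log (cc Ω N) / N := csInf_le hb ⟨N, Set.mem_Ici.2 h0, rfl⟩
    have hN : (0 : ℝ) < N := by exact_mod_cast h0
    rw [le_div_iff₀ hN] at h2
    unfold mu
    rw [← Real.exp_nat_mul]
    calc Real.exp (N * sInf ((fun n : ℕ => Real.log (cc Ω n) / n) '' Set.Ici 1))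
        ≤ Real.exp (Real.log (cc Ω N)) := Real.exp_le_exp.2 (by linarith)
      _ = cc Ω N := Real.exp_log (by linarith)

theorem one_le_mu (L : Lev Ω) : 1 ≤ mu Ω := by
  unfold mu
  rw [← Real.exp_zero]
  refine Real.exp_le_exp.2 (Real.sInf_nonneg ?_)
  rintro _ ⟨n, -, rfl⟩
  exact tA1_log_nonneg L n

end Pool.Agent.H725R2.SB
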