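import Pool.Agent.H725R2.SB.TN2
import Pool.Agent.H725R2.SB.TA1

/-! Task N3 of the sub-ballisticity project. -/

set_option autoImplicit false

namespace Pool.Agent.H725R2.SB

open Finset

/-- the automorphism exchanging the coordinates `k` and `k0` and multiplying one of them by `s` -/
def tN3_g {d : ℕ} (k0 k : Fin d) (s : ℤ) (hs : s * s = 1) : (Fin d → ℤ) ≃+ (Fin d → ℤ) where
  toFun v := fun j => (if j = k0 then s else 1) * v (Equiv.swap k0 k j)
  invFun v := fun j => (if Equiv.swap k0 k j = k0 then s else 1) * v (Equiv.swap k0 k j)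
  left_inv := by
    intro v
    funext j
    simp only [Equiv.swap_apply_self]
    split_ifs
    · rw [← mul_assoc, hs, one_mul]
    · rw [one_mul, one_mul]
  right_inv := by
    intro v
    funext j
    simp only [Equiv.swap_apply_self]
    split_ifs
    · rw [← mul_assoc, hs, one_mul]
    · rw [one_mul, one_mul]
  map_add' := by
    intro v w
    funext j
    simp only [Pi.add_apply]
    ring

theorem tN3_g_mem {d : ℕ} (k0 k : Fin d) (s : ℤ) (hs : s * s = 1) (v : Fin d → ℤ) (hv : v ∈ Om d) :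
    tN3_g k0 k s hs v ∈ Om d := by
  rw [tN2_mem_Om] at hv ⊢
  rw [← hv, ← Equiv.sum_comp (Equiv.swap k0 k) (fun j => |v j|)]
  refine Finset.sum_congr rfl (fun j _ => ?_)
  have hs1 : |s| = 1 := by
    have h1 : |s| * |s| = 1 := by rw [← abs_mul, hs, abs_one]
    nlinarith [abs_nonneg s]
  show |(if j = k0 then s else 1) * v (Equiv.swap k0 k j)| = _
  rw [abs_mul]
  split_ifs
  · rw [hs1, one_mul]
  · rw [abs_one, one_mul]

theorem tN3_g_zero {d : ℕ} (k0 k : Fin d) (s : ℤ) (hs : s * s = 1) (v : Fin d → ℤ) :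
    tN3_g k0 k s hs v k0 = s * v k := by
  show (if k0 = k0 then s else 1) * v (Equiv.swap k0 k k0) = _
  rw [if_pos rfl, Equiv.swap_apply_left]

open scoped Classical in
/-- splitting a walk at time `i` -/
theorem tN3_split {V : Type*} [AddCommGroup V] {Ω : Finset V} (L : Lev Ω) {N i : ℕ} (hi : i ≤ N)
    (h : ℤ) :
    ((SawSet Ω N).filter (fun ξ => h ≤ lev L ξ i)).card ≤ cge L i h * cc Ω (N - i) := by
  unfold cge cc
  rw [← Finset.card_product]
  refine Finset.card_le_card_of_injOn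
    (fun ξ => ((fun j => if j < i then ξ j else 0), (fun j => ξ (i + j)))) ?_ ?_
  · intro ξ hξ
    rw [Finset.mem_coe, Finset.mem_filter, mem_SawSet] at hξ
    rw [Finset.mem_coe, Finset.mem_product, Finset.mem_filter, mem_SawSet, mem_SawSet]
    refine ⟨⟨hξ.1.pre hi, ?_⟩, hξ.1.suf hi⟩
    have h1 : lev L (fun j => if j < i then ξ j else 0) i = lev L ξ i := by
      unfold lev
      rw [P_congr (fun j hj => if_pos hj)]
    rw [h1]
    exact hξ.2
  · intro ξ _ η _ heq
    simp only [Prod.mk.injEq] at heq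
    funext j
    rcases lt_or_ge j i with hj | hj
    · have h1 := congrFun heq.1 j
      simpa [hj] using h1
    · have h1 := congrFun heq.2 (j - i)
      rwa [show i + (j - i) = j by omega] at h1

open scoped Classical in
/-- all coordinates and signs are equivalent -/
theorem tN3_sym {d : ℕ} (N i : ℕ) (k0 k : Fin d) (s : ℤ) (hs : s * s = 1) (h : ℤ)
    (L : Lev (Om d)) (hL : ∀ v : Fin d → ℤ, L.F v = v k0) :
    ((SawSet (Om d) N).filter (fun ξ : ℕ → (Fin d → ℤ) => h ≤ s * P ξ i k)).card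
      ≤ ((SawSet (Om d) N).filter (fun ξ => h ≤ lev L ξ i)).card := by
  refine Finset.card_le_card_of_injOn (fun ξ j => tN3_g k0 k s hs (ξ j)) ?_ ?_
  · intro ξ hξ
    rw [Finset.mem_coe, Finset.mem_filter, mem_SawSet] at hξ ⊢
    refine ⟨hξ.1.map _ (fun v hv => tN3_g_mem k0 k s hs v hv), ?_⟩
    unfold lev
    rw [hL, P_map, tN3_g_zero]
    exact hξ.2
  · intro ξ _ η _ heq
    funext j
    exact (tN3_g k0 k s hs).injective (congrFun heq j)

/-- the walk leaves the cube of radius `h` -/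
def tN3_far {d : ℕ} (N : ℕ) (h : ℤ) (ξ : ℕ → (Fin d → ℤ)) : Prop :=
  ∃ i ∈ Finset.range (N + 1), ∃ k, h ≤ |P ξ i k|

open scoped Classical in
theorem tN3_main (d N : ℕ) (k0 : Fin d) (L : Lev (Om d)) (hL : ∀ v : Fin d → ℤ, L.F v = v k0)
    (h : ℤ) :
    ((SawSet (Om d) N).filter (fun ξ : ℕ → (Fin d → ℤ) => tN3_far N h ξ)).card
      ≤ 2 * d * ∑ i ∈ Finset.range (N + 1), cge L i h * cc (Om d) (N - i) := by
  have hsub : (SawSet (Om d) N).filter (fun ξ : ℕ → (Fin d → ℤ) => tN3_far N h ξ)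
      ⊆ (Finset.range (N + 1)).biUnion (fun i => (Finset.univ : Finset (Fin d)).biUnion (fun k =>
        ((SawSet (Om d) N).filter (fun ξ : ℕ → (Fin d → ℤ) => h ≤ 1 * P ξ i k)) ∪
        ((SawSet (Om d) N).filter (fun ξ : ℕ → (Fin d → ℤ) => h ≤ (-1) * P ξ i k)))) := by
    intro ξ hξ
    rw [Finset.mem_filter] at hξ
    obtain ⟨h1, i, hi, k, hk⟩ := hξ
    rw [Finset.mem_biUnion]
    refine ⟨i, hi, ?_⟩
    rw [Finset.mem_biUnion]
    refine ⟨k, Finset.mem_univ _, ?_⟩
    rw [Finset.mem_union, Finset.mem_filter, Finset.mem_filter]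
    rcases le_abs.1 hk with h2 | h2
    · left
      exact ⟨h1, by simpa using h2⟩
    · right
      exact ⟨h1, by simpa using h2⟩
  refine (Finset.card_le_card hsub).trans ?_
  refine (Finset.card_biUnion_le).trans ?_
  rw [Finset.mul_sum]
  refine Finset.sum_le_sum (fun i hi => ?_)
  rw [Finset.mem_range] at hi
  refine (Finset.card_biUnion_le).trans ?_
  have h3 : ∀ k ∈ (Finset.univ : Finset (Fin d)),
      (((SawSet (Om d) N).filter (fun ξ : ℕ → (Fin d → ℤ) => h ≤ 1 * P ξ i k)) ∪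
        ((SawSet (Om d) N).filter (fun ξ : ℕ → (Fin d → ℤ) => h ≤ (-1) * P ξ i k))).card
      ≤ 2 * (cge L i h * cc (Om d) (N - i)) := by
    intro k _
    refine (Finset.card_union_le _ _).trans ?_
    have h4 := (tN3_sym N i k0 k 1 (by norm_num) h L hL).trans (tN3_split L (by omega : i ≤ N) h)
    have h5 := (tN3_sym N i k0 k (-1) (by norm_num) h L hL).trans
      (tN3_split L (by omega : i ≤ N) h)
    omega
  refine (Finset.sum_le_sum h3).trans ?_
  rw [Finset.sum_const, Finset.card_univ, Fintype.card_fin, smul_eq_mul]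
  refine le_of_eq ?_
  ring

theorem cfar_le (d N : ℕ) (hd : 0 < d) (L : Lev (Om d)) (hL : ∀ v : Fin d → ℤ, L.F v = v ⟨0, hd⟩)
    (h : ℤ) (hh : 0 < h) (R : ℝ) (hR : (h : ℝ) - 1 < R) :
    cfar d N R ≤ 2 * d * ∑ k ∈ Finset.range (N + 1), cge L k h * cc (Om d) (N - k) := by
  classical
  refine le_trans ?_ (tN3_main d N ⟨0, hd⟩ L hL h)
  unfold cfar
  rw [← Fintype.card_coe, ← Nat.card_eq_fintype_card]
  refine Nat.card_le_card_of_injective
    (fun w : {w : Fin (N + 1) → (Fin d → ℤ) // IsSAW d N w ∧ ∃ i k, R ≤ |((w i k : ℤ) : ℝ)|} =>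
      (⟨tN2_st N w.1, ?_⟩ : {ξ // ξ ∈ (SawSet (Om d) N).filter
        (fun ξ : ℕ → (Fin d → ℤ) => tN3_far N h ξ)})) ?_
  · rw [Finset.mem_filter]
    refine ⟨tN2_st_mem w.2.1, ?_⟩
    obtain ⟨i, k, hik⟩ := w.2.2
    refine ⟨i, Finset.mem_range.2 i.2, k, ?_⟩
    rw [tN2_P_st_saw w.2.1 i]
    have h1 : (h : ℝ) - 1 < ((|w.1 i k| : ℤ) : ℝ) := by
      push_cast
      exact lt_of_lt_of_le hR hik
    have h2 : h - 1 < |w.1 i k| := by exact_mod_cast h1
    omega
  · rintro ⟨w, hw⟩ ⟨w', hw'⟩ heq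
    apply Subtype.ext
    simp only [Subtype.mk.injEq] at heq
    funext i
    show w i = w' i
    rw [← tN2_P_st_saw hw.1 i, ← tN2_P_st_saw hw'.1 i, heq]

end Pool.Agent.H725R2.SB
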