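import Pool.Agent.H725R2.SB.Defs

/-! Basic facts on walks, levels and segment-wise automorphisms. -/

set_option autoImplicit false

namespace Pool.Agent.H725R2.SB

open Finset

variable {V : Type*} [AddCommGroup V] {Ω : Finset V}

theorem P_add (ξ : ℕ → V) (m n : ℕ) : P ξ (m + n) = P ξ m + P (fun i => ξ (m + i)) n := by
  unfold P
  rw [Finset.sum_range_add]

theorem P_congr {ξ η : ℕ → V} {n : ℕ} (h : ∀ i, i < n → ξ i = η i) : P ξ n = P η n := by
  unfold P
  exact Finset.sum_congr rfl (fun i hi => h i (Finset.mem_range.mp hi))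

theorem P_map (g : V ≃+ V) (ξ : ℕ → V) (n : ℕ) : P (fun i => g (ξ i)) n = g (P ξ n) := by
  unfold P
  rw [map_sum]

/-- displacement between two times -/
theorem P_sub_P (ξ : ℕ → V) {m n : ℕ} (h : m ≤ n) : P ξ n - P ξ m = ∑ i ∈ Finset.Ico m n, ξ i := by
  unfold P
  rw [Finset.sum_Ico_eq_sub _ h]

@[simp] theorem lev_zero (L : Lev Ω) (ξ : ℕ → V) : lev L ξ 0 = 0 := by simp [lev]

theorem lev_succ (L : Lev Ω) (ξ : ℕ → V) (n : ℕ) : lev L ξ (n + 1) = lev L ξ n + L.F (ξ n) := by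
  simp [lev, P_succ]

theorem lev_add (L : Lev Ω) (ξ : ℕ → V) (m n : ℕ) :
    lev L ξ (m + n) = lev L ξ m + lev L (fun i => ξ (m + i)) n := by
  simp [lev, P_add]

theorem lev_map_r (L : Lev Ω) (ξ : ℕ → V) (n : ℕ) : lev L (fun i => L.r (ξ i)) n = - lev L ξ n := by
  simp [lev, P_map, L.rF]

theorem lev_lip (L : Lev Ω) {N : ℕ} {ξ : ℕ → V} (h : IsSaw Ω N ξ) (i : ℕ) :
    |lev L ξ (i + 1) - lev L ξ i| ≤ 1 := by
  rw [lev_succ, add_sub_cancel_left]
  rcases lt_or_ge i N with hi | hi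
  · exact L.le_one _ (h.step i hi)
  · rw [h.zero i hi, map_zero]; simp

/-- Lipschitz bound between two times. -/
theorem lip_le {a : ℕ → ℤ} (ha : ∀ i, |a (i + 1) - a i| ≤ 1) {m n : ℕ} (h : m ≤ n) :
    |a n - a m| ≤ (n : ℤ) - m := by
  induction n, h using Nat.le_induction with
  | base => simp
  | succ n hn ih =>
    have h1 := ha n
    rw [abs_le] at *
    push_cast
    omega

theorem lev_abs_le (L : Lev Ω) {N : ℕ} {ξ : ℕ → V} (h : IsSaw Ω N ξ) (i : ℕ) :
    |lev L ξ i| ≤ i := by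
  have := lip_le (lev_lip L h) (Nat.zero_le i)
  simpa using this

/-- image of a walk under an automorphism -/
theorem IsSaw.map {N : ℕ} {ξ : ℕ → V} (h : IsSaw Ω N ξ) (g : V ≃+ V) (hg : ∀ v ∈ Ω, g v ∈ Ω) :
    IsSaw Ω N (fun i => g (ξ i)) := by
  refine ⟨fun i hi => hg _ (h.step i hi), fun i hi => by rw [h.zero i hi, map_zero], ?_⟩
  intro i j hij hj heq
  rw [P_map, P_map] at heq
  exact h.inj i j hij hj (g.injective heq)

/-- initial part -/
theorem IsSaw.pre {N : ℕ} {ξ : ℕ → V} (h : IsSaw Ω N ξ) {n : ℕ} (hn : n ≤ N) :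
    IsSaw Ω n (fun i => if i < n then ξ i else 0) := by
  have hP : ∀ i, i ≤ n → P (fun i => if i < n then ξ i else 0) i = P ξ i := by
    intro i hi
    refine P_congr (fun k hk => ?_)
    rw [if_pos (by omega)]
  refine ⟨fun i hi => ?_, fun i hi => ?_, ?_⟩
  · rw [if_pos hi]
    exact h.step i (by omega)
  · rw [if_neg (by omega)]
  · intro i j hij hj heq
    rw [hP i (by omega), hP j hj] at heq
    exact h.inj i j hij (by omega) heq

/-- final part -/
theorem IsSaw.suf {N : ℕ} {ξ : ℕ → V} (h : IsSaw Ω N ξ) {n : ℕ} (hn : n ≤ N) :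
    IsSaw Ω (N - n) (fun i => ξ (n + i)) := by
  refine ⟨fun i hi => h.step _ (by omega), fun i hi => h.zero _ (by omega), ?_⟩
  intro i j hij hj heq
  refine h.inj (n + i) (n + j) (by omega) (by omega) ?_
  rw [P_add, P_add, heq]

/-- piece between two times -/
theorem IsSaw.mid {N : ℕ} {ξ : ℕ → V} (h : IsSaw Ω N ξ) {m n : ℕ} (hn : m + n ≤ N) :
    IsSaw Ω n (fun i => if i < n then ξ (m + i) else 0) :=
  (h.suf (n := m) (by omega)).pre (n := n) (by omega)

/-- concatenation of step sequences -/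
def cat (n : ℕ) (ξ η : ℕ → V) : ℕ → V := fun i => if i < n then ξ i else η (i - n)

theorem P_cat_le (n : ℕ) (ξ η : ℕ → V) {i : ℕ} (hi : i ≤ n) : P (cat n ξ η) i = P ξ i := by
  refine P_congr (fun k hk => ?_)
  unfold cat
  rw [if_pos (by omega)]

theorem P_cat_add (n : ℕ) (ξ η : ℕ → V) (i : ℕ) : P (cat n ξ η) (n + i) = P ξ n + P η i := by
  rw [P_add, P_cat_le n ξ η le_rfl]
  congr 1
  refine P_congr (fun k _ => ?_)
  unfold cat
  rw [if_neg (by omega), Nat.add_sub_cancel_left]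

/-! ### Segment-wise automorphisms -/

theorem op_involutive {g : V ≃+ V} (hg : ∀ v, g (g v) = v) (T : Finset ℕ) (ξ : ℕ → V) :
    op g T (op g T ξ) = ξ := by
  funext i
  unfold op
  split_ifs with h
  · exact hg _
  · rfl

/-- If a functional reversed by `g` is used, the level increments change sign on `T`. -/
theorem lev_op_r (L : Lev Ω) (T : Finset ℕ) (ξ : ℕ → V) (i : ℕ) :
    lev L (op L.r T ξ) i = ∑ k ∈ range i, (if k ∈ T then -(L.F (ξ k)) else L.F (ξ k)) := by
  unfold lev P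
  rw [map_sum]
  refine Finset.sum_congr rfl (fun k _ => ?_)
  unfold op
  split_ifs <;> simp [L.rF]

/-- If `g` preserves the functional, the levels do not change. -/
theorem lev_op_t (L : Lev Ω) {g : V ≃+ V} (hg : ∀ v, L.F (g v) = L.F v) (T : Finset ℕ)
    (ξ : ℕ → V) (i : ℕ) : lev L (op g T ξ) i = lev L ξ i := by
  unfold lev P
  rw [map_sum, map_sum]
  refine Finset.sum_congr rfl (fun k _ => ?_)
  unfold op
  split_ifs <;> simp [hg]

/-- Separation lemma: a segment-wise automorphism keeps the walk self-avoiding if between any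
two times either there is a cut time of the new walk, or the automorphism is constant. -/
theorem IsSaw.op_of_sep {N : ℕ} {ξ : ℕ → V} (h : IsSaw Ω N ξ) {g : V ≃+ V}
    (hg : ∀ v ∈ Ω, g v ∈ Ω) (T : Finset ℕ) (L : Lev Ω)
    (hsep : ∀ i j, i < j → j ≤ N →
      (∃ d, i ≤ d ∧ d < j ∧ (∀ n, n ≤ d → lev L (op g T ξ) n ≤ lev L (op g T ξ) d) ∧
        (∀ n, d < n → n ≤ N → lev L (op g T ξ) d < lev L (op g T ξ) n)) ∨
      (∀ k, i ≤ k → k < j → k ∈ T) ∨ (∀ k, i ≤ k → k < j → k ∉ T)) :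
    IsSaw Ω N (op g T ξ) := by
  refine ⟨fun i hi => ?_, fun i hi => ?_, ?_⟩
  · unfold op
    split_ifs
    · exact hg _ (h.step i hi)
    · exact h.step i hi
  · unfold op
    rw [h.zero i hi]
    simp
  · intro i j hij hj heq
    rcases hsep i j hij hj with ⟨d, h1, h2, h3, h4⟩ | h1 | h1
    · have a1 := h3 i h1
      have a2 := h4 j h2 hj
      have a3 : lev L (op g T ξ) i = lev L (op g T ξ) j := by unfold lev; rw [heq]
      omega
    · have e1 : P (op g T ξ) j - P (op g T ξ) i = g (P ξ j - P ξ i) := by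
        rw [P_sub_P _ hij.le, P_sub_P _ hij.le, map_sum]
        refine Finset.sum_congr rfl (fun k hk => ?_)
        rw [Finset.mem_Ico] at hk
        unfold op
        rw [if_pos (h1 k hk.1 hk.2)]
      rw [← heq, sub_self] at e1
      have e2 : P ξ j - P ξ i = 0 := by
        have := e1.symm
        rwa [map_eq_zero_iff g g.injective] at this
      exact h.inj i j hij hj (sub_eq_zero.mp e2).symm
    · have e1 : P (op g T ξ) j - P (op g T ξ) i = P ξ j - P ξ i := by
        rw [P_sub_P _ hij.le, P_sub_P _ hij.le]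
        refine Finset.sum_congr rfl (fun k hk => ?_)
        rw [Finset.mem_Ico] at hk
        unfold op
        rw [if_neg (h1 k hk.1 hk.2)]
      rw [← heq, sub_self] at e1
      exact h.inj i j hij hj (sub_eq_zero.mp e1.symm).symm

/-- A cut time: at the crossing time of a cut level `q` the level is exactly `q`. -/
theorem Cut.lev_eq {a : ℕ → ℤ} (ha : ∀ i, |a (i + 1) - a i| ≤ 1) {N : ℕ} {q : ℤ} {τ : ℕ}
    (h : Cut a N q τ) : a τ = q := by
  have h1 := h.2.1 τ le_rfl
  have h2 := h.2.2 (τ + 1) (by omega) h.1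
  have h3 := ha τ
  rw [abs_le] at h3
  omega

theorem Cut.unique {a : ℕ → ℤ} {N : ℕ} {q : ℤ} {τ τ' : ℕ} (h : Cut a N q τ) (h' : Cut a N q τ') :
    τ = τ' := by
  rcases lt_trichotomy τ τ' with hl | hl | hl
  · have h1 := h.2.2 τ' hl h'.1.le
    have h2 := h'.2.1 τ' le_rfl
    omega
  · exact hl
  · have h1 := h'.2.2 τ hl h.1.le
    have h2 := h.2.1 τ le_rfl
    omega

theorem Cut.mono {a : ℕ → ℤ} {N : ℕ} {q q' : ℤ} {τ τ' : ℕ} (h : Cut a N q τ) (h' : Cut a N q' τ')
    (hq : q ≤ q') : τ ≤ τ' := by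
  by_contra hcon
  have h1 := h'.2.2 τ (by omega) h.1.le
  have h2 := h.2.1 τ le_rfl
  omega

end Pool.Agent.H725R2.SB
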