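import Mathlib

/-!
# Quantitative sub-ballisticity of self-avoiding walk: definitions

Walks are given by their step sequences `ξ : ℕ → V` (`V` an additive group, e.g. `ℤ^d`); an
`N`-step walk has `ξ i ∈ Ω` for `i < N` and `ξ i = 0` for `i ≥ N`.
-/

set_option autoImplicit false

namespace Pool.Agent.H725R2.SB

open Finset

variable {V : Type*} [AddCommGroup V]

/-- Position after `n` steps. -/
def P (ξ : ℕ → V) (n : ℕ) : V := ∑ i ∈ range n, ξ i

@[simp] theorem P_zero (ξ : ℕ → V) : P ξ 0 = 0 := by simp [P]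

theorem P_succ (ξ : ℕ → V) (n : ℕ) : P ξ (n + 1) = P ξ n + ξ n := by
  simp [P, sum_range_succ]

/-- `ξ` is (the step sequence of) an `N`-step self-avoiding walk with steps in `Ω`. -/
structure IsSaw (Ω : Finset V) (N : ℕ) (ξ : ℕ → V) : Prop where
  step : ∀ i, i < N → ξ i ∈ Ω
  zero : ∀ i, N ≤ i → ξ i = 0
  inj : ∀ i j, i < j → j ≤ N → P ξ i ≠ P ξ j

theorem saw_finite (Ω : Finset V) (N : ℕ) : {ξ : ℕ → V | IsSaw Ω N ξ}.Finite := by
  have hfin : (Set.univ.pi (fun _ : Fin N => (Ω : Set V))).Finite :=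
    Set.Finite.pi (fun _ => Finset.finite_toSet _)
  refine Set.Finite.of_finite_image (f := fun w (i : Fin N) => w i) (hfin.subset ?_) ?_
  · rintro _ ⟨w, hw, rfl⟩
    intro i _
    have hw1 : IsSaw Ω N w := hw
    exact hw1.step i i.2
  · intro w (hw : IsSaw Ω N w) w' (hw' : IsSaw Ω N w') heq
    funext i
    rcases lt_or_ge i N with h | h
    · exact congrFun heq ⟨i, h⟩
    · rw [hw.zero i h, hw'.zero i h]

/-- The finite set of `N`-step self-avoiding walks from the origin. -/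
noncomputable def SawSet (Ω : Finset V) (N : ℕ) : Finset (ℕ → V) := (saw_finite Ω N).toFinset

@[simp] theorem mem_SawSet {Ω : Finset V} {N : ℕ} {ξ : ℕ → V} :
    ξ ∈ SawSet Ω N ↔ IsSaw Ω N ξ := by
  simp [SawSet]

/-- The number of `N`-step self-avoiding walks. -/
noncomputable def cc (Ω : Finset V) (N : ℕ) : ℕ := (SawSet Ω N).card

/-- A level functional on the step set `Ω`, with a reflection `r` reversing it and a step `e`
going up. -/
structure Lev (Ω : Finset V) where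
  F : V →+ ℤ
  r : V ≃+ V
  e : V
  le_one : ∀ v ∈ Ω, |F v| ≤ 1
  rF : ∀ v, F (r v) = - F v
  rΩ : ∀ v ∈ Ω, r v ∈ Ω
  rr : ∀ v, r (r v) = v
  eΩ : e ∈ Ω
  Fe : F e = 1

/-- The level after `i` steps. -/
def lev {Ω : Finset V} (L : Lev Ω) (ξ : ℕ → V) (i : ℕ) : ℤ := L.F (P ξ i)

/-- `ξ` is an `N`-step bridge for the level functional `L`. -/
structure IsBr {Ω : Finset V} (L : Lev Ω) (N : ℕ) (ξ : ℕ → V) : Prop where
  saw : IsSaw Ω N ξ
  pos : ∀ i, 1 ≤ i → i ≤ N → 0 < lev L ξ i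
  top : ∀ i, i ≤ N → lev L ξ i ≤ lev L ξ N

open scoped Classical in
/-- Number of `N`-step bridges of height at least `h`. -/
noncomputable def br {Ω : Finset V} (L : Lev Ω) (N : ℕ) (h : ℤ) : ℕ :=
  ((SawSet Ω N).filter (fun ξ => IsBr L N ξ ∧ h ≤ lev L ξ N)).card

open scoped Classical in
/-- Number of `N`-step self-avoiding walks whose end point is at level at least `h`. -/
noncomputable def cge {Ω : Finset V} (L : Lev Ω) (N : ℕ) (h : ℤ) : ℕ :=
  ((SawSet Ω N).filter (fun ξ => h ≤ lev L ξ N)).card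

/-- The connective constant: infimum of `c_n^{1/n}`, written through logarithms. -/
noncomputable def mu (Ω : Finset V) : ℝ :=
  Real.exp (sInf ((fun n : ℕ => Real.log (cc Ω n) / n) '' Set.Ici 1))

/-- Apply `g` to the steps with index in `T`. -/
def op (g : V ≃+ V) (T : Finset ℕ) (ξ : ℕ → V) : ℕ → V :=
  fun i => if i ∈ T then g (ξ i) else ξ i

/-- `q` is a cut level of the level sequence `a` (up to time `N`), crossed only at time `τ`. -/
def Cut (a : ℕ → ℤ) (N : ℕ) (q : ℤ) (τ : ℕ) : Prop :=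
  τ < N ∧ (∀ i, i ≤ τ → a i ≤ q) ∧ ∀ i, τ < i → i ≤ N → q < a i

/-- `q` is a cut level. -/
def IsCut (a : ℕ → ℤ) (N : ℕ) (q : ℤ) : Prop := ∃ τ, Cut a N q τ

/-- `(t, t')` is a backtrack of the level sequence covering the level `p`. -/
structure BT (a : ℕ → ℤ) (N : ℕ) (p : ℤ) (t t' : ℕ) : Prop where
  le : t ≤ t'
  leN : t' ≤ N
  up : ∀ i, i ≤ t' → a i ≤ a t
  up' : ∀ i, t < i → i ≤ t' → a i < a t
  lo : ∀ i, t ≤ i → i ≤ N → a t' ≤ a i
  lo' : ∀ i, t' < i → i ≤ N → a t' < a i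
  p1 : a t' ≤ p
  p2 : p ≤ a t

/-- The level `p` is covered by a backtrack of size `< r`. -/
def Light (a : ℕ → ℤ) (N : ℕ) (r : ℕ) (p : ℤ) : Prop :=
  ∃ t t', BT a N p t t' ∧ a t - a t' < r

/-- Two orthogonal directions with their diagonals: `2 A = κ (B + B')`, the automorphism `t`
preserves `B` and reverses `B'`, the automorphism `g` exchanges `B` and `B'`. -/
structure Frame (Ω : Finset V) where
  A : Lev Ω
  B : Lev Ω
  B' : Lev Ω
  κ : ℤ
  hκ : κ = 1 ∨ κ = 2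
  rel : ∀ v, 2 * A.F v = κ * (B.F v + B'.F v)
  t : V ≃+ V
  tB : ∀ v, B.F (t v) = B.F v
  tB' : ∀ v, B'.F (t v) = - B'.F v
  tΩ : ∀ v ∈ Ω, t v ∈ Ω
  tt : ∀ v, t (t v) = v
  g : V ≃+ V
  gB : ∀ v, B.F (g v) = B'.F v
  gΩ : ∀ v ∈ Ω, g v ∈ Ω
  gg : ∀ v, g (g v) = v

end Pool.Agent.H725R2.SB
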