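import Pool.Agent.H725R2.SB.Base

/-! Further definitions for the sub-ballisticity project. -/

set_option autoImplicit false

namespace Pool.Agent.H725R2.SB

open Finset

variable {V : Type*} [AddCommGroup V] {Ω : Finset V}

/-- total excess of the walk over speed `s` on the grid of mesh `τ` (up to time `n * τ`) -/
noncomputable def exc (L : Lev Ω) (s : ℝ) (τ n : ℕ) (ξ : ℕ → V) : ℝ :=
  ∑ k ∈ range n, max 0 (|((lev L ξ ((k + 1) * τ) - lev L ξ (k * τ) : ℤ) : ℝ)| - s * τ)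

/-- pairwise disjoint time intervals -/
def Disj (I : Finset (ℕ × ℕ)) : Prop := ∀ x ∈ I, ∀ y ∈ I, x ≠ y → x.2 ≤ y.1 ∨ y.2 ≤ x.1

open scoped Classical in
/-- The window `[4wi, 4w(i+1))` has no cut level but its core `(4wi+w, 4wi+3w]` has at least `w`
light levels. -/
def NC (a : ℕ → ℤ) (N : ℕ) (r w : ℕ) (i : ℕ) : Prop :=
  (∀ q : ℤ, 4 * (w : ℤ) * i ≤ q → q < 4 * (w : ℤ) * (i + 1) → ¬ IsCut a N q) ∧
  w ≤ ((Finset.Ioc (4 * (w : ℤ) * i + w) (4 * (w : ℤ) * i + 3 * w)).filter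
    (fun p => Light a N r p)).card

/-- The window `[8wk, 8wk+4w)` contains a cut level. -/
def Open (a : ℕ → ℤ) (N : ℕ) (w : ℕ) (k : ℕ) : Prop :=
  ∃ q : ℤ, 8 * (w : ℤ) * k ≤ q ∧ q < 8 * (w : ℤ) * k + 4 * w ∧ IsCut a N q

/-- The first cut time of a level in the window `[8wk, 8wk+4w)`. -/
noncomputable def ct (a : ℕ → ℤ) (N : ℕ) (w : ℕ) (k : ℕ) : ℕ :=
  sInf {τ : ℕ | ∃ q : ℤ, 8 * (w : ℤ) * k ≤ q ∧ q < 8 * (w : ℤ) * k + 4 * w ∧ Cut a N q τ}

open scoped Classical in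
/-- Indices `k < n` for which the windows `k` and `k+1` are both open. -/
noncomputable def Good (a : ℕ → ℤ) (N : ℕ) (w n : ℕ) : Finset ℕ :=
  (range n).filter (fun k => Open a N w k ∧ Open a N w (k + 1))

/-- `B'`-displacement of the block `k`. -/
noncomputable def dB' (Fr : Frame Ω) (N w : ℕ) (ξ : ℕ → V) (k : ℕ) : ℤ :=
  lev Fr.B' ξ (ct (lev Fr.B ξ) N w (k + 1)) - lev Fr.B' ξ (ct (lev Fr.B ξ) N w k)

/-- constants -/
noncomputable def lam : ℝ := 1 + 1 / 200000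
noncomputable def ep : ℝ := 1 / 200000
noncomputable def dl : ℝ := 1 / 100000

/-- The largest speed which costs at most `φ` per step. -/
noncomputable def vv (L : Lev Ω) (φ : ℝ) : ℝ :=
  sSup {x : ℝ | ∃ N : ℕ, 1 ≤ N ∧ ∃ h : ℕ, x = (h : ℝ) / N ∧
    mu Ω ^ N * Real.exp (-φ * N) ≤ (br L N h : ℝ)}

end Pool.Agent.H725R2.SB
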