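import Pool.Agent.H725R2.SB.TA1

/-! Task A2 of the sub-ballisticity project. -/

set_option autoImplicit false

namespace Pool.Agent.H725R2.SB

open Finset

variable {V : Type*} [AddCommGroup V] {Ω : Finset V}

private theorem tA2_lev_cat_le (L : Lev Ω) (n : ℕ) (ξ η : ℕ → V) {i : ℕ} (hi : i ≤ n) :
    lev L (cat n ξ η) i = lev L ξ i := by
  unfold lev; rw [P_cat_le n ξ η hi]

private theorem tA2_lev_cat_add (L : Lev Ω) (n : ℕ) (ξ η : ℕ → V) (i : ℕ) :
    lev L (cat n ξ η) (n + i) = lev L ξ n + lev L η i := by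
  unfold lev; rw [P_cat_add, map_add]

private theorem tA2_isBr_cat (L : Lev Ω) {m n : ℕ} {ξ η : ℕ → V} (hx : IsBr L m ξ)
    (hy : IsBr L n η) : IsBr L (m + n) (cat m ξ η) := by
  have hlevx : ∀ i, i ≤ m → lev L (cat m ξ η) i ≤ lev L ξ m := by
    intro i hi
    rw [tA2_lev_cat_le L m ξ η hi]
    exact hx.top i hi
  have hlevy : ∀ i, 1 ≤ i → i ≤ n → lev L ξ m < lev L (cat m ξ η) (m + i) := by
    intro i h1 h2
    rw [tA2_lev_cat_add]
    have := hy.pos i h1 h2
    omega
  have hm0 : 0 ≤ lev L ξ m := by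
    have := hx.top 0 (Nat.zero_le _)
    rwa [lev_zero] at this
  have hn0 : 0 ≤ lev L η n := by
    have := hy.top 0 (Nat.zero_le _)
    rwa [lev_zero] at this
  refine ⟨⟨fun i hi => ?_, fun i hi => ?_, ?_⟩, ?_, ?_⟩
  · unfold cat
    split_ifs with h
    · exact hx.saw.step i h
    · exact hy.saw.step _ (by omega)
  · unfold cat
    rw [if_neg (by omega)]
    exact hy.saw.zero _ (by omega)
  · intro i j hij hj heq
    rcases le_or_gt j m with h | h
    · rw [P_cat_le m ξ η (by omega), P_cat_le m ξ η h] at heq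
      exact hx.saw.inj i j hij h heq
    · rcases le_or_gt i m with h' | h'
      · have h1 := hlevx i h'
        obtain ⟨k, rfl⟩ : ∃ k, j = m + k := ⟨j - m, by omega⟩
        have h2 := hlevy k (by omega) (by omega)
        have h3 : lev L (cat m ξ η) i = lev L (cat m ξ η) (m + k) := by
          unfold lev; rw [heq]
        omega
      · obtain ⟨k, rfl⟩ : ∃ k, j = m + k := ⟨j - m, by omega⟩
        obtain ⟨l, rfl⟩ : ∃ l, i = m + l := ⟨i - m, by omega⟩
        rw [P_cat_add, P_cat_add] at heq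
        exact hy.saw.inj l k (by omega) (by omega) (add_left_cancel heq)
  · intro i h1 h2
    rcases le_or_gt i m with h | h
    · rw [tA2_lev_cat_le L m ξ η h]
      exact hx.pos i h1 h
    · obtain ⟨k, rfl⟩ : ∃ k, i = m + k := ⟨i - m, by omega⟩
      have := hlevy k (by omega) (by omega)
      omega
  · intro i hi
    rw [tA2_lev_cat_add L m ξ η n]
    rcases le_or_gt i m with h | h
    · have := hlevx i h
      omega
    · obtain ⟨k, rfl⟩ : ∃ k, i = m + k := ⟨i - m, by omega⟩
      rw [tA2_lev_cat_add]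
      have := hy.top k (by omega)
      omega

theorem br_mul (L : Lev Ω) (m n : ℕ) (h k : ℤ) : br L m h * br L n k ≤ br L (m + n) (h + k) := by
  classical
  unfold br
  rw [← Finset.card_product]
  refine Finset.card_le_card_of_injOn (fun p => cat m p.1 p.2) ?_ ?_
  · rintro ⟨ξ, η⟩ hp
    simp only [Finset.coe_product, Set.mem_prod, Finset.mem_coe, Finset.mem_filter,
      mem_SawSet] at hp
    obtain ⟨⟨-, hx, hxh⟩, ⟨-, hy, hyk⟩⟩ := hp
    have hb := tA2_isBr_cat L hx hy
    simp only [Finset.mem_coe, Finset.mem_filter, mem_SawSet]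
    refine ⟨hb.saw, hb, ?_⟩
    rw [tA2_lev_cat_add]
    omega
  · rintro ⟨ξ, η⟩ hp ⟨ξ', η'⟩ hp' heq
    simp only [Finset.coe_product, Set.mem_prod, Finset.mem_coe, Finset.mem_filter,
      mem_SawSet] at hp hp'
    obtain ⟨⟨hx, -, -⟩, ⟨hy, -, -⟩⟩ := hp
    obtain ⟨⟨hx', -, -⟩, ⟨hy', -, -⟩⟩ := hp'
    have heq' : ∀ i, cat m ξ η i = cat m ξ' η' i := fun i => congrFun heq i
    have e1 : ξ = ξ' := by
      funext i
      rcases lt_or_ge i m with hi | hi
      · have := heq' i
        unfold cat at this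
        rwa [if_pos hi, if_pos hi] at this
      · rw [hx.zero i hi, hx'.zero i hi]
    have e2 : η = η' := by
      funext i
      have := heq' (m + i)
      unfold cat at this
      rwa [if_neg (by omega), if_neg (by omega), Nat.add_sub_cancel_left] at this
    rw [e1, e2]

theorem br_pow (L : Lev Ω) (m l : ℕ) (h : ℤ) : (br L m h) ^ l ≤ br L (l * m) (l * h) := by
  classical
  induction l with
  | zero =>
    rw [pow_zero]
    unfold br
    rw [Nat.one_le_iff_ne_zero, ← Nat.pos_iff_ne_zero, Finset.card_pos]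
    refine ⟨fun _ => 0, ?_⟩
    have hs : IsSaw Ω (0 * m) (fun _ => (0 : V)) :=
      ⟨fun i hi => by omega, fun i _ => rfl, fun i j hij hj => by omega⟩
    rw [Finset.mem_filter, mem_SawSet]
    refine ⟨hs, ⟨hs, fun i h1 h2 => by omega, fun i hi => ?_⟩, ?_⟩
    · have h0 : i = 0 := by omega
      subst h0
      simp
    · simp
  | succ l ih =>
    calc (br L m h) ^ (l + 1) = (br L m h) ^ l * br L m h := pow_succ _ _
      _ ≤ br L (l * m) (l * h) * br L m h := Nat.mul_le_mul_right _ ih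
      _ ≤ br L (l * m + m) (l * h + h) := br_mul L _ _ _ _
      _ = br L ((l + 1) * m) ((l + 1 : ℕ) * h) := by
          congr 1
          · ring
          · push_cast; ring

theorem br_le_cc (L : Lev Ω) (N : ℕ) (h : ℤ) : br L N h ≤ cc Ω N := by
  classical
  exact Finset.card_le_card (Finset.filter_subset _ _)

private theorem tA2_cc_zero (Ω : Finset V) : cc Ω 0 ≤ 1 := by
  unfold cc
  rw [Finset.card_le_one]
  intro ξ hξ η hη
  rw [mem_SawSet] at hξ hη
  funext i
  rw [hξ.zero i (Nat.zero_le _), hη.zero i (Nat.zero_le _)]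

theorem br_le_mu_pow (L : Lev Ω) (N : ℕ) (h : ℤ) : (br L N h : ℝ) ≤ mu Ω ^ N := by
  have hmu : 0 < mu Ω := Real.exp_pos _
  rcases Nat.eq_zero_or_pos (br L N h) with h0 | h0
  · rw [h0]; push_cast; positivity
  rcases Nat.eq_zero_or_pos N with hN | hN
  · subst hN
    rw [pow_zero]
    exact_mod_cast (br_le_cc L 0 h).trans (tA2_cc_zero Ω)
  -- the subadditive sequence
  have hcc : ∀ n, (1 : ℝ) ≤ (cc Ω n : ℝ) := fun n => by exact_mod_cast one_le_cc L n
  have hsub : Subadditive (fun n : ℕ => Real.log (cc Ω n)) := by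
    intro m n
    have h1 : ((cc Ω (m + n) : ℕ) : ℝ) ≤ (cc Ω m : ℝ) * (cc Ω n : ℝ) := by
      exact_mod_cast cc_add Ω m n
    have h2 := Real.log_le_log (by linarith [hcc (m + n)]) h1
    rw [Real.log_mul (by linarith [hcc m]) (by linarith [hcc n])] at h2
    exact h2
  have hbdd : BddBelow (Set.range fun n : ℕ => Real.log (cc Ω n) / n) := by
    refine ⟨0, ?_⟩
    rintro _ ⟨n, rfl⟩
    exact div_nonneg (Real.log_nonneg (hcc n)) (Nat.cast_nonneg n)
  have hlim := hsub.tendsto_lim hbdd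
  have hmuE : mu Ω = Real.exp hsub.lim := by
    unfold mu Subadditive.lim
    rfl
  have hsubseq : Filter.Tendsto (fun l : ℕ => (l + 1) * N) Filter.atTop Filter.atTop := by
    refine Filter.tendsto_atTop_mono (fun l => ?_) Filter.tendsto_id
    simp only [id_eq]
    nlinarith
  have hlim2 := hlim.comp hsubseq
  have hbr1 : (0 : ℝ) < (br L N h : ℝ) := by exact_mod_cast h0
  have key : Real.log (br L N h) / N ≤ hsub.lim := by
    refine ge_of_tendsto' hlim2 (fun l => ?_)
    simp only [Function.comp]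
    have h1 : ((br L N h : ℕ) : ℝ) ^ (l + 1) ≤ (cc Ω ((l + 1) * N) : ℝ) := by
      exact_mod_cast (br_pow L N (l + 1) h).trans (br_le_cc L _ _)
    have h2 := Real.log_le_log (by positivity) h1
    rw [Real.log_pow] at h2
    have hNpos : (0 : ℝ) < N := by exact_mod_cast hN
    have hlpos : (0 : ℝ) < (l : ℝ) + 1 := by positivity
    push_cast at h2 ⊢
    rw [div_le_div_iff₀ hNpos (by positivity)]
    nlinarith [h2, hNpos]
  rw [div_le_iff₀ (by exact_mod_cast hN)] at key
  rw [hmuE, ← Real.exp_nat_mul]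
  calc (br L N h : ℝ) = Real.exp (Real.log (br L N h)) := (Real.exp_log hbr1).symm
    _ ≤ Real.exp (N * hsub.lim) := Real.exp_le_exp.mpr (by linarith)

theorem br_anti (L : Lev Ω) (N : ℕ) {h k : ℤ} (hk : h ≤ k) : br L N k ≤ br L N h := by
  classical
  refine Finset.card_le_card (fun ξ hξ => ?_)
  rw [Finset.mem_filter] at hξ ⊢
  exact ⟨hξ.1, hξ.2.1, hk.trans hξ.2.2⟩

theorem br_eq_zero (L : Lev Ω) (N : ℕ) {h : ℤ} (hk : (N : ℤ) < h) : br L N h = 0 := by
  classical
  unfold br
  rw [Finset.card_eq_zero, Finset.filter_eq_empty_iff]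
  rintro ξ hξ ⟨-, hh⟩
  rw [mem_SawSet] at hξ
  have := lev_abs_le L hξ N
  rw [abs_le] at this
  omega

end Pool.Agent.H725R2.SB
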