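import Pool.Agent.H725R2.SB.Defs2

/-! Task B of the sub-ballisticity project. -/

set_option autoImplicit false

namespace Pool.Agent.H725R2.SB

open Finset

variable {V : Type*} [AddCommGroup V] {Ω : Finset V}

/-- mask of a list of times -/
def tB_T (n : ℕ) (D : List ℕ) : Finset ℕ := (range n).filter (fun i => Odd (D.countP (fun d => d ≤ i)))

theorem tB_mem {n : ℕ} {D : List ℕ} {i : ℕ} :
    i ∈ tB_T n D ↔ i < n ∧ Odd (D.countP (fun d => d ≤ i)) := by
  simp [tB_T]

/-- padding a list with entries `n` does not change the mask -/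
theorem tB_pad (n : ℕ) (D : List ℕ) (k : ℕ) : tB_T n (D ++ List.replicate k n) = tB_T n D := by
  ext i
  rw [tB_mem, tB_mem, List.countP_append, List.countP_replicate]
  constructor
  · rintro ⟨h1, h2⟩
    refine ⟨h1, ?_⟩
    rwa [if_neg (by simpa using h1), add_zero] at h2
  · rintro ⟨h1, h2⟩
    refine ⟨h1, ?_⟩
    rwa [if_neg (by simpa using h1), add_zero]

/-- concatenation of walks -/
theorem tB_cat {b m : ℕ} {ξ ζ : ℕ → V} (hξ1 : ∀ i, i < b → ξ i ∈ Ω)
    (hξ2 : ∀ i j, i < j → j ≤ b → P ξ i ≠ P ξ j) (hζ : IsSaw Ω m ζ)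
    (hsep : ∀ i j, i < b → 1 ≤ j → j ≤ m → P ξ i ≠ P ξ b + P ζ j) :
    IsSaw Ω (b + m) (cat b ξ ζ) := by
  refine ⟨fun i hi => ?_, fun i hi => ?_, ?_⟩
  · unfold cat
    split_ifs with h
    · exact hξ1 i h
    · exact hζ.step _ (by omega)
  · unfold cat
    rw [if_neg (by omega)]
    exact hζ.zero _ (by omega)
  · intro i j hij hj
    rcases le_or_gt j b with h1 | h1
    · rw [P_cat_le b ξ ζ (by omega : i ≤ b), P_cat_le b ξ ζ h1]
      exact hξ2 i j hij h1
    · obtain ⟨j', rfl⟩ : ∃ j', j = b + j' := ⟨j - b, by omega⟩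
      rcases lt_or_ge i b with h2 | h2
      · rw [P_cat_le b ξ ζ h2.le, P_cat_add]
        exact hsep i j' h2 (by omega) (by omega)
      · obtain ⟨i', rfl⟩ : ∃ i', i = b + i' := ⟨i - b, by omega⟩
        rw [P_cat_add, P_cat_add]
        intro heq
        exact hζ.inj i' j' (by omega) (by omega) (add_left_cancel heq)

/-- the last time of the maximum -/
theorem tB_lastmax (a : ℕ → ℤ) (n : ℕ) : ∃ b, b ≤ n ∧ (∀ i, i ≤ n → a i ≤ a b) ∧
    ∀ i, b < i → i ≤ n → a i < a b := by
  induction n with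
  | zero => exact ⟨0, le_rfl, fun i hi => by rw [Nat.le_zero.1 hi], fun i h1 h2 => by omega⟩
  | succ n ih =>
    obtain ⟨b, hb, h1, h2⟩ := ih
    rcases le_or_gt (a b) (a (n + 1)) with h | h
    · refine ⟨n + 1, le_rfl, fun i hi => ?_, fun i h3 h4 => by omega⟩
      rcases Nat.lt_or_ge i (n + 1) with h5 | h5
      · exact (h1 i (by omega)).trans h
      · rw [show i = n + 1 by omega]
    · refine ⟨b, by omega, fun i hi => ?_, fun i h3 h4 => ?_⟩
      · rcases Nat.lt_or_ge i (n + 1) with h5 | h5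
        · exact h1 i (by omega)
        · rw [show i = n + 1 by omega]; exact h.le
      · rcases Nat.lt_or_ge i (n + 1) with h5 | h5
        · exact h2 i h3 (by omega)
        · rw [show i = n + 1 by omega]; exact h

/-- the shifted list -/
theorem tB_count_shift (D : List ℕ) (b j : ℕ) :
    (b :: D.map (fun d => d + b)).countP (fun d => decide (d ≤ b + j)) =
      D.countP (fun d => decide (d ≤ j)) + 1 := by
  rw [List.countP_cons, List.countP_map]
  have h1 : List.countP ((fun d => decide (d ≤ b + j)) ∘ fun d => d + b) D =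
      List.countP (fun d => decide (d ≤ j)) D := by
    congr 1
    funext d
    simp only [Function.comp, decide_eq_decide]
    omega
  rw [h1, if_pos (by simp)]

theorem tB_count_lt (D : List ℕ) (b i : ℕ) (hi : i < b) :
    (b :: D.map (fun d => d + b)).countP (fun d => decide (d ≤ i)) = 0 := by
  rw [List.countP_eq_zero]
  intro d hd
  simp only [List.mem_cons, List.mem_map] at hd
  simp only [decide_eq_true_eq, not_le]
  rcases hd with rfl | ⟨d', _, rfl⟩ <;> omega

/-- one unfolding step is a concatenation -/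
theorem tB_step_eq (L : Lev Ω) {n : ℕ} {ξ : ℕ → V} (hξ : IsSaw Ω n ξ) {b : ℕ} (hb : b ≤ n)
    (D : List ℕ) :
    op L.r (tB_T n (b :: D.map (fun d => d + b))) ξ =
      cat b ξ (op L.r (tB_T (n - b) D) (fun i => L.r (ξ (b + i)))) := by
  funext i
  unfold cat
  rcases lt_or_ge i b with h | h
  · rw [if_pos h]
    unfold op
    rw [if_neg]
    rw [tB_mem, tB_count_lt D b i h]
    simp
  · rw [if_neg (by omega)]
    obtain ⟨j, rfl⟩ : ∃ j, i = b + j := ⟨i - b, by omega⟩
    rw [Nat.add_sub_cancel_left]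
    unfold op
    rcases lt_or_ge j (n - b) with h1 | h1
    · by_cases h2 : Odd (D.countP (fun d => decide (d ≤ j)))
      · rw [if_neg, if_pos (tB_mem.2 ⟨h1, h2⟩), L.rr]
        rw [tB_mem, tB_count_shift]
        intro h3
        have := h3.2
        rw [Nat.odd_add_one] at this
        exact this h2
      · rw [if_pos, if_neg]
        · rw [tB_mem]; intro h3; exact h2 h3.2
        · rw [tB_mem, tB_count_shift]
          exact ⟨by omega, Nat.odd_add_one.2 h2⟩
    · have h2 : ξ (b + j) = 0 := hξ.zero _ (by omega)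
      simp [h2]

/-- properties of the unfolded walk, given the unfolded rest -/
theorem tB_step (L : Lev Ω) {n : ℕ} {ξ : ℕ → V} (hξ : IsSaw Ω n ξ) {b : ℕ} (hb : b ≤ n)
    (hmax : ∀ i, i ≤ n → lev L ξ i ≤ lev L ξ b)
    {ζ : ℕ → V} (hζ : IsSaw Ω (n - b) ζ) (hζ1 : ∀ i, 1 ≤ i → i ≤ n - b → 0 < lev L ζ i)
    (hζ2 : ∀ i, i ≤ n - b → lev L ζ i ≤ lev L ζ (n - b)) :
    IsSaw Ω n (cat b ξ ζ) ∧ (∀ i, i ≤ n → lev L (cat b ξ ζ) i ≤ lev L (cat b ξ ζ) n) ∧
      (∀ i, i ≤ n → lev L ξ i ≤ lev L (cat b ξ ζ) i) := by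
  have hlev1 : ∀ i, i ≤ b → lev L (cat b ξ ζ) i = lev L ξ i := by
    intro i hi
    unfold lev
    rw [P_cat_le b ξ ζ hi]
  have hlev2 : ∀ i, lev L (cat b ξ ζ) (b + i) = lev L ξ b + lev L ζ i := by
    intro i
    unfold lev
    rw [P_cat_add, map_add]
  have hge : ∀ i, i ≤ n - b → 0 ≤ lev L ζ i := by
    intro i hi
    rcases Nat.eq_zero_or_pos i with h | h
    · rw [h, lev_zero]
    · exact (hζ1 i h hi).le
  refine ⟨?_, ?_, ?_⟩
  · have := tB_cat (Ω := Ω) (b := b) (m := n - b) (ξ := ξ) (ζ := ζ)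
      (fun i hi => hξ.step i (by omega)) (fun i j hij hj => hξ.inj i j hij (by omega)) hζ ?_
    · rwa [Nat.add_sub_cancel' hb] at this
    · intro i j hi hj1 hj2 heq
      have h1 := hmax i (by omega)
      have h2 := hζ1 j hj1 hj2
      have h3 : lev L ξ i = lev L ξ b + lev L ζ j := by
        unfold lev; rw [heq, map_add]
      omega
  · intro i hi
    have hn : lev L (cat b ξ ζ) n = lev L ξ b + lev L ζ (n - b) := by
      rw [← hlev2, Nat.add_sub_cancel' hb]
    rw [hn]
    rcases le_or_gt i b with h | h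
    · rw [hlev1 i h]
      have := hmax i hi
      have := hge (n - b) le_rfl
      omega
    · obtain ⟨j, rfl⟩ : ∃ j, i = b + j := ⟨i - b, by omega⟩
      rw [hlev2]
      have := hζ2 j (by omega)
      omega
  · intro i hi
    rcases le_or_gt i b with h | h
    · rw [hlev1 i h]
    · obtain ⟨j, rfl⟩ : ∃ j, i = b + j := ⟨i - b, by omega⟩
      rw [hlev2]
      have := hmax (b + j) hi
      have := hge j (by omega)
      omega

/-- levels of the reflected rest -/
theorem tB_rest (L : Lev Ω) (ξ : ℕ → V) (b i : ℕ) :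
    lev L (fun i => L.r (ξ (b + i))) i = lev L ξ b - lev L ξ (b + i) := by
  rw [lev_map_r, lev_add]
  ring

/-- half space walks -/
theorem tB_half (L : Lev Ω) : ∀ (n : ℕ) (ξ : ℕ → V), IsSaw Ω n ξ →
    (∀ i, 1 ≤ i → i ≤ n → 0 < lev L ξ i) → ∀ S : ℕ, (∀ i, i ≤ n → lev L ξ i ≤ S) →
    ∃ D : List ℕ, D.length ≤ S ∧ D.length * (D.length + 1) ≤ 2 * n ∧ (∀ d ∈ D, d ≤ n) ∧
      IsSaw Ω n (op L.r (tB_T n D) ξ) ∧
      (∀ i, i ≤ n → lev L (op L.r (tB_T n D) ξ) i ≤ lev L (op L.r (tB_T n D) ξ) n) ∧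
      (∀ i, i ≤ n → lev L ξ i ≤ lev L (op L.r (tB_T n D) ξ) i) := by
  intro n
  induction n using Nat.strong_induction_on with
  | _ n ih =>
  intro ξ hξ hpos S hS
  obtain ⟨b, hb, hmax, hlast⟩ := tB_lastmax (lev L ξ) n
  rcases Nat.lt_or_ge b n with hbn | hbn
  · -- `b < n`
    have hb0 : 0 < b := by
      rcases Nat.eq_zero_or_pos b with h | h
      · exfalso
        have h1 := hmax 1 (by omega)
        have h2 := hpos 1 le_rfl (by omega)
        rw [h, lev_zero] at h1
        omega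
      · exact h
    have hηsaw : IsSaw Ω (n - b) (fun i => L.r (ξ (b + i))) := (hξ.suf hb).map L.r L.rΩ
    have hbS := hS b hb
    have hbpos := hpos b hb0 hb
    obtain ⟨S0, hS0⟩ : ∃ S0 : ℕ, lev L ξ b = S0 := ⟨(lev L ξ b).toNat, by omega⟩
    have hbb := lev_abs_le L hξ b
    rw [abs_le] at hbb
    obtain ⟨D, hD1, hD2, hD3, hD4, hD5, hD6⟩ := ih (n - b) (by omega)
      (fun i => L.r (ξ (b + i))) hηsaw
      (fun i h1 h2 => by
        rw [tB_rest]
        have := hlast (b + i) (by omega) (by omega)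
        omega) (S0 - 1)
      (fun i hi => by
        rw [tB_rest]
        rcases Nat.eq_zero_or_pos i with h | h
        · subst h
          simp
        · have := hpos (b + i) (by omega) (by omega)
          omega)
    refine ⟨b :: D.map (fun d => d + b), ?_, ?_, ?_, ?_⟩
    · simp only [List.length_cons, List.length_map]
      omega
    · simp only [List.length_cons, List.length_map]
      have h1 : D.length + 1 ≤ b := by omega
      have h2 : (D.length + 1) * (D.length + 1 + 1) =
          D.length * (D.length + 1) + 2 * (D.length + 1) := by ring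
      rw [h2]
      omega
    · intro d hd
      simp only [List.mem_cons, List.mem_map] at hd
      rcases hd with rfl | ⟨d', hd', rfl⟩
      · exact hb
      · have := hD3 d' hd'
        omega
    · rw [tB_step_eq L hξ hb]
      refine tB_step L hξ hb hmax hD4 ?_ hD5
      intro i h1 h2
      refine lt_of_lt_of_le ?_ (hD6 i h2)
      rw [tB_rest]
      have := hlast (b + i) (by omega) (by omega)
      omega
  · -- `b = n`
    have hbn' : b = n := by omega
    subst hbn'
    have hT : tB_T b ([] : List ℕ) = ∅ := by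
      ext i
      rw [tB_mem]
      simp
    have hop : op L.r (tB_T b ([] : List ℕ)) ξ = ξ := by
      funext i
      rw [hT]
      simp [op]
    refine ⟨[], by simp, by simp, by simp, ?_⟩
    rw [hop]
    exact ⟨hξ, hmax, fun i _ => le_rfl⟩

/-- all walks -/
theorem tB_all (L : Lev Ω) (n : ℕ) (ξ : ℕ → V) (hξ : IsSaw Ω n ξ) :
    ∃ D : List ℕ, D.length ≤ Nat.sqrt (2 * n) + 1 ∧ (∀ d ∈ D, d ≤ n) ∧
      IsSaw Ω n (op L.r (tB_T n D) ξ) ∧
      (∀ i, i ≤ n → lev L (op L.r (tB_T n D) ξ) i ≤ lev L (op L.r (tB_T n D) ξ) n) ∧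
      (∀ i, i ≤ n → lev L ξ i ≤ lev L (op L.r (tB_T n D) ξ) i) := by
  obtain ⟨b, hb, hmax, hlast⟩ := tB_lastmax (lev L ξ) n
  have hηsaw : IsSaw Ω (n - b) (fun i => L.r (ξ (b + i))) := (hξ.suf hb).map L.r L.rΩ
  obtain ⟨D, hD1, hD2, hD3, hD4, hD5, hD6⟩ := tB_half L (n - b) (fun i => L.r (ξ (b + i))) hηsaw
      (fun i h1 h2 => by
        rw [tB_rest]
        have := hlast (b + i) (by omega) (by omega)
        omega) (2 * n)
      (fun i hi => by
        rw [tB_rest]
        have h1 := lev_abs_le L hξ b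
        have h2 := lev_abs_le L hξ (b + i)
        rw [abs_le] at h1 h2
        push_cast at h2 ⊢
        omega)
  refine ⟨b :: D.map (fun d => d + b), ?_, ?_, ?_⟩
  · simp only [List.length_cons, List.length_map]
    have : D.length ≤ Nat.sqrt (2 * n) := by
      rw [Nat.le_sqrt]
      nlinarith [Nat.sub_le n b]
    omega
  · intro d hd
    simp only [List.mem_cons, List.mem_map] at hd
    rcases hd with rfl | ⟨d', hd', rfl⟩
    · exact hb
    · have := hD3 d' hd'
      omega
  · rw [tB_step_eq L hξ hb]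
    refine tB_step L hξ hb hmax hD4 ?_ hD5
    intro i h1 h2
    refine lt_of_lt_of_le ?_ (hD6 i h2)
    rw [tB_rest]
    have := hlast (b + i) (by omega) (by omega)
    omega

/-- the counting lemma -/
theorem tB_count (L : Lev Ω) (n K : ℕ) (A B : Finset (ℕ → V))
    (h : ∀ ξ ∈ A, ∃ D : List ℕ, D.length ≤ K ∧ (∀ d ∈ D, d ≤ n) ∧ op L.r (tB_T n D) ξ ∈ B) :
    A.card ≤ (n + 1) ^ K * B.card := by
  classical
  let F : (Fin K → Fin (n + 1)) → Finset (ℕ → V) := fun f =>
    B.image (op L.r (tB_T n (List.ofFn (fun k => (f k : ℕ)))))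
  have hsub : A ⊆ (Finset.univ : Finset (Fin K → Fin (n + 1))).biUnion F := by
    intro ξ hξ
    obtain ⟨D, hD1, hD2, hD3⟩ := h ξ hξ
    set D' := D ++ List.replicate (K - D.length) n with hD'
    have hlen : D'.length = K := by
      rw [hD', List.length_append, List.length_replicate]
      omega
    have hle : ∀ d ∈ D', d ≤ n := by
      intro d hd
      rw [hD', List.mem_append, List.mem_replicate] at hd
      rcases hd with hd | ⟨_, rfl⟩
      · exact hD2 d hd
      · exact le_rfl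
    let f : Fin K → Fin (n + 1) := fun k => ⟨D'.get ⟨k, by rw [hlen]; exact k.2⟩,
      Nat.lt_succ_of_le (hle _ (List.get_mem _ _))⟩
    have hf : List.ofFn (fun k => (f k : ℕ)) = D' := by
      apply List.ext_get
      · rw [List.length_ofFn, hlen]
      · intro i h1 h2
        simp [f]
    rw [Finset.mem_biUnion]
    refine ⟨f, Finset.mem_univ _, ?_⟩
    simp only [F, hf]
    rw [hD', tB_pad, Finset.mem_image]
    exact ⟨_, hD3, op_involutive L.rr _ _⟩
  calc A.card ≤ ((Finset.univ : Finset (Fin K → Fin (n + 1))).biUnion F).card :=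
        Finset.card_le_card hsub
    _ ≤ ∑ f : Fin K → Fin (n + 1), (F f).card := Finset.card_biUnion_le
    _ ≤ ∑ _f : Fin K → Fin (n + 1), B.card := Finset.sum_le_sum (fun f _ => Finset.card_image_le)
    _ = (n + 1) ^ K * B.card := by
        rw [Finset.sum_const, Finset.card_univ, Fintype.card_fun, Fintype.card_fin,
          Fintype.card_fin, smul_eq_mul]

/-- reversal of a walk -/
def tB_rev (n : ℕ) (ξ : ℕ → V) : ℕ → V := fun i => if i < n then ξ (n - 1 - i) else 0

theorem tB_P_rev (n : ℕ) (ξ : ℕ → V) {i : ℕ} (hi : i ≤ n) :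
    P (tB_rev n ξ) i = P ξ n - P ξ (n - i) := by
  induction i with
  | zero => simp
  | succ i ih =>
    rw [P_succ, ih (by omega)]
    unfold tB_rev
    rw [if_pos (by omega)]
    have h1 : P ξ (n - i) = P ξ (n - (i + 1)) + ξ (n - 1 - i) := by
      rw [show n - i = (n - (i + 1)) + 1 by omega, P_succ, show n - 1 - i = n - (i + 1) by omega]
    rw [h1]
    abel

theorem tB_rev_saw {n : ℕ} {ξ : ℕ → V} (h : IsSaw Ω n ξ) : IsSaw Ω n (tB_rev n ξ) := by
  refine ⟨fun i hi => ?_, fun i hi => ?_, ?_⟩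
  · unfold tB_rev
    rw [if_pos hi]
    exact h.step _ (by omega)
  · unfold tB_rev
    rw [if_neg (by omega)]
  · intro i j hij hj heq
    rw [tB_P_rev n ξ (by omega), tB_P_rev n ξ hj] at heq
    have h1 : P ξ (n - i) = P ξ (n - j) := sub_right_injective heq
    exact h.inj (n - j) (n - i) (by omega) (by omega) h1.symm

theorem tB_rev_rev {n : ℕ} {ξ : ℕ → V} (h : IsSaw Ω n ξ) : tB_rev n (tB_rev n ξ) = ξ := by
  funext i
  unfold tB_rev
  rcases lt_or_ge i n with hi | hi
  · rw [if_pos hi, if_pos (by omega)]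
    congr 1
    omega
  · rw [if_neg (by omega), h.zero i hi]

theorem tB_lev_rev (L : Lev Ω) (n : ℕ) (ξ : ℕ → V) {i : ℕ} (hi : i ≤ n) :
    lev L (tB_rev n ξ) i = lev L ξ n - lev L ξ (n - i) := by
  unfold lev
  rw [tB_P_rev n ξ hi, map_sub]

theorem hw (L : Lev Ω) (n : ℕ) (h : ℤ) :
    cge L n h ≤ (n + 1) ^ (2 * (Nat.sqrt (2 * n) + 1)) * br L (n + 1) h := by
  classical
  set K := Nat.sqrt (2 * n) + 1 with hK
  set B : Finset (ℕ → V) := (SawSet Ω n).filter
    (fun ξ => (∀ i, i ≤ n → lev L ξ i ≤ lev L ξ n) ∧ h ≤ lev L ξ n) with hB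
  set B' : Finset (ℕ → V) := (SawSet Ω n).filter
    (fun ξ => (∀ i, i ≤ n → 0 ≤ lev L ξ i) ∧ h ≤ lev L ξ n) with hB'
  set C : Finset (ℕ → V) := (SawSet Ω n).filter
    (fun ξ => (∀ i, i ≤ n → 0 ≤ lev L ξ i ∧ lev L ξ i ≤ lev L ξ n) ∧ h ≤ lev L ξ n) with hC
  have h1 : cge L n h ≤ (n + 1) ^ K * B.card := by
    unfold cge
    refine tB_count L n K _ _ ?_
    intro ξ hξ
    rw [Finset.mem_filter, mem_SawSet] at hξ
    obtain ⟨D, hD1, hD2, hD3, hD4, hD5⟩ := tB_all L n ξ hξ.1
    refine ⟨D, hD1, hD2, ?_⟩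
    rw [hB, Finset.mem_filter, mem_SawSet]
    exact ⟨hD3, hD4, hξ.2.trans (hD5 n le_rfl)⟩
  have h2 : B.card ≤ B'.card := by
    refine Finset.card_le_card_of_injOn (tB_rev n) ?_ ?_
    · intro ξ hξ
      rw [Finset.mem_coe, hB, Finset.mem_filter, mem_SawSet] at hξ
      rw [Finset.mem_coe, hB', Finset.mem_filter, mem_SawSet]
      refine ⟨tB_rev_saw hξ.1, ?_, ?_⟩
      · intro i hi
        rw [tB_lev_rev L n ξ hi]
        have := hξ.2.1 (n - i) (by omega)
        omega
      · rw [tB_lev_rev L n ξ le_rfl, Nat.sub_self, lev_zero, sub_zero]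
        exact hξ.2.2
    · intro ξ hξ ξ' hξ' heq
      rw [Finset.mem_coe, hB, Finset.mem_filter, mem_SawSet] at hξ hξ'
      have := congrArg (tB_rev n) heq
      rwa [tB_rev_rev hξ.1, tB_rev_rev hξ'.1] at this
  have h3 : B'.card ≤ (n + 1) ^ K * C.card := by
    refine tB_count L n K _ _ ?_
    intro ξ hξ
    rw [hB', Finset.mem_filter, mem_SawSet] at hξ
    obtain ⟨D, hD1, hD2, hD3, hD4, hD5⟩ := tB_all L n ξ hξ.1
    refine ⟨D, hD1, hD2, ?_⟩
    rw [hC, Finset.mem_filter, mem_SawSet]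
    exact ⟨hD3, fun i hi => ⟨(hξ.2.1 i hi).trans (hD5 i hi), hD4 i hi⟩,
      hξ.2.2.trans (hD5 n le_rfl)⟩
  have h4 : C.card ≤ br L (n + 1) h := by
    unfold br
    refine Finset.card_le_card_of_injOn (fun ζ => cat 1 (fun _ => L.e) ζ) ?_ ?_
    · intro ζ hζ
      rw [Finset.mem_coe, hC, Finset.mem_filter, mem_SawSet] at hζ
      rw [Finset.mem_coe, Finset.mem_filter, mem_SawSet]
      have hP1 : P (fun _ : ℕ => L.e) 1 = L.e := by simp [P]
      have hlev0 : ∀ i, lev L (cat 1 (fun _ => L.e) ζ) (1 + i) = 1 + lev L ζ i := by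
        intro i
        unfold lev
        rw [P_cat_add, map_add, hP1, L.Fe]
      have hsaw : IsSaw Ω (n + 1) (cat 1 (fun _ => L.e) ζ) := by
        rw [add_comm]
        refine tB_cat (fun i _ => L.eΩ) ?_ hζ.1 ?_
        · intro i j hij hj heq
          have hi : i = 0 := by omega
          have hj' : j = 1 := by omega
          subst hi hj'
          rw [hP1, P_zero] at heq
          have := L.Fe
          rw [← heq, map_zero] at this
          exact absurd this (by norm_num)
        · intro i j hi hj1 hj2 heq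
          have hi : i = 0 := by omega
          subst hi
          rw [hP1, P_zero] at heq
          have h5 : L.F (0 : V) = L.F (L.e + P ζ j) := by rw [← heq]
          rw [map_zero, map_add, L.Fe] at h5
          have h6 : 0 ≤ lev L ζ j := (hζ.2.1 j hj2).1
          unfold lev at h6
          omega
      refine ⟨hsaw, ⟨hsaw, ?_, ?_⟩, ?_⟩
      · intro i h5 h6
        obtain ⟨j, rfl⟩ : ∃ j, i = 1 + j := ⟨i - 1, by omega⟩
        rw [hlev0]
        have := (hζ.2.1 j (by omega)).1
        omega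
      · intro i hi
        rw [show n + 1 = 1 + n by omega, hlev0]
        rcases Nat.eq_zero_or_pos i with h5 | h5
        · rw [h5, lev_zero]
          have := (hζ.2.1 n le_rfl).1
          omega
        · obtain ⟨j, rfl⟩ : ∃ j, i = 1 + j := ⟨i - 1, by omega⟩
          rw [hlev0]
          have := (hζ.2.1 j (by omega)).2
          omega
      · rw [show n + 1 = 1 + n by omega, hlev0]
        have := hζ.2.2
        omega
    · intro ζ _ ζ' _ heq
      funext i
      have := congrFun heq (1 + i)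
      simpa [cat] using this
  calc cge L n h ≤ (n + 1) ^ K * B.card := h1
    _ ≤ (n + 1) ^ K * ((n + 1) ^ K * br L (n + 1) h) := by
        refine Nat.mul_le_mul_left _ ?_
        exact h2.trans (h3.trans (Nat.mul_le_mul_left _ h4))
    _ = (n + 1) ^ (2 * K) * br L (n + 1) h := by
        clear_value K
        rw [two_mul K, pow_add, mul_assoc]

end Pool.Agent.H725R2.SB
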