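import Pool.Agent.H725R2.SB.Defs2

/-! Task C1 of the sub-ballisticity project. -/

set_option autoImplicit false

namespace Pool.Agent.H725R2.SB

open Finset

theorem hwc_le (n : ℕ) : ((n : ℝ) + 1) ^ (2 * (Nat.sqrt (2 * n) + 1)) ≤
    Real.exp (25 * (n : ℝ) ^ (3 / 4 : ℝ)) := by
  rcases Nat.eq_zero_or_pos n with h0 | h0
  · subst h0
    simp
  have hn1 : (1 : ℝ) ≤ n := by exact_mod_cast h0
  have hn0 : (0 : ℝ) < n := by linarith
  set x : ℝ := (n : ℝ) ^ (1 / 4 : ℝ) with hx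
  have hx1 : 1 ≤ x := Real.one_le_rpow hn1 (by norm_num)
  have hx0 : 0 < x := by linarith
  have hx4 : x ^ 4 = n := by
    rw [hx, ← Real.rpow_natCast, ← Real.rpow_mul hn0.le]
    norm_num
  have hx3 : (n : ℝ) ^ (3 / 4 : ℝ) = x ^ 3 := by
    rw [hx, ← Real.rpow_natCast, ← Real.rpow_mul hn0.le]
    norm_num
  have hs : (Nat.sqrt (2 * n) : ℝ) ≤ 1.4143 * x ^ 2 := by
    have h1 : (Nat.sqrt (2 * n) : ℝ) ^ 2 ≤ 2 * n := by
      have := Nat.sqrt_le' (2 * n)
      exact_mod_cast this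
    apply le_of_sq_le_sq _ (by positivity)
    rw [← hx4] at h1
    nlinarith [sq_nonneg (x ^ 2)]
  have hlog : Real.log ((n : ℝ) + 1) ≤ 4 * x := by
    have h1 : (n : ℝ) + 1 ≤ 2 * x ^ 4 := by rw [hx4]; linarith
    have h2 : Real.log ((n : ℝ) + 1) ≤ Real.log (2 * x ^ 4) := Real.log_le_log (by positivity) h1
    rw [Real.log_mul (by norm_num) (by positivity), Real.log_pow] at h2
    have h3 := Real.log_two_lt_d9
    have h4 := Real.log_le_sub_one_of_pos hx0
    push_cast at h2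
    linarith
  rw [← Real.log_le_log_iff (by positivity) (Real.exp_pos _), Real.log_exp, Real.log_pow, hx3]
  push_cast
  have hlog0 : 0 ≤ Real.log ((n : ℝ) + 1) := Real.log_nonneg (by linarith)
  calc (2 * ((Nat.sqrt (2 * n) : ℝ) + 1)) * Real.log ((n : ℝ) + 1)
      ≤ (2 * (1.4143 * x ^ 2 + x ^ 2)) * (4 * x) := by
        apply mul_le_mul _ hlog hlog0 (by positivity)
        have : 1 ≤ x ^ 2 := one_le_pow₀ hx1
        linarith
    _ = 19.3144 * x ^ 3 := by ring
    _ ≤ 25 * x ^ 3 := by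
        have : 0 ≤ x ^ 3 := by positivity
        linarith

end Pool.Agent.H725R2.SB
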