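import Pool.Agent.H725R2.SB.TA2
import Pool.Agent.H725R2.SB.TB
import Pool.Agent.H725R2.SB.TC1

/-! Task C2 of the sub-ballisticity project. -/

set_option autoImplicit false

namespace Pool.Agent.H725R2.SB

open Finset

variable {V : Type*} [AddCommGroup V] {Ω : Finset V}

theorem cge_le (L : Lev Ω) (n : ℕ) (h : ℤ) :
    (cge L n h : ℝ) ≤ Real.exp (25 * (n : ℝ) ^ (3 / 4 : ℝ)) * br L (n + 1) h := by
  have h1 : (cge L n h : ℝ) ≤ ((n : ℝ) + 1) ^ (2 * (Nat.sqrt (2 * n) + 1)) * br L (n + 1) h := by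
    exact_mod_cast hw L n h
  exact h1.trans (mul_le_mul_of_nonneg_right (hwc_le n) (by positivity))

private theorem tC2_cc_eq (L : Lev Ω) (n : ℕ) : cc Ω n = cge L n (-(n : ℤ)) := by
  classical
  unfold cc cge
  congr 1
  ext ξ
  rw [mem_filter, mem_SawSet]
  constructor
  · intro h
    refine ⟨h, ?_⟩
    have := lev_abs_le L h n
    rw [abs_le] at this
    exact this.1
  · exact fun h => h.1

theorem cc_le (L : Lev Ω) (n : ℕ) :
    (cc Ω n : ℝ) ≤ Real.exp (25 * (n : ℝ) ^ (3 / 4 : ℝ)) * mu Ω ^ (n + 1) := by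
  rw [tC2_cc_eq L n]
  exact (cge_le L n _).trans (mul_le_mul_of_nonneg_left (br_le_mu_pow L (n + 1) _) (by positivity))

theorem mu_pow_le_br (L : Lev Ω) (n : ℕ) :
    mu Ω ^ n ≤ Real.exp (25 * (n : ℝ) ^ (3 / 4 : ℝ)) * br L (n + 1) 0 := by
  classical
  refine (mu_pow_le_cc L n).trans ?_
  rw [tC2_cc_eq L n]
  refine (cge_le L n _).trans (mul_le_mul_of_nonneg_left ?_ (by positivity))
  have : br L (n + 1) (-(n : ℤ)) ≤ br L (n + 1) 0 := by
    unfold br
    apply card_le_card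
    intro ξ hξ
    rw [mem_filter] at hξ ⊢
    exact ⟨hξ.1, hξ.2.1, (hξ.2.1.pos (n + 1) (by omega) le_rfl).le⟩
  exact_mod_cast this

theorem force (L : Lev Ω) {s m : ℝ} (hs : 0 < s) (hm : 0 ≤ m)
    (H : ∀ (T : ℕ) (h : ℤ), s * T ≤ h → (br L T h : ℝ) ≤ mu Ω ^ T * Real.exp (-m * T)) :
    ∀ (T : ℕ) (h : ℤ), (br L T h : ℝ) ≤ mu Ω ^ T * Real.exp (-(m / s) * (h - s * T)) := by
  intro T h
  have hmu1 : 1 ≤ mu Ω := one_le_mu L
  have hmu0 : 0 < mu Ω := by linarith
  rcases le_or_gt (h : ℝ) (s * T) with hcase | hcase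
  · have h1 : 0 ≤ -(m / s) * (h - s * T) := by
      have : 0 ≤ m / s := by positivity
      nlinarith
    calc (br L T h : ℝ) ≤ mu Ω ^ T := br_le_mu_pow L T h
      _ = mu Ω ^ T * 1 := by ring
      _ ≤ _ := mul_le_mul_of_nonneg_left (Real.one_le_exp h1) (by positivity)
  rcases Nat.eq_zero_or_pos (br L T h) with hb0 | hbpos
  · rw [hb0, Nat.cast_zero]
    positivity
  have hb1 : (1 : ℝ) ≤ br L T h := by exact_mod_cast hbpos
  have hb0 : (0 : ℝ) < br L T h := by linarith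
  set b : ℝ := (br L T h : ℝ) with hb
  set c : ℝ := (h - s * T) / s with hc
  have hc0 : 0 < c := by rw [hc]; apply div_pos _ hs; linarith
  have hlogmu : 0 ≤ Real.log (mu Ω) := Real.log_nonneg hmu1
  -- main inequality
  have key : ∀ l : ℕ, 1 ≤ (l : ℝ) * c → (l : ℝ) * Real.log b ≤
      l * (T * Real.log (mu Ω) - m * h / s) + (Real.log (mu Ω) + m) +
        25 * ((l : ℝ) * c) ^ (3 / 4 : ℝ) := by
    intro l hl
    set n := ⌊(l : ℝ) * c⌋₊ with hn
    have hn1 : 1 ≤ n := Nat.le_floor (by simpa using hl)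
    have hnle : (n : ℝ) ≤ l * c := Nat.floor_le (by positivity)
    have hnge : (l : ℝ) * c - 1 ≤ n := by
      have := Nat.lt_floor_add_one ((l : ℝ) * c)
      linarith
    have e1 : br L T h ^ l * br L n 0 ≤ br L (l * T + n) (l * h) := by
      calc br L T h ^ l * br L n 0 ≤ br L (l * T) (l * h) * br L n 0 :=
            Nat.mul_le_mul_right _ (br_pow L T l h)
        _ ≤ br L (l * T + n) (l * h + 0) := br_mul L _ _ _ _
        _ = _ := by rw [add_zero]
    have e2 := H (l * T + n) (l * h) (by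
      push_cast
      have : s * (n : ℝ) ≤ s * (l * c) := mul_le_mul_of_nonneg_left hnle hs.le
      have e : s * (l * c) = l * (h - s * T) := by rw [hc]; field_simp
      nlinarith)
    have e3 : b ^ l * (br L n 0 : ℝ) ≤ mu Ω ^ (l * T + n) * Real.exp (-m * ((l * T + n : ℕ) : ℝ)) := by
      refine le_trans ?_ e2
      rw [hb]
      exact_mod_cast e1
    have e4 : mu Ω ^ (n - 1) ≤ Real.exp (25 * ((l : ℝ) * c) ^ (3 / 4 : ℝ)) * br L n 0 := by
      have h1 := mu_pow_le_br L (n - 1)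
      rw [Nat.sub_add_cancel hn1] at h1
      refine h1.trans (mul_le_mul_of_nonneg_right ?_ (by positivity))
      apply Real.exp_le_exp.mpr
      apply mul_le_mul_of_nonneg_left _ (by norm_num)
      apply Real.rpow_le_rpow (by positivity) _ (by norm_num)
      refine le_trans ?_ hnle
      exact_mod_cast Nat.sub_le n 1
    have e5 : b ^ l * mu Ω ^ (n - 1) ≤ Real.exp (25 * ((l : ℝ) * c) ^ (3 / 4 : ℝ)) *
        (mu Ω ^ (l * T + n) * Real.exp (-m * ((l * T + n : ℕ) : ℝ))) := by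
      calc b ^ l * mu Ω ^ (n - 1) ≤ b ^ l *
            (Real.exp (25 * ((l : ℝ) * c) ^ (3 / 4 : ℝ)) * br L n 0) :=
            mul_le_mul_of_nonneg_left e4 (by positivity)
        _ = Real.exp (25 * ((l : ℝ) * c) ^ (3 / 4 : ℝ)) * (b ^ l * br L n 0) := by ring
        _ ≤ _ := mul_le_mul_of_nonneg_left e3 (by positivity)
    have e6 := Real.log_le_log (by positivity) e5
    rw [Real.log_mul (by positivity) (by positivity), Real.log_mul (by positivity) (by positivity),
      Real.log_mul (by positivity) (by positivity), Real.log_exp, Real.log_exp, Real.log_pow,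
      Real.log_pow, Real.log_pow, Nat.cast_sub hn1] at e6
    push_cast at e6
    have e7 : m * ((l : ℝ) * c - 1) ≤ m * n := mul_le_mul_of_nonneg_left hnge hm
    have e8 : m * ((l : ℝ) * c) = l * (m * h / s) - l * (m * T) := by
      rw [hc]; field_simp
    nlinarith
  -- limit
  have hfin : Real.log b ≤ T * Real.log (mu Ω) - m * h / s := by
    by_contra hcon
    push Not at hcon
    set δ := Real.log b - (T * Real.log (mu Ω) - m * h / s) with hδ
    have hδ0 : 0 < δ := by rw [hδ]; linarith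
    set K := (Real.log (mu Ω) + m) + 25 * c ^ (3 / 4 : ℝ) with hK
    have hK0 : 0 ≤ K := by positivity
    obtain ⟨k, hk⟩ := exists_nat_gt (max (K / δ) (max 1 (1 / c)))
    have hk1 : K / δ < k := lt_of_le_of_lt (le_max_left _ _) hk
    have hk2 : 1 < (k : ℝ) := lt_of_le_of_lt ((le_max_left _ _).trans (le_max_right _ _)) hk
    have hk3 : 1 / c < (k : ℝ) := lt_of_le_of_lt ((le_max_right _ _).trans (le_max_right _ _)) hk
    have hk0 : (0 : ℝ) < k := by linarith
    have h1 : 1 ≤ ((k ^ 4 : ℕ) : ℝ) * c := by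
      rw [div_lt_iff₀ hc0] at hk3
      have : (k : ℝ) ≤ ((k ^ 4 : ℕ) : ℝ) := by
        push_cast
        calc (k : ℝ) = (k : ℝ) ^ 1 := by ring
          _ ≤ (k : ℝ) ^ 4 := pow_le_pow_right₀ hk2.le (by norm_num)
      nlinarith
    have h2 := key (k ^ 4) h1
    have h3 : (((k ^ 4 : ℕ) : ℝ) * c) ^ (3 / 4 : ℝ) = (k : ℝ) ^ 3 * c ^ (3 / 4 : ℝ) := by
      rw [Real.mul_rpow (by positivity) hc0.le]
      congr 1
      push_cast
      rw [← Real.rpow_natCast (k : ℝ) 4, ← Real.rpow_mul hk0.le, ← Real.rpow_natCast (k : ℝ) 3]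
      norm_num
    rw [h3] at h2
    push_cast at h2
    have h4 : (k : ℝ) ^ 4 * δ ≤ (Real.log (mu Ω) + m) + 25 * ((k : ℝ) ^ 3 * c ^ (3 / 4 : ℝ)) := by
      rw [hδ]
      linarith
    have h5 : 1 ≤ (k : ℝ) ^ 3 := one_le_pow₀ hk2.le
    have h6 : (Real.log (mu Ω) + m) ≤ (k : ℝ) ^ 3 * (Real.log (mu Ω) + m) :=
      le_mul_of_one_le_left (by positivity) h5
    have h7 : (k : ℝ) ^ 3 * (k * δ) ≤ (k : ℝ) ^ 3 * K := by
      rw [hK]
      calc (k : ℝ) ^ 3 * (k * δ) = (k : ℝ) ^ 4 * δ := by ring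
        _ ≤ _ := h4
        _ ≤ _ := by linarith
    have h8 : k * δ ≤ K := le_of_mul_le_mul_left h7 (by positivity)
    rw [div_lt_iff₀ hδ0] at hk1
    linarith
  have hfin2 : Real.log b ≤ Real.log (mu Ω ^ T * Real.exp (-(m / s) * (h - s * T))) := by
    rw [Real.log_mul (by positivity) (by positivity), Real.log_pow, Real.log_exp]
    refine hfin.trans ?_
    have e : -(m / s) * ((h : ℝ) - s * T) = - (m * h / s) + m * T := by field_simp; ring
    rw [e]
    have : 0 ≤ m * (T : ℝ) := by positivity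
    linarith
  exact (Real.log_le_log_iff hb0 (by positivity)).mp hfin2

end Pool.Agent.H725R2.SB
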