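import Pool.Agent.H725R2.SB.Defs2

/-! Task E1 of the sub-ballisticity project. -/

set_option autoImplicit false

namespace Pool.Agent.H725R2.SB

open Finset

variable {V : Type*} [AddCommGroup V] {Ω : Finset V}

theorem exists_BT {a : ℕ → ℤ} (ha : ∀ i, |a (i + 1) - a i| ≤ 1) {N : ℕ} {p : ℤ}
    (h0 : a 0 ≤ p) (h1 : p ≤ a N) : ∃ t t', BT a N p t t' := by
  classical
  have hex : ∃ i, p ≤ a i := ⟨N, h1⟩
  set σ := Nat.find hex with hσ
  have hσp : p ≤ a σ := Nat.find_spec hex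
  have hσN : σ ≤ N := Nat.find_min' hex h1
  have hlt : ∀ i, i < σ → a i < p := fun i hi => not_le.mp (Nat.find_min hex hi)
  have hσe : a σ = p := by
    rcases Nat.eq_zero_or_pos σ with h | h
    · rw [h] at hσp ⊢
      exact le_antisymm h0 hσp
    · have h2 := hlt (σ - 1) (by omega)
      have h3 := ha (σ - 1)
      rw [Nat.sub_add_cancel h, abs_le] at h3
      omega
  obtain ⟨t0, ht0, hmin⟩ := exists_min_image (Icc σ N) a ⟨σ, mem_Icc.mpr ⟨le_rfl, hσN⟩⟩
  set T' := (Icc σ N).filter (fun i => a i = a t0) with hT'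
  have hT'ne : T'.Nonempty := ⟨t0, by rw [hT', mem_filter]; exact ⟨ht0, rfl⟩⟩
  set t' := T'.max' hT'ne with ht'
  have ht'm : t' ∈ T' := max'_mem _ _
  have ht'1 : t' ∈ Icc σ N ∧ a t' = a t0 := by rw [hT', mem_filter] at ht'm; exact ht'm
  have ht'2 := mem_Icc.mp ht'1.1
  have hlo : ∀ i, σ ≤ i → i ≤ N → a t' ≤ a i := fun i h2 h3 => by
    rw [ht'1.2]; exact hmin i (mem_Icc.mpr ⟨h2, h3⟩)
  have hlo' : ∀ i, t' < i → i ≤ N → a t' < a i := by
    intro i h2 h3
    refine lt_of_le_of_ne (hlo i (by omega) h3) ?_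
    intro heq
    have : i ∈ T' := by
      rw [hT', mem_filter, mem_Icc]
      exact ⟨⟨by omega, h3⟩, by rw [← heq, ht'1.2]⟩
    have := le_max' T' i this
    omega
  obtain ⟨s0, hs0, hmax⟩ := exists_max_image (Icc 0 t') a ⟨0, mem_Icc.mpr ⟨le_rfl, Nat.zero_le _⟩⟩
  set T := (Icc 0 t').filter (fun i => a i = a s0) with hT
  have hTne : T.Nonempty := ⟨s0, by rw [hT, mem_filter]; exact ⟨hs0, rfl⟩⟩
  set t := T.max' hTne with ht
  have htm : t ∈ T := max'_mem _ _
  have ht1 : t ∈ Icc 0 t' ∧ a t = a s0 := by rw [hT, mem_filter] at htm; exact htm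
  have ht2 := mem_Icc.mp ht1.1
  have hup : ∀ i, i ≤ t' → a i ≤ a t := fun i h3 => by
    rw [ht1.2]; exact hmax i (mem_Icc.mpr ⟨Nat.zero_le _, h3⟩)
  have hup' : ∀ i, t < i → i ≤ t' → a i < a t := by
    intro i h2 h3
    refine lt_of_le_of_ne (hup i h3) ?_
    intro heq
    have : i ∈ T := by
      rw [hT, mem_filter, mem_Icc]
      exact ⟨⟨by omega, h3⟩, by rw [heq, ht1.2]⟩
    have := le_max' T i this
    omega
  have hpt : p ≤ a t := by rw [← hσe]; exact hup σ ht'2.1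
  have hσt : σ ≤ t := by
    by_contra hcon
    have := hlt t (by omega)
    omega
  exact ⟨t, t', ⟨ht2.2, ht'2.2, hup, hup', fun i h2 h3 => hlo i (hσt.trans h2) h3, hlo',
    by rw [← hσe]; exact hlo σ le_rfl hσN, hpt⟩⟩

end Pool.Agent.H725R2.SB
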