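import Pool.Agent.H725R2.SB.Defs2

/-! Task F1 of the sub-ballisticity project. -/

set_option autoImplicit false

namespace Pool.Agent.H725R2.SB

open Finset

variable {V : Type*} [AddCommGroup V] {Ω : Finset V}

private theorem tF1_step (L : Lev Ω) (T : Finset ℕ) (ξ : ℕ → V) (n : ℕ) :
    lev L (op L.r T ξ) (n + 1) = lev L (op L.r T ξ) n +
      (if n ∈ T then -(lev L ξ (n + 1) - lev L ξ n) else lev L ξ (n + 1) - lev L ξ n) := by
  rw [lev_succ, lev_succ]
  unfold op
  split_ifs
  · rw [L.rF]; ring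
  · ring

theorem unfold_saw (L : Lev Ω) {N : ℕ} {ξ : ℕ → V} (h : IsSaw Ω N ξ) {p : ℤ} {t t' : ℕ}
    (hb : BT (lev L ξ) N p t t') :
    IsSaw Ω N (op L.r (Finset.Ico t t') ξ) ∧
    (∀ i, i ≤ t → lev L (op L.r (Finset.Ico t t') ξ) i = lev L ξ i) ∧
    (∀ i, t ≤ i → i ≤ t' → lev L (op L.r (Finset.Ico t t') ξ) i = 2 * lev L ξ t - lev L ξ i) ∧
    (∀ i, t' ≤ i → lev L (op L.r (Finset.Ico t t') ξ) i =
      lev L ξ i + 2 * (lev L ξ t - lev L ξ t')) := by
  have f1 : ∀ i, i ≤ t → lev L (op L.r (Finset.Ico t t') ξ) i = lev L ξ i := by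
    intro i
    induction i with
    | zero => intro _; simp
    | succ n ih =>
      intro hn
      rw [tF1_step, ih (by omega), if_neg (by rw [mem_Ico]; omega)]
      ring
  have f2 : ∀ i, t ≤ i → i ≤ t' →
      lev L (op L.r (Finset.Ico t t') ξ) i = 2 * lev L ξ t - lev L ξ i := by
    intro i hi
    induction i, hi using Nat.le_induction with
    | base => intro _; rw [f1 t le_rfl]; ring
    | succ n hn ih =>
      intro hn'
      rw [tF1_step, ih (by omega), if_pos (by rw [mem_Ico]; omega)]
      ring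
  have f3 : ∀ i, t' ≤ i → lev L (op L.r (Finset.Ico t t') ξ) i =
      lev L ξ i + 2 * (lev L ξ t - lev L ξ t') := by
    intro i hi
    induction i, hi using Nat.le_induction with
    | base => rw [f2 t' hb.le le_rfl]; ring
    | succ n hn ih =>
      rw [tF1_step, ih, if_neg (by rw [mem_Ico]; omega)]
      ring
  refine ⟨?_, f1, f2, f3⟩
  have htt : lev L ξ t' ≤ lev L ξ t := hb.up t' le_rfl
  apply h.op_of_sep L.rΩ (Finset.Ico t t') L
  intro i j hij hj
  by_cases c1 : i ≤ t ∧ t < j
  · left
    refine ⟨t, c1.1, c1.2, ?_, ?_⟩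
    · intro n hn
      rw [f1 n hn, f1 t le_rfl]
      exact hb.up n (hn.trans hb.le)
    · intro n hn hnN
      rw [f1 t le_rfl]
      rcases le_or_gt n t' with h1 | h1
      · rw [f2 n hn.le h1]
        have := hb.up' n hn h1
        linarith
      · rw [f3 n h1.le]
        have := hb.lo' n h1 hnN
        linarith
  by_cases c2 : i ≤ t' ∧ t' < j
  · left
    refine ⟨t', c2.1, c2.2, ?_, ?_⟩
    · intro n hn
      rw [f3 t' le_rfl]
      rcases le_or_gt n t with h1 | h1
      · rw [f1 n h1]
        have := hb.up n hn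
        linarith
      · rw [f2 n h1.le hn]
        have := hb.lo n h1.le (hn.trans hb.leN)
        linarith
    · intro n hn hnN
      rw [f3 n hn.le, f3 t' le_rfl]
      have := hb.lo' n hn hnN
      linarith
  right
  rcases le_or_gt j t with h1 | h1
  · right
    intro k _ hk
    rw [mem_Ico]
    omega
  · rcases le_or_gt j t' with h2 | h2
    · left
      intro k hk hk'
      rw [mem_Ico]
      omega
    · right
      intro k hk _
      rw [mem_Ico]
      omega

end Pool.Agent.H725R2.SB
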