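import Pool.Agent.H725R2.SB.Defs2

/-! Task H of the sub-ballisticity project. -/

set_option autoImplicit false

namespace Pool.Agent.H725R2.SB

open Finset

variable {V : Type*} [AddCommGroup V] {Ω : Finset V}

/-- grid indices inside the time interval `x` -/
def tH_K (τ : ℕ) (x : ℕ × ℕ) : Finset ℕ := Finset.Ico ((x.1 + τ - 1) / τ) (x.2 / τ)

theorem tH_mem {τ : ℕ} (hτ : 1 ≤ τ) {x : ℕ × ℕ} {k : ℕ} :
    k ∈ tH_K τ x ↔ x.1 ≤ k * τ ∧ (k + 1) * τ ≤ x.2 := by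
  unfold tH_K
  have e1 : (x.1 + τ - 1) / τ < k + 1 ↔ x.1 + τ - 1 < (k + 1) * τ :=
    Nat.div_lt_iff_lt_mul (by omega)
  have e2 : k + 1 ≤ x.2 / τ ↔ (k + 1) * τ ≤ x.2 := Nat.le_div_iff_mul_le (by omega)
  have e3 : (k + 1) * τ = k * τ + τ := by ring
  rw [Finset.mem_Ico]
  constructor
  · rintro ⟨h1, h2⟩
    exact ⟨by have := e1.1 (by omega); omega, e2.1 h2⟩
  · rintro ⟨h1, h2⟩
    exact ⟨by have := e1.2 (by omega); omega, e2.2 h2⟩

theorem tH_tel (c : ℕ → ℤ) {p q : ℕ} (h : p ≤ q) :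
    ∑ k ∈ Finset.Ico p q, (c (k + 1) - c k) = c q - c p := by
  induction q, h using Nat.le_induction with
  | base => simp
  | succ q hq ih =>
    rw [Finset.sum_Ico_succ_top hq, ih]
    ring

theorem tH_single {b : ℕ → ℤ} (hb : ∀ i, |b (i + 1) - b i| ≤ 1) {τ : ℕ} (hτ : 1 ≤ τ)
    {x : ℕ × ℕ} (hx : x.1 ≤ x.2) :
    |∑ k ∈ tH_K τ x, (b ((k + 1) * τ) - b (k * τ)) - (b x.2 - b x.1)| ≤ 2 * (τ : ℤ) := by
  have hp1 : x.1 ≤ (x.1 + τ - 1) / τ * τ := by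
    have := Nat.lt_div_mul_add (a := x.1 + τ - 1) (b := τ) (by omega)
    omega
  have hp2 : (x.1 + τ - 1) / τ * τ ≤ x.1 + τ - 1 := Nat.div_mul_le_self _ _
  have hq1 : x.2 / τ * τ ≤ x.2 := Nat.div_mul_le_self _ _
  have hq2 : x.2 < x.2 / τ * τ + τ := Nat.lt_div_mul_add (by omega)
  rcases le_or_gt ((x.1 + τ - 1) / τ) (x.2 / τ) with h | h
  · have e := tH_tel (fun k => b (k * τ)) h
    unfold tH_K
    rw [e]
    have h1 := lip_le hb hp1
    have h2 := lip_le hb hq1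
    generalize (x.1 + τ - 1) / τ * τ = p at *
    generalize x.2 / τ * τ = q at *
    rw [abs_le] at *
    constructor <;> omega
  · have hK : tH_K τ x = ∅ := by
      unfold tH_K
      exact Finset.Ico_eq_empty_of_le h.le
    rw [hK, Finset.sum_empty]
    have h1 := lip_le hb hx
    have h3 : x.2 / τ * τ + τ ≤ (x.1 + τ - 1) / τ * τ := by
      have := Nat.mul_le_mul_right τ (Nat.succ_le_of_lt h)
      rw [Nat.succ_eq_add_one, add_mul, one_mul] at this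
      exact this
    rw [abs_le] at *
    constructor <;> omega

theorem tH_disj {τ : ℕ} (hτ : 1 ≤ τ) {I : Finset (ℕ × ℕ)} (hI : Disj I) :
    (I : Set (ℕ × ℕ)).PairwiseDisjoint (tH_K τ) := by
  intro x hx y hy hxy
  change Disjoint (tH_K τ x) (tH_K τ y)
  rw [Finset.disjoint_left]
  intro k hk1 hk2
  rw [tH_mem hτ] at hk1 hk2
  have e : (k + 1) * τ = k * τ + τ := by ring
  rcases hI x hx y hy hxy with h | h <;> omega

theorem tH_grid {b : ℕ → ℤ} (hb : ∀ i, |b (i + 1) - b i| ≤ 1) {τ : ℕ} (hτ : 1 ≤ τ)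
    {I : Finset (ℕ × ℕ)} (hI : Disj I) (hI2 : ∀ x ∈ I, x.1 ≤ x.2) :
    |∑ k ∈ I.biUnion (tH_K τ), (b ((k + 1) * τ) - b (k * τ)) - ∑ x ∈ I, (b x.2 - b x.1)|
      ≤ 2 * (τ : ℤ) * I.card := by
  rw [Finset.sum_biUnion (tH_disj hτ hI), ← Finset.sum_sub_distrib]
  refine (Finset.abs_sum_le_sum_abs _ _).trans ?_
  refine (Finset.sum_le_sum (fun x hx => tH_single hb hτ (hI2 x hx))).trans ?_
  rw [Finset.sum_const, nsmul_eq_mul]
  exact le_of_eq (by ring)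

theorem tH_sub {τ : ℕ} (hτ : 1 ≤ τ) {n : ℕ} {I : Finset (ℕ × ℕ)} (hI2 : ∀ x ∈ I, x.2 ≤ n * τ) :
    I.biUnion (tH_K τ) ⊆ range n := by
  intro k hk
  rw [Finset.mem_biUnion] at hk
  obtain ⟨x, hx, hk⟩ := hk
  rw [tH_mem hτ] at hk
  have h1 := hk.2.trans (hI2 x hx)
  have h2 := Nat.le_of_mul_le_mul_right h1 (by omega)
  rw [Finset.mem_range]
  omega

/-- the excess bounds the variation on every set of grid intervals -/
theorem tH_exc (L : Lev Ω) (s : ℝ) (τ n : ℕ) (ξ : ℕ → V) {K : Finset ℕ} (hK : K ⊆ range n) :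
    ∑ k ∈ K, |((lev L ξ ((k + 1) * τ) - lev L ξ (k * τ) : ℤ) : ℝ)| ≤
      s * τ * K.card + exc L s τ n ξ := by
  have h1 : ∑ k ∈ K, |((lev L ξ ((k + 1) * τ) - lev L ξ (k * τ) : ℤ) : ℝ)| ≤
      ∑ k ∈ K, (s * τ + max 0 (|((lev L ξ ((k + 1) * τ) - lev L ξ (k * τ) : ℤ) : ℝ)| - s * τ)) := by
    refine Finset.sum_le_sum (fun k _ => ?_)
    have := le_max_right 0 (|((lev L ξ ((k + 1) * τ) - lev L ξ (k * τ) : ℤ) : ℝ)| - s * τ)
    linarith
  refine h1.trans ?_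
  rw [Finset.sum_add_distrib, Finset.sum_const, nsmul_eq_mul]
  have h2 : ∑ k ∈ K, max 0 (|((lev L ξ ((k + 1) * τ) - lev L ξ (k * τ) : ℤ) : ℝ)| - s * τ) ≤
      exc L s τ n ξ := by
    unfold exc
    exact Finset.sum_le_sum_of_subset_of_nonneg hK (fun k _ _ => le_max_left _ _)
  linarith

set_option maxHeartbeats 1000000 in
theorem det (Fr : Frame Ω) {N n τ w : ℕ} (hN : N = n * τ) (hτ : 1 ≤ τ) (hw : 8 * τ ≤ w)
    {ξ : ℕ → V} (hξ : IsSaw Ω N ξ) {v : ℝ} (hv : 0 ≤ v)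
    (hA : v * N ≤ (lev Fr.A ξ N : ℝ))
    (tA : exc Fr.A (lam * v) τ n ξ ≤ ep * v * N)
    (tB : exc Fr.B (1.45 * v / Fr.κ) τ n ξ ≤ ep * v * N / Fr.κ)
    (tB' : exc Fr.B' (1.45 * v / Fr.κ) τ n ξ ≤ ep * v * N / Fr.κ) :
    (0.5 * v * N ≤ Fr.κ * (lev Fr.B ξ N : ℝ)) ∧
    (∀ I : Finset (ℕ × ℕ), Disj I →
      (∀ x ∈ I, x.1 ≤ x.2 ∧ x.2 ≤ N ∧ ((8 * τ : ℕ) : ℤ) ≤ lev Fr.B ξ x.1 - lev Fr.B ξ x.2) →
      ((∑ x ∈ I, (lev Fr.B ξ x.1 - lev Fr.B ξ x.2) : ℤ) : ℝ) ≤ 4 * dl * v * N) ∧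
    (∀ I : Finset (ℕ × ℕ), Disj I →
      (∀ x ∈ I, x.1 ≤ x.2 ∧ x.2 ≤ N ∧ 4 * (w : ℤ) ≤ lev Fr.B ξ x.2 - lev Fr.B ξ x.1 ∧
        lev Fr.B' ξ x.2 ≤ lev Fr.B' ξ x.1) →
      (I.card : ℝ) * w ≤ 3 * dl * v * N) := by
  have hκ1 : (1 : ℝ) ≤ Fr.κ := by rcases Fr.hκ with h | h <;> rw [h] <;> norm_num
  have hκ0 : (Fr.κ : ℝ) ≠ 0 := by positivity
  have hNr : (N : ℝ) = n * τ := by rw [hN]; push_cast; ring
  -- increments
  set dA : ℕ → ℝ := fun k => ((lev Fr.A ξ ((k + 1) * τ) - lev Fr.A ξ (k * τ) : ℤ) : ℝ) with hdA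
  set dB : ℕ → ℝ := fun k => ((lev Fr.B ξ ((k + 1) * τ) - lev Fr.B ξ (k * τ) : ℤ) : ℝ) with hdB
  set dB' : ℕ → ℝ := fun k => ((lev Fr.B' ξ ((k + 1) * τ) - lev Fr.B' ξ (k * τ) : ℤ) : ℝ)
    with hdB'
  have hrel : ∀ k, 2 * dA k = Fr.κ * (dB k + dB' k) := by
    intro k
    have h1 := Fr.rel (P ξ ((k + 1) * τ))
    have h2 := Fr.rel (P ξ (k * τ))
    have h3 : 2 * (lev Fr.A ξ ((k + 1) * τ) - lev Fr.A ξ (k * τ)) =
        Fr.κ * ((lev Fr.B ξ ((k + 1) * τ) - lev Fr.B ξ (k * τ)) +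
          (lev Fr.B' ξ ((k + 1) * τ) - lev Fr.B' ξ (k * τ))) := by
      unfold lev
      linear_combination h1 - h2
    have h4 := congrArg (fun z : ℤ => (z : ℝ)) h3
    simp only [hdA, hdB, hdB']
    push_cast at h4 ⊢
    linarith
  have hκB : ∀ K : Finset ℕ, K ⊆ range n →
      Fr.κ * ∑ k ∈ K, |dB k| ≤ 1.45 * v * (τ * K.card) + ep * v * N := by
    intro K hK
    have h1 := tH_exc Fr.B (1.45 * v / Fr.κ) τ n ξ hK
    have h2 := h1.trans (add_le_add_right tB _)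
    have h3 := mul_le_mul_of_nonneg_left h2 (by linarith : (0 : ℝ) ≤ Fr.κ)
    refine h3.trans (le_of_eq ?_)
    field_simp
  have hκB' : ∀ K : Finset ℕ, K ⊆ range n →
      Fr.κ * ∑ k ∈ K, |dB' k| ≤ 1.45 * v * (τ * K.card) + ep * v * N := by
    intro K hK
    have h1 := tH_exc Fr.B' (1.45 * v / Fr.κ) τ n ξ hK
    have h2 := h1.trans (add_le_add_right tB' _)
    have h3 := mul_le_mul_of_nonneg_left h2 (by linarith : (0 : ℝ) ≤ Fr.κ)
    refine h3.trans (le_of_eq ?_)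
    field_simp
  have hAK : ∀ K : Finset ℕ, K ⊆ range n →
      v * (lam * (τ * K.card) - dl * N) ≤ ∑ k ∈ K, dA k := by
    intro K hK
    have h1 := tH_exc Fr.A (lam * v) τ n ξ (K := range n \ K) Finset.sdiff_subset
    have h2 : ∑ k ∈ range n, dA k = (lev Fr.A ξ N : ℝ) := by
      have e := tH_tel (fun k => lev Fr.A ξ (k * τ)) (Nat.zero_le n)
      rw [← Finset.range_eq_Ico] at e
      simp only [hdA]
      rw [← Int.cast_sum]
      simp only [zero_mul, lev_zero, sub_zero] at e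
      rw [e, hN]
    have h3 : ∑ k ∈ range n \ K, dA k + ∑ k ∈ K, dA k = ∑ k ∈ range n, dA k :=
      Finset.sum_sdiff hK
    have h4 : ∑ k ∈ range n \ K, dA k ≤ ∑ k ∈ range n \ K, |dA k| :=
      Finset.sum_le_sum (fun k _ => le_abs_self _)
    have h5 : ((range n \ K).card : ℝ) = n - K.card := by
      have := Finset.card_sdiff_add_card_eq_card hK
      rw [Finset.card_range] at this
      have h6 : ((range n \ K).card : ℝ) + K.card = n := by exact_mod_cast this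
      linarith
    rw [h5] at h1
    have h7 : (∑ k ∈ range n \ K, |dA k|) ≤
        lam * v * τ * (n - K.card) + ep * v * N := h1.trans (by linarith)
    have h8 : lam * v * τ * (n - K.card) + ep * v * N =
        v * N - v * (lam * (τ * K.card) - dl * N) := by
      rw [hNr]
      unfold lam ep dl
      ring
    linarith
  have hlow : ∀ K : Finset ℕ, K ⊆ range n →
      v * (0.55 * (τ * K.card) - 2.5 * dl * N) ≤ Fr.κ * ∑ k ∈ K, dB k ∧
      v * (0.55 * (τ * K.card) - 2.5 * dl * N) ≤ Fr.κ * ∑ k ∈ K, dB' k := by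
    intro K hK
    have h1 := hAK K hK
    have h2 : 2 * ∑ k ∈ K, dA k = Fr.κ * ∑ k ∈ K, dB k + Fr.κ * ∑ k ∈ K, dB' k := by
      rw [Finset.mul_sum, Finset.mul_sum, Finset.mul_sum, ← Finset.sum_add_distrib]
      refine Finset.sum_congr rfl (fun k _ => ?_)
      rw [hrel k]; ring
    have h3 := hκB K hK
    have h4 := hκB' K hK
    have h5 : Fr.κ * ∑ k ∈ K, dB k ≤ Fr.κ * ∑ k ∈ K, |dB k| :=
      mul_le_mul_of_nonneg_left (Finset.sum_le_sum (fun k _ => le_abs_self _)) (by linarith)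
    have h6 : Fr.κ * ∑ k ∈ K, dB' k ≤ Fr.κ * ∑ k ∈ K, |dB' k| :=
      mul_le_mul_of_nonneg_left (Finset.sum_le_sum (fun k _ => le_abs_self _)) (by linarith)
    have hT : (0 : ℝ) ≤ v * (τ * K.card) := by positivity
    have hNn : (0 : ℝ) ≤ v * N := by positivity
    unfold lam dl at h1
    unfold ep at h3 h4
    unfold dl
    constructor <;> nlinarith
  refine ⟨?_, ?_, ?_⟩
  · have h1 := (hlow (range n) (Finset.Subset.refl _)).1
    have h2 : ∑ k ∈ range n, dB k = (lev Fr.B ξ N : ℝ) := by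
      have e := tH_tel (fun k => lev Fr.B ξ (k * τ)) (Nat.zero_le n)
      rw [← Finset.range_eq_Ico] at e
      simp only [hdB]
      rw [← Int.cast_sum]
      simp only [zero_mul, lev_zero, sub_zero] at e
      rw [e, hN]
    rw [h2, Finset.card_range] at h1
    have hNn : (0 : ℝ) ≤ v * N := by positivity
    have h3 : (τ : ℝ) * n = N := by rw [hNr]; ring
    rw [h3] at h1
    unfold dl at h1
    nlinarith
  · intro I hI hI2
    have hsub := tH_sub hτ (n := n) (fun x hx => hN ▸ (hI2 x hx).2.1 : ∀ x ∈ I, x.2 ≤ n * τ)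
    have h1 := (hlow _ hsub).1
    have h2 := tH_grid (lev_lip Fr.B hξ) hτ hI (fun x hx => (hI2 x hx).1)
    rw [abs_le] at h2
    have h3 : ((8 * τ : ℕ) : ℤ) * I.card ≤ ∑ x ∈ I, (lev Fr.B ξ x.1 - lev Fr.B ξ x.2) := by
      have := Finset.sum_le_sum (fun x hx => (hI2 x hx).2.2)
      rw [Finset.sum_const, nsmul_eq_mul] at this
      linarith
    have h4 : ∑ x ∈ I, (lev Fr.B ξ x.2 - lev Fr.B ξ x.1) =
        - ∑ x ∈ I, (lev Fr.B ξ x.1 - lev Fr.B ξ x.2) := by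
      rw [← Finset.sum_neg_distrib]
      exact Finset.sum_congr rfl (fun x _ => by ring)
    rw [h4] at h2
    set D : ℤ := ∑ x ∈ I, (lev Fr.B ξ x.1 - lev Fr.B ξ x.2) with hD
    have h5 : (((∑ k ∈ I.biUnion (tH_K τ), (lev Fr.B ξ ((k + 1) * τ) - lev Fr.B ξ (k * τ))) : ℤ) : ℝ)
        = ∑ k ∈ I.biUnion (tH_K τ), dB k := by
      simp only [hdB]
      rw [Int.cast_sum]
    rw [← h5] at h1
    generalize (∑ k ∈ I.biUnion (tH_K τ), (lev Fr.B ξ ((k + 1) * τ) - lev Fr.B ξ (k * τ))) = S at *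
    have h6 : 4 * S ≤ - 3 * D := by
      push_cast at h3
      nlinarith [h2.2]
    have h7 : (4 : ℝ) * S ≤ -3 * D := by exact_mod_cast h6
    have h8 : (0 : ℤ) ≤ D := le_trans (by positivity) h3
    have h9 : (0 : ℝ) ≤ D := by exact_mod_cast h8
    have h10 : (0 : ℝ) ≤ v * (τ * (I.biUnion (tH_K τ)).card) := by positivity
    have h11 : (Fr.κ : ℝ) * (4 * S) ≤ Fr.κ * (-3 * D) :=
      mul_le_mul_of_nonneg_left h7 (by linarith)
    have h12 : (D : ℝ) ≤ Fr.κ * D := by nlinarith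
    have hNn : (0 : ℝ) ≤ v * N := by positivity
    unfold dl at *
    nlinarith
  · intro I hI hI2
    have hsub := tH_sub hτ (n := n) (fun x hx => hN ▸ (hI2 x hx).2.1 : ∀ x ∈ I, x.2 ≤ n * τ)
    have h1 := (hlow _ hsub).2
    have hB := hκB _ hsub
    have h2 := tH_grid (lev_lip Fr.B hξ) hτ hI (fun x hx => (hI2 x hx).1)
    have h2' := tH_grid (lev_lip Fr.B' hξ) hτ hI (fun x hx => (hI2 x hx).1)
    rw [abs_le] at h2 h2'
    have h3 : 4 * (w : ℤ) * I.card ≤ ∑ x ∈ I, (lev Fr.B ξ x.2 - lev Fr.B ξ x.1) := by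
      have := Finset.sum_le_sum (fun x hx => (hI2 x hx).2.2.1)
      rw [Finset.sum_const, nsmul_eq_mul] at this
      linarith
    have h3' : ∑ x ∈ I, (lev Fr.B' ξ x.2 - lev Fr.B' ξ x.1) ≤ 0 :=
      Finset.sum_nonpos (fun x hx => by have := (hI2 x hx).2.2.2; linarith)
    have h5 : (((∑ k ∈ I.biUnion (tH_K τ), (lev Fr.B ξ ((k + 1) * τ) - lev Fr.B ξ (k * τ))) : ℤ) : ℝ)
        = ∑ k ∈ I.biUnion (tH_K τ), dB k := by
      simp only [hdB]
      rw [Int.cast_sum]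
    have h5' : (((∑ k ∈ I.biUnion (tH_K τ),
        (lev Fr.B' ξ ((k + 1) * τ) - lev Fr.B' ξ (k * τ))) : ℤ) : ℝ)
        = ∑ k ∈ I.biUnion (tH_K τ), dB' k := by
      simp only [hdB']
      rw [Int.cast_sum]
    rw [← h5'] at h1
    have h6 : ∑ k ∈ I.biUnion (tH_K τ), dB k ≤ ∑ k ∈ I.biUnion (tH_K τ), |dB k| :=
      Finset.sum_le_sum (fun k _ => le_abs_self _)
    rw [← h5] at h6
    generalize (∑ k ∈ I.biUnion (tH_K τ), (lev Fr.B ξ ((k + 1) * τ) - lev Fr.B ξ (k * τ))) = S at *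
    generalize (∑ k ∈ I.biUnion (tH_K τ),
      (lev Fr.B' ξ ((k + 1) * τ) - lev Fr.B' ξ (k * τ))) = S' at *
    generalize (∑ k ∈ I.biUnion (tH_K τ), |dB k|) = R at *
    have a1 : (4 * (w : ℤ) - 2 * τ) * I.card ≤ S := by nlinarith [h2.1]
    have a2 : S' ≤ 2 * (τ : ℤ) * I.card := by linarith [h2'.2]
    have a1' : (4 * (w : ℝ) - 2 * τ) * I.card ≤ S := by exact_mod_cast a1
    have a2' : (S' : ℝ) ≤ 2 * (τ : ℝ) * I.card := by exact_mod_cast a2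
    have a3 : (Fr.κ : ℝ) * S' ≤ Fr.κ * (2 * (τ : ℝ) * I.card) :=
      mul_le_mul_of_nonneg_left a2' (by linarith)
    have a4 : (Fr.κ : ℝ) * ((4 * (w : ℝ) - 2 * τ) * I.card) ≤ Fr.κ * R :=
      mul_le_mul_of_nonneg_left (a1'.trans h6) (by linarith)
    have hwr : (8 : ℝ) * τ ≤ w := by exact_mod_cast hw
    have hNn : (0 : ℝ) ≤ v * N := by positivity
    set T : ℝ := v * (τ * (I.biUnion (tH_K τ)).card) with hT
    have b1 : 0.55 * T ≤ 2.5 * dl * (v * N) + Fr.κ * (2 * (τ : ℝ) * I.card) := by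
      rw [hT]; nlinarith
    have b2 : (Fr.κ : ℝ) * ((4 * (w : ℝ) - 2 * τ) * I.card) ≤ 1.45 * T + ep * (v * N) := by
      refine a4.trans (hB.trans (le_of_eq ?_))
      rw [hT]; ring
    have hcτ : (Fr.κ : ℝ) * (8 * (τ : ℝ) * I.card) ≤ Fr.κ * (w * I.card) :=
      mul_le_mul_of_nonneg_left (mul_le_mul_of_nonneg_right hwr (by positivity)) (by linarith)
    have hcw : (w : ℝ) * I.card ≤ Fr.κ * (w * I.card) := by
      have : (0 : ℝ) ≤ (w : ℝ) * I.card := by positivity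
      nlinarith
    unfold ep at b2
    unfold dl at *
    nlinarith

end Pool.Agent.H725R2.SB
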