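import Pool.Agent.H725R2.SB.Defs2

/-! Task L of the sub-ballisticity project. -/

set_option autoImplicit false

namespace Pool.Agent.H725R2.SB

open Finset

theorem iterate {f g : ℝ → ℝ} (f0 : ∀ x, 0 ≤ f x) (f1 : ∀ x, f x ≤ 1) (g1 : ∀ x, g x ≤ 1)
    (fm : ∀ x y, x ≤ y → f x ≤ f y) (gm : ∀ x y, x ≤ y → g x ≤ g y)
    (fg : ∀ x y, 0 < x → x < y → f x ≤ g y) {l x₀ : ℝ} (hl : 1 < l) (hx₀ : 0 < x₀)
    (step : ∀ x, 0 < x → x < x₀ → 2 * x ^ (1 / 5 : ℝ) ≤ f x → 2 * x ^ (1 / 5 : ℝ) ≤ g x →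
      l * f x ≤ f (x ^ (1 / 20 : ℝ)) ∨ l * g x ≤ g (x ^ (1 / 20 : ℝ))) :
    ∃ C : ℝ, 0 < C ∧ ∀ v x : ℝ, 0 < v → v ≤ 1 → 0 < x → v ≤ f x →
      Real.exp (-(C * v ^ (-C))) ≤ x := by
  have hll : 0 < Real.log l := Real.log_pos hl
  have hl0 : 0 < l := by linarith
  set a : ℝ := 2 * Real.log 20 / Real.log l with ha
  have h20 : 0 < Real.log 20 := Real.log_pos (by norm_num)
  have ha0 : 0 < a := by positivity
  set A : ℝ := 20 * (|Real.log x₀| + 10) with hA
  have hA0 : 0 < A := by positivity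
  refine ⟨max A (a + 1), lt_max_of_lt_left hA0, fun v x hv hv1 hx hvx => ?_⟩
  set C := max A (a + 1) with hC
  have hC0 : 0 < C := lt_max_of_lt_left hA0
  have hCv : 0 < C * v ^ (-C) := mul_pos hC0 (Real.rpow_pos_of_pos hv _)
  rcases le_or_gt 1 x with hx1 | hx1
  · refine le_trans ?_ hx1
    rw [Real.exp_le_one_iff]
    linarith
  suffices hmain : -Real.log x ≤ C * v ^ (-C) by
    calc Real.exp (-(C * v ^ (-C))) ≤ Real.exp (Real.log x) := Real.exp_le_exp.2 (by linarith)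
      _ = x := Real.exp_log hx
  -- the sequence
  set y : ℕ → ℝ := fun k => x ^ ((1 / 20 : ℝ) ^ (k + 1)) with hy
  have hy0 : ∀ k, 0 < y k := fun k => Real.rpow_pos_of_pos hx _
  have hy1 : ∀ k, y k < 1 := fun k => Real.rpow_lt_one hx.le hx1 (by positivity)
  have hys : ∀ k, y (k + 1) = (y k) ^ (1 / 20 : ℝ) := by
    intro k
    simp only [hy]
    rw [← Real.rpow_mul hx.le]
    congr 1
  have hyl : ∀ k, Real.log (y k) = (1 / 20 : ℝ) ^ (k + 1) * Real.log x := fun k =>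
    Real.log_rpow hx _
  have hxy : x < y 0 := by
    have h1 : x ^ (1 : ℝ) < x ^ ((1 / 20 : ℝ) ^ (0 + 1)) :=
      Real.rpow_lt_rpow_of_exponent_gt hx hx1 (by norm_num)
    rwa [Real.rpow_one] at h1
  have hmono : ∀ k, y k ≤ y (k + 1) := by
    intro k
    rw [hys]
    have h1 : (y k) ^ (1 : ℝ) ≤ (y k) ^ (1 / 20 : ℝ) :=
      Real.rpow_le_rpow_of_exponent_ge (hy0 k) (hy1 k).le (by norm_num)
    rwa [Real.rpow_one] at h1
  set z : ℝ := min x₀ ((v / 2) ^ 5) with hz
  have hz0 : 0 < z := lt_min hx₀ (by positivity)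
  have hind : ∀ n, (∀ k < n, y k < z) → v ≤ f (y n) ∧ v ≤ g (y n) ∧
      v ^ 2 * l ^ n ≤ f (y n) * g (y n) := by
    intro n
    induction n with
    | zero =>
      intro _
      have h1 : v ≤ f (y 0) := hvx.trans (fm _ _ hxy.le)
      have h2 : v ≤ g (y 0) := hvx.trans (fg _ _ hx hxy)
      refine ⟨h1, h2, ?_⟩
      rw [pow_zero, mul_one, sq]
      exact mul_le_mul h1 h2 hv.le (hv.le.trans h1)
    | succ n ih =>
      intro h
      obtain ⟨h1, h2, h3⟩ := ih fun k hk => h k (by omega)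
      have h4 := h n (by omega)
      have h5 : y n < x₀ := h4.trans_le (min_le_left _ _)
      have h6 : y n < (v / 2) ^ 5 := h4.trans_le (min_le_right _ _)
      have h7 : 2 * (y n) ^ (1 / 5 : ℝ) ≤ v := by
        have b1 : (y n) ^ (1 / 5 : ℝ) ≤ ((v / 2) ^ 5) ^ (1 / 5 : ℝ) :=
          Real.rpow_le_rpow (hy0 n).le h6.le (by norm_num)
        have b2 : ((v / 2) ^ 5) ^ (1 / 5 : ℝ) = v / 2 := by
          rw [← Real.rpow_natCast, ← Real.rpow_mul (by positivity)]
          norm_num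
        rw [b2] at b1
        linarith
      have m1 : f (y n) ≤ f (y (n + 1)) := fm _ _ (hmono n)
      have m2 : g (y n) ≤ g (y (n + 1)) := gm _ _ (hmono n)
      have s := step (y n) (hy0 n) h5 (h7.trans h1) (h7.trans h2)
      rw [← hys] at s
      refine ⟨h1.trans m1, h2.trans m2, ?_⟩
      have hf0 : 0 ≤ f (y n) := f0 _
      have hg0 : 0 ≤ g (y n) := hv.le.trans h2
      have c1 : v ^ 2 * l ^ (n + 1) ≤ l * (f (y n) * g (y n)) := by
        calc v ^ 2 * l ^ (n + 1) = l * (v ^ 2 * l ^ n) := by ring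
          _ ≤ l * (f (y n) * g (y n)) := mul_le_mul_of_nonneg_left h3 hl0.le
      refine c1.trans ?_
      rcases s with s | s
      · calc l * (f (y n) * g (y n)) = (l * f (y n)) * g (y n) := by ring
          _ ≤ f (y (n + 1)) * g (y (n + 1)) := mul_le_mul s m2 hg0 (hf0.trans m1)
      · calc l * (f (y n) * g (y n)) = f (y n) * (l * g (y n)) := by ring
          _ ≤ f (y (n + 1)) * g (y (n + 1)) :=
            mul_le_mul m1 s (mul_nonneg hl0.le hg0) (hf0.trans m1)
  set K : ℕ := ⌊2 * (-Real.log v) / Real.log l⌋₊ + 1 with hK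
  have hlv : Real.log v ≤ 0 := Real.log_nonpos hv.le hv1
  have hKr : 0 ≤ 2 * (-Real.log v) / Real.log l := by
    apply div_nonneg _ hll.le
    linarith
  have hK1 : 2 * (-Real.log v) / Real.log l < K := by
    rw [hK]
    push_cast
    exact Nat.lt_floor_add_one _
  have hK2 : (K : ℝ) ≤ 2 * (-Real.log v) / Real.log l + 1 := by
    rw [hK]
    push_cast
    have := Nat.floor_le hKr
    linarith
  have hex : ∃ k < K, z ≤ y k := by
    by_contra hcon
    push Not at hcon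
    obtain ⟨_, _, h3⟩ := hind K hcon
    have h4 : v ^ 2 * l ^ K ≤ 1 := h3.trans (mul_le_one₀ (f1 _) (hv.le.trans (hind K hcon).2.1) (g1 _))
    have h5 : Real.log (v ^ 2 * l ^ K) ≤ 0 := Real.log_nonpos (by positivity) h4
    rw [Real.log_mul (by positivity) (by positivity), Real.log_pow, Real.log_pow] at h5
    rw [div_lt_iff₀ hll] at hK1
    push_cast at h5
    linarith
  obtain ⟨k, hk, hzk⟩ := hex
  have e1 : Real.log z ≤ (1 / 20 : ℝ) ^ (k + 1) * Real.log x := by
    rw [← hyl k]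
    exact Real.log_le_log hz0 hzk
  have hz1 : z ≤ 1 := (min_le_right _ _).trans (pow_le_one₀ (by positivity) (by linarith))
  have hlz : 0 ≤ -Real.log z := by
    have := Real.log_nonpos hz0.le hz1
    linarith
  have e2 : -Real.log x ≤ 20 ^ (k + 1) * (-Real.log z) := by
    have b1 : (20 : ℝ) ^ (k + 1) * ((1 / 20 : ℝ) ^ (k + 1) * Real.log x) = Real.log x := by
      rw [← mul_assoc, ← mul_pow]
      norm_num
    have b2 : (20 : ℝ) ^ (k + 1) * Real.log z ≤ (20 : ℝ) ^ (k + 1) * ((1 / 20 : ℝ) ^ (k + 1) * Real.log x) :=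
      mul_le_mul_of_nonneg_left e1 (by positivity)
    rw [b1] at b2
    linarith
  have e3 : (20 : ℝ) ^ (k + 1) ≤ 20 * v ^ (-a) := by
    have b1 : (20 : ℝ) ^ (k + 1) ≤ 20 ^ K := pow_le_pow_right₀ (by norm_num) (by omega)
    refine b1.trans ?_
    have b2 : (20 : ℝ) ^ K = Real.exp (K * Real.log 20) := by
      rw [mul_comm, ← Real.rpow_def_of_pos (by norm_num), Real.rpow_natCast]
    have b3 : (20 : ℝ) * v ^ (-a) = Real.exp ((2 * (-Real.log v) / Real.log l + 1) * Real.log 20) := by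
      rw [Real.rpow_def_of_pos hv, add_mul, one_mul, Real.exp_add, Real.exp_log (by norm_num), mul_comm]
      congr 2
      rw [ha]
      ring
    rw [b2, b3]
    exact Real.exp_le_exp.2 (mul_le_mul_of_nonneg_right hK2 h20.le)
  have e4 : -Real.log z ≤ (|Real.log x₀| + 10) * v ^ (-1 : ℝ) := by
    have hvi : 1 ≤ v⁻¹ := (one_le_inv₀ hv).2 hv1
    rw [Real.rpow_neg_one]
    have b0 : Real.log (2 / v) ≤ 2 / v := (Real.log_le_sub_one_of_pos (by positivity)).trans (by linarith)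
    have b1 : -Real.log ((v / 2) ^ 5) ≤ 10 * v⁻¹ := by
      rw [Real.log_pow]
      have : Real.log (v / 2) = - Real.log (2 / v) := by
        rw [← Real.log_inv, inv_div]
      rw [this]
      have : 2 / v = 2 * v⁻¹ := by ring
      rw [this] at b0 ⊢
      push_cast
      linarith
    have b2 : -Real.log x₀ ≤ |Real.log x₀| * v⁻¹ := by
      have c1 : -Real.log x₀ ≤ |Real.log x₀| := neg_le_abs _
      have c2 : |Real.log x₀| * 1 ≤ |Real.log x₀| * v⁻¹ :=
        mul_le_mul_of_nonneg_left hvi (abs_nonneg _)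
      linarith
    have b3 : 0 ≤ |Real.log x₀| * v⁻¹ := by positivity
    have b4 : 0 ≤ 10 * v⁻¹ := by positivity
    rcases min_choice x₀ ((v / 2) ^ 5) with h | h
    · rw [hz, h]
      linarith
    · rw [hz, h]
      linarith
  have e5 : -Real.log x ≤ A * v ^ (-(a + 1)) := by
    have b1 : (20 : ℝ) ^ (k + 1) * (-Real.log z) ≤ (20 * v ^ (-a)) * ((|Real.log x₀| + 10) * v ^ (-1 : ℝ)) :=
      mul_le_mul e3 e4 hlz (by positivity)
    have b2 : v ^ (-(a + 1)) = v ^ (-a) * v ^ (-1 : ℝ) := by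
      rw [← Real.rpow_add hv]
      congr 1
      ring
    rw [b2]
    refine (e2.trans b1).trans (le_of_eq ?_)
    rw [hA]
    ring
  have e6 : v ^ (-(a + 1)) ≤ v ^ (-C) :=
    Real.rpow_le_rpow_of_exponent_ge hv hv1 (by
      have : a + 1 ≤ C := le_max_right _ _
      linarith)
  refine e5.trans (mul_le_mul (le_max_left _ _) e6 (Real.rpow_nonneg hv.le _) hC0.le)

end Pool.Agent.H725R2.SB
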