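import Pool.Agent.H725R2.SB.TK2
import Pool.Agent.H725R2.SB.TL

/-! Task M of the sub-ballisticity project. -/

set_option autoImplicit false

namespace Pool.Agent.H725R2.SB

open Finset

variable {V : Type*} [AddCommGroup V] {Ω : Finset V}

theorem rate (F1 F2 : Frame Ω) (k1 : F1.κ = 1) (k2 : F2.κ = 2) (e1 : F2.A = F1.B)
    (e2 : F2.B = F1.A) : ∃ C : ℝ, 0 < C ∧ ∀ v : ℝ, 0 < v → v ≤ 1 → ∀ (T : ℕ) (h : ℤ),
      v * T ≤ h → (br F1.A T h : ℝ) ≤
        mu Ω ^ T * Real.exp (-(Real.exp (-(C * v ^ (-C)))) * T) := by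
  obtain ⟨φ₀, hφ₀, hstep⟩ := vv_step F1 F2 k1 k2 e1 e2
  obtain ⟨C0, hC0, hit⟩ := iterate (f := vv F1.A) (g := vv F1.B) (l := 1 + 1 / 1000000) (x₀ := φ₀)
    (fun x => vv_nonneg _ x) (fun x => vv_le_one _ x) (fun x => vv_le_one _ x)
    (fun x y hxy => vv_mono _ hxy) (fun x y hxy => vv_mono _ hxy)
    (fun x y hx hxy => vv_A_le_B F1 k1 hx hxy) (by norm_num) hφ₀
    (fun x hx hx0 ha hb => hstep x hx hx0 ha hb)
  set C : ℝ := max C0 (Real.log 2 + C0 * 2 ^ C0) with hC
  have hCC0 : C0 ≤ C := le_max_left _ _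
  have hC2 : Real.log 2 + C0 * 2 ^ C0 ≤ C := le_max_right _ _
  refine ⟨C, lt_of_lt_of_le hC0 hCC0, ?_⟩
  intro v hv hv1 T h hvT
  rcases Nat.eq_zero_or_pos T with hT | hT
  · subst hT
    have := br_le_mu_pow F1.A 0 h
    simpa using this
  · have hT0 : (0 : ℝ) < T := by exact_mod_cast hT
    set φ : ℝ := 1 / 2 * Real.exp (-(C0 * (v / 2) ^ (-C0))) with hφ
    have hE : 0 < Real.exp (-(C0 * (v / 2) ^ (-C0))) := Real.exp_pos _
    have hφ0 : 0 < φ := by positivity
    have h1 : vv F1.A φ < v / 2 := by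
      by_contra hc
      push Not at hc
      have := hit (v / 2) φ (by linarith) (by linarith) hφ0 hc
      rw [hφ] at this
      linarith
    have h2 : vv F1.A φ * T < h := by
      have : vv F1.A φ * T < v / 2 * T := mul_lt_mul_of_pos_right h1 hT0
      nlinarith
    have h3 := lt_of_vv_lt F1.A hT h2
    refine h3.le.trans ?_
    have hmu : 0 < mu Ω := Real.exp_pos _
    refine mul_le_mul_of_nonneg_left (Real.exp_le_exp.mpr ?_) (pow_pos hmu _).le
    have h4 : Real.exp (-(C * v ^ (-C))) ≤ φ := by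
      have h5 : φ = Real.exp (-(Real.log 2 + C0 * (v / 2) ^ (-C0))) := by
        rw [hφ, neg_add, Real.exp_add, Real.exp_neg (Real.log 2), Real.exp_log two_pos]
        norm_num
      rw [h5]
      refine Real.exp_le_exp.mpr (neg_le_neg ?_)
      have h6 : (v / 2) ^ (-C0) = 2 ^ C0 * v ^ (-C0) := by
        rw [Real.div_rpow hv.le (by norm_num), Real.rpow_neg (by norm_num : (0 : ℝ) ≤ 2)]
        field_simp
      have h7 : v ^ (-C0) ≤ v ^ (-C) := Real.rpow_le_rpow_of_exponent_ge hv hv1 (by linarith)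
      have h8 : 1 ≤ v ^ (-C) := Real.one_le_rpow_of_pos_of_le_one_of_nonpos hv hv1 (by linarith)
      have h9 : 0 ≤ Real.log 2 := Real.log_nonneg (by norm_num)
      have h10 : (0 : ℝ) < 2 ^ C0 := Real.rpow_pos_of_pos two_pos _
      rw [h6]
      calc Real.log 2 + C0 * (2 ^ C0 * v ^ (-C0)) ≤ Real.log 2 * v ^ (-C) + C0 * (2 ^ C0 * v ^ (-C)) := by
            refine add_le_add (le_mul_of_one_le_right h9 h8) ?_
            gcongr
        _ = (Real.log 2 + C0 * 2 ^ C0) * v ^ (-C) := by ring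
        _ ≤ C * v ^ (-C) := mul_le_mul_of_nonneg_right hC2 (by linarith)
    nlinarith

end Pool.Agent.H725R2.SB
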